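import Pool.Agent.BSM.St
import Pool.Agent.Helper39.AF.Proj
import Pool.Agent.Helper84.Sign
import Pool.Agent.Helper7.AFT.Bal

/-!
# BSM, [Adj]: the Rosati adjoint of `J`
-/

set_option autoImplicit false

namespace BSM

open Module Matrix NumberField Pool.Agent.Helper7
open Pool.Agent.GPC (AbVar Form IsGrothendieck IsDivisorial)
open scoped ComplexConjugate

private theorem Adj_comp {A : AbVar} {f g : A.H1 → A.H1} (hf : A.IsEnd f) (hg : A.IsEnd g) :
    A.IsEnd (fun v => f (g v)) :=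
  (Pool.Agent.Helper39.AF.isEnd_iff A _).mpr (Pool.Agent.Helper39.AF.isMor_comp
    ((Pool.Agent.Helper39.AF.isEnd_iff A f).mp hf) ((Pool.Agent.Helper39.AF.isEnd_iff A g).mp hg))

private theorem Adj_sub {A : AbVar} {f g : A.H1 → A.H1} (hf : A.IsEnd f) (hg : A.IsEnd g) :
    A.IsEnd (fun v => f v - g v) := by
  have h1 := Pool.Agent.Helper39.AF.isEnd_add hf
    (Pool.Agent.Helper39.AF.isEnd_ratSmul hg (-1))
  have h2 : (fun v => f v + ((-1 : ℚ) : ℂ) • g v) = fun v => f v - g v := by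
    funext v
    rw [Rat.cast_neg, Rat.cast_one, neg_one_smul, sub_eq_add_neg]
  rwa [h2] at h1

/-- An injective endomorphism which anticommutes with `J` bounds the dimension. -/
private theorem Adj_le {A : AbVar} {J T : A.H1 → A.H1} (hJ : A.IsEnd J) (hT : A.IsEnd T)
    (hinj : Function.Injective T) (hJT : ∀ v, J (T v) = -T (J v)) (z : ℂ) :
    finrank ℂ (A.filEigen J z) ≤ finrank ℂ (A.filEigen J (-z)) := by
  let Tl : A.H1 →ₗ[ℂ] A.H1 := hT.linear.mk' T
  have hmem : ∀ v ∈ A.filEigen J z, Tl v ∈ A.filEigen J (-z) := by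
    intro v hv
    rw [Pool.Agent.Helper7.AFT.mem_filEigen hJ.linear] at hv ⊢
    refine ⟨?_, hT.hodge v hv.2⟩
    show J (T v) = -z • T v
    rw [hJT, hv.1, hT.linear.map_smul, neg_smul]
  refine LinearMap.finrank_le_finrank_of_injective (f := Tl.restrict hmem) ?_
  intro u v huv
  apply Subtype.ext
  apply hinj
  exact congrArg Subtype.val huv

theorem thm_Adj : St_Adj := by
  intro A d J z hA hg hd hJ hJ2 hz hone
  have hz0 : z ≠ 0 := Pool.Agent.Helper7.AFT.z_ne hd hz
  obtain ⟨J', hJ'm, hadj⟩ := Pool.Agent.Helper39.AF.exists_adj_mor A A J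
    ((Pool.Agent.Helper39.AF.isEnd_iff A _).mp hJ)
  have hJ' : A.IsEnd J' := (Pool.Agent.Helper39.AF.isEnd_iff A _).mpr hJ'm
  have hψ : ∀ u v, (pData A).ψ u v = A.pol u v := fun u v => rfl
  -- the square of the adjoint
  have hJ'2 : ∀ v, J' (J' v) = (-(d : ℂ)) • v := by
    intro v
    have h1 : J' (J' v) - (-(d : ℂ)) • v = 0 := by
      apply Pool.Agent.Helper71.AF.ndr (pData A)
      intro u
      have h2 : (pData A).ψ u (J' (J' v)) = (-(d : ℂ)) * (pData A).ψ u v := by
        rw [hψ, ← hadj, ← hadj, hJ2, ← hψ, map_smul, LinearMap.smul_apply, smul_eq_mul]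
      rw [map_sub, map_smul, h2, smul_eq_mul, sub_self]
    exact sub_eq_zero.mp h1
  -- the commutator
  have hT : A.IsEnd (fun v => J (J' v) - J' (J v)) := Adj_sub (Adj_comp hJ hJ') (Adj_comp hJ' hJ)
  have hJT : ∀ v, J (J (J' v) - J' (J v)) = -(J (J' (J v)) - J' (J (J v))) := by
    intro v
    rw [hJ.linear.map_sub, hJ2, hJ2, hJ'.linear.map_smul]
    abel
  have hcomm : ∀ v, J (J' v) = J' (J v) := by
    by_contra hcon
    push Not at hcon
    obtain ⟨v, hv⟩ := hcon
    have hinj := hA _ hT ⟨v, sub_ne_zero.mpr hv⟩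
    have h1 := Adj_le hJ hT hinj hJT (-z)
    rw [neg_neg, hone] at h1
    have h2 := Pool.Agent.Helper7.AFT.finrank_add hJ hJ2 hz0 hz
    rw [hone] at h2
    omega
  refine ⟨hd, hJ, hJ2, ?_⟩
  by_cases hD : ∃ v, J' v - J v ≠ 0
  · -- `J' = -J`
    have hinj := hA _ (Adj_sub hJ' hJ) hD
    intro u v
    have h1 : J' v = -J v := by
      have h2 : J' (J' v + J v) - J (J' v + J v) = 0 := by
        rw [hJ'.linear.map_add, hJ.linear.map_add, hJ'2, hJ2, hcomm]
        abel
      have h3 : J' 0 - J 0 = 0 := by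
        rw [hJ'.linear.map_zero, map_zero, sub_zero]
      have h4 : J' v + J v = 0 := hinj (h2.trans h3.symm)
      exact eq_neg_of_add_eq_zero_left h4
    rw [hadj, h1]
    exact map_neg ((pData A).ψ u) (J v)
  · exfalso
    push Not at hD
    have hJJ : ∀ v, J' v = J v := fun v => sub_eq_zero.mp (hD v)
    -- a vector of `F^0` in the eigenspace
    obtain ⟨v, hv, hv0⟩ : ∃ v ∈ A.filEigen J z, v ≠ 0 := by
      apply Submodule.exists_mem_ne_zero_of_ne_bot
      intro h0
      rw [h0, finrank_bot] at hone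
      exact zero_ne_one hone
    rw [Pool.Agent.Helper7.AFT.mem_filEigen hJ.linear] at hv
    obtain ⟨r, hr, hrv⟩ := sign_fil A hv.2 hv0
    have h1 : (pData A).ψ (J v) (cB (pData A) v) = z * (pData A).ψ v (cB (pData A) v) := by
      rw [hv.1, map_smul, LinearMap.smul_apply, smul_eq_mul]
    have h2 : (pData A).ψ (J v) (cB (pData A) v) = conj z * (pData A).ψ v (cB (pData A) v) := by
      rw [hψ, hadj, hJJ, ← cB_comm (pData A) J
        (fun w hw => (mem_pData_Q A _).mpr (hJ.betti w ((mem_pData_Q A w).mp hw))), hv.1,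
        cB_smul, ← hψ, map_smul, smul_eq_mul]
    have h3 : (pData A).ψ v (cB (pData A) v) ≠ 0 := by
      rw [hrv, neg_ne_zero]
      exact_mod_cast hr.ne'
    have h4 : conj z = z := by
      rw [h1] at h2
      exact (mul_right_cancel₀ h3 h2).symm
    have h5 : z = (z.re : ℂ) := by
      rw [eq_comm, ← Complex.conj_eq_iff_re]
      exact h4
    rw [h5] at hz
    have h6 : z.re ^ 2 = -(d : ℝ) := by exact_mod_cast hz
    have h7 : (0 : ℝ) < d := by exact_mod_cast hd
    nlinarith [sq_nonneg z.re]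

end BSM
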