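import Mathlib

/-!
Linear algebra: an irreducible Lie algebra of matrices with an ideal containing all commutators
with an idempotent of rank one; the ideal contains all matrices of trace zero.
-/

namespace Pool.Agent.BSM

open Matrix

variable {m : ℕ}

theorem idem_comm (M : Matrix (Fin m) (Fin m) ℂ) (a b : Fin m → ℂ) :
    M * vecMulVec a b - vecMulVec a b * M = vecMulVec (M *ᵥ a) b - vecMulVec a (b ᵥ* M) := by
  rw [mul_vecMulVec, vecMulVec_mul]

theorem idem_comm2 (a b a' b' : Fin m → ℂ) :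
    vecMulVec a b * vecMulVec a' b' - vecMulVec a' b' * vecMulVec a b =
      (b ⬝ᵥ a') • vecMulVec a b' - (b' ⬝ᵥ a) • vecMulVec a' b := by
  ext i j
  simp only [Matrix.sub_apply, Matrix.mul_apply, vecMulVec_apply, Matrix.smul_apply, smul_eq_mul,
    dotProduct, Finset.sum_mul]
  congr 1 <;>
  · refine Finset.sum_congr rfl fun k _ => ?_
    ring

/-- The two parts of the commutator with the idempotent. -/
theorem idem_parts (c : Submodule ℂ (Matrix (Fin m) (Fin m) ℂ)) (x φ : Fin m → ℂ)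
    (hφ : φ ⬝ᵥ x = 1) (M : Matrix (Fin m) (Fin m) ℂ)
    (h1 : M * vecMulVec x φ - vecMulVec x φ * M ∈ c)
    (h2 : (M * vecMulVec x φ - vecMulVec x φ * M) * vecMulVec x φ -
      vecMulVec x φ * (M * vecMulVec x φ - vecMulVec x φ * M) ∈ c) :
    vecMulVec (M *ᵥ x - (φ ⬝ᵥ M *ᵥ x) • x) φ ∈ c ∧
      vecMulVec x (φ ᵥ* M - (φ ⬝ᵥ M *ᵥ x) • φ) ∈ c := by
  set s := φ ⬝ᵥ M *ᵥ x with hs
  have hs' : φ ᵥ* M ⬝ᵥ x = s := by rw [hs, dotProduct_mulVec]
  have e1 : (M * vecMulVec x φ - vecMulVec x φ * M) * vecMulVec x φ -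
      vecMulVec x φ * (M * vecMulVec x φ - vecMulVec x φ * M) =
      vecMulVec (M *ᵥ x) φ + vecMulVec x (φ ᵥ* M) - (2 * s) • vecMulVec x φ := by
    rw [idem_comm M x φ, sub_mul, mul_sub]
    have e2 : ∀ a b a' b' : Fin m → ℂ, vecMulVec a b * vecMulVec a' b' =
        (b ⬝ᵥ a') • vecMulVec a b' := by
      intro a b a' b'
      ext i j
      simp only [Matrix.mul_apply, vecMulVec_apply, Matrix.smul_apply, smul_eq_mul,
        dotProduct, Finset.sum_mul]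
      refine Finset.sum_congr rfl fun k _ => ?_
      ring
    rw [e2, e2, e2, e2, hφ, hs', ← hs]
    module
  rw [e1] at h2
  rw [idem_comm] at h1
  constructor
  · have h3 := c.smul_mem (1 / 2 : ℂ) (c.add_mem h1 h2)
    have e3 : (1 / 2 : ℂ) • (vecMulVec (M *ᵥ x) φ - vecMulVec x (φ ᵥ* M) +
        (vecMulVec (M *ᵥ x) φ + vecMulVec x (φ ᵥ* M) - (2 * s) • vecMulVec x φ)) =
        vecMulVec (M *ᵥ x - s • x) φ := by
      rw [sub_vecMulVec, smul_vecMulVec]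
      module
    rwa [e3] at h3
  · have h3 := c.smul_mem (1 / 2 : ℂ) (c.sub_mem h2 h1)
    have e3 : (1 / 2 : ℂ) • ((vecMulVec (M *ᵥ x) φ + vecMulVec x (φ ᵥ* M) -
        (2 * s) • vecMulVec x φ) - (vecMulVec (M *ᵥ x) φ - vecMulVec x (φ ᵥ* M))) =
        vecMulVec x (φ ᵥ* M - s • φ) := by
      rw [vecMulVec_sub, vecMulVec_smul]
      module
    rwa [e3] at h3

/-- A subspace of `ℂ^m` without nonzero orthogonal vectors. -/
theorem idem_top (U : Submodule ℂ (Fin m → ℂ))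
    (h : ∀ v : Fin m → ℂ, (∀ u ∈ U, u ⬝ᵥ v = 0) → v = 0) : U = ⊤ := by
  by_contra hU
  obtain ⟨f, hf, hle⟩ := Submodule.exists_le_ker_of_lt_top U (lt_top_iff_ne_top.2 hU)
  apply hf
  have h1 : ∀ u : Fin m → ℂ, f u = u ⬝ᵥ fun i => f (Pi.single i 1) := by
    intro u
    rw [LinearMap.pi_apply_eq_sum_univ f u, dotProduct]
    refine Finset.sum_congr rfl fun i _ => ?_
    rw [smul_eq_mul]
    congr 2
    ext j
    simp [Pi.single_apply, eq_comm]
  have h2 := h (fun i => f (Pi.single i 1)) fun u hu => by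
    rw [← h1]
    exact hle hu
  ext i
  simpa using congrFun h2 i

theorem idem_full (g c : Submodule ℂ (Matrix (Fin m) (Fin m) ℂ))
    (hirr : ∀ W : Submodule ℂ (Fin m → ℂ), (∀ M ∈ g, ∀ w ∈ W, M *ᵥ w ∈ W) → W = ⊥ ∨ W = ⊤)
    (hcg : c ≤ g) (hbr : ∀ M ∈ g, ∀ N ∈ c, M * N - N * M ∈ c) (x φ : Fin m → ℂ)
    (hφ : φ ⬝ᵥ x = 1) (hE : ∀ M ∈ g, M * vecMulVec x φ - vecMulVec x φ * M ∈ c)
    (M : Matrix (Fin m) (Fin m) ℂ) (hM : M.trace = 0) : M ∈ c := by
  have hx : x ≠ 0 := by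
    rintro rfl
    simp at hφ
  have hp : ∀ M ∈ g, vecMulVec (M *ᵥ x - (φ ⬝ᵥ M *ᵥ x) • x) φ ∈ c ∧
      vecMulVec x (φ ᵥ* M - (φ ⬝ᵥ M *ᵥ x) • φ) ∈ c := fun M hM =>
    idem_parts c x φ hφ M (hE M hM) (hE _ (hcg (hE M hM)))
  -- the vectors
  let Ω : Submodule ℂ (Fin m → ℂ) :=
    { carrier := {w | φ ⬝ᵥ w = 0 ∧ vecMulVec w φ ∈ c}
      zero_mem' := ⟨dotProduct_zero _, by rw [zero_vecMulVec]; exact c.zero_mem⟩
      add_mem' := fun {a b} ha hb => ⟨by rw [dotProduct_add, ha.1, hb.1, add_zero], by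
        rw [add_vecMulVec]; exact c.add_mem ha.2 hb.2⟩
      smul_mem' := fun s a ha => ⟨by rw [dotProduct_smul, ha.1, smul_zero], by
        rw [smul_vecMulVec]; exact c.smul_mem _ ha.2⟩ }
  have hΩ : ∀ w, w ∈ Ω ↔ φ ⬝ᵥ w = 0 ∧ vecMulVec w φ ∈ c := fun w => Iff.rfl
  have hB : ∀ w : Fin m → ℂ, φ ⬝ᵥ w = 0 → vecMulVec w φ ∈ c := by
    have hstab : ∀ M ∈ g, ∀ w ∈ Submodule.span ℂ {x} ⊔ Ω, M *ᵥ w ∈ Submodule.span ℂ {x} ⊔ Ω := by
      intro M hM w hw
      obtain ⟨y, hy, w', hw', rfl⟩ := Submodule.mem_sup.1 hw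
      obtain ⟨a, rfl⟩ := Submodule.mem_span_singleton.1 hy
      rw [Matrix.mulVec_add, Matrix.mulVec_smul]
      refine add_mem (Submodule.smul_mem _ _ ?_) ?_
      · refine Submodule.mem_sup.2 ⟨(φ ⬝ᵥ M *ᵥ x) • x, Submodule.smul_mem _ _
          (Submodule.mem_span_singleton_self x), M *ᵥ x - (φ ⬝ᵥ M *ᵥ x) • x, ⟨?_, (hp M hM).1⟩,
          by abel⟩
        rw [dotProduct_sub, dotProduct_smul, hφ, smul_eq_mul, mul_one, sub_self]
      · have h1 := hbr M hM _ hw'.2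
        have h2 := (hp _ (hcg h1)).1
        have h3 : (M * vecMulVec w' φ - vecMulVec w' φ * M) *ᵥ x =
            M *ᵥ w' - (φ ⬝ᵥ M *ᵥ x) • w' := by
          rw [idem_comm, Matrix.sub_mulVec, vecMulVec_mulVec, vecMulVec_mulVec, hφ,
            ← dotProduct_mulVec]
          simp only [op_smul_eq_smul, one_smul]
        rw [h3] at h2
        have h4 : φ ⬝ᵥ (M *ᵥ w' - (φ ⬝ᵥ M *ᵥ x) • w') = φ ⬝ᵥ M *ᵥ w' := by
          rw [dotProduct_sub, dotProduct_smul, hw'.1, smul_zero, sub_zero]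
        rw [h4] at h2
        refine Submodule.mem_sup.2 ⟨(φ ⬝ᵥ M *ᵥ w') • x, Submodule.smul_mem _ _
          (Submodule.mem_span_singleton_self x), M *ᵥ w' - (φ ⬝ᵥ M *ᵥ w') • x, ⟨?_, ?_⟩,
          by abel⟩
        · rw [dotProduct_sub, dotProduct_smul, hφ, smul_eq_mul, mul_one, sub_self]
        · have h5 := c.add_mem h2 (c.smul_mem (φ ⬝ᵥ M *ᵥ x) hw'.2)
          rw [← smul_vecMulVec, ← add_vecMulVec] at h5
          have h6 : M *ᵥ w' - (φ ⬝ᵥ M *ᵥ x) • w' - (φ ⬝ᵥ M *ᵥ w') • x +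
              (φ ⬝ᵥ M *ᵥ x) • w' = M *ᵥ w' - (φ ⬝ᵥ M *ᵥ w') • x := by abel
          rwa [h6] at h5
    intro w hw
    rcases hirr _ hstab with h | h
    · exfalso
      apply hx
      have h1 : x ∈ Submodule.span ℂ {x} ⊔ Ω :=
        Submodule.mem_sup_left (Submodule.mem_span_singleton_self x)
      rwa [h, Submodule.mem_bot] at h1
    · have h1 : w ∈ Submodule.span ℂ {x} ⊔ Ω := by rw [h]; trivial
      obtain ⟨y, hy, w', hw', rfl⟩ := Submodule.mem_sup.1 h1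
      obtain ⟨a, rfl⟩ := Submodule.mem_span_singleton.1 hy
      rw [dotProduct_add, hw'.1, dotProduct_smul, hφ, smul_eq_mul, mul_one, add_zero] at hw
      rw [hw, zero_smul, zero_add]
      exact hw'.2
  -- the covectors
  let Ψ : Submodule ℂ (Fin m → ℂ) :=
    { carrier := {ν | ν ⬝ᵥ x = 0 ∧ vecMulVec x ν ∈ c}
      zero_mem' := ⟨zero_dotProduct _, by rw [vecMulVec_zero]; exact c.zero_mem⟩
      add_mem' := fun {a b} ha hb => ⟨by rw [add_dotProduct, ha.1, hb.1, add_zero], by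
        rw [vecMulVec_add]; exact c.add_mem ha.2 hb.2⟩
      smul_mem' := fun s a ha => ⟨by rw [smul_dotProduct, ha.1, smul_zero], by
        rw [vecMulVec_smul]; exact c.smul_mem _ ha.2⟩ }
  have hC : ∀ ν : Fin m → ℂ, ν ⬝ᵥ x = 0 → vecMulVec x ν ∈ c := by
    have htop : Submodule.span ℂ {φ} ⊔ Ψ = ⊤ := by
      let W : Submodule ℂ (Fin m → ℂ) :=
        { carrier := {v | ∀ u ∈ Submodule.span ℂ {φ} ⊔ Ψ, u ⬝ᵥ v = 0}
          zero_mem' := fun u _ => dotProduct_zero _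
          add_mem' := fun {a b} ha hb u hu => by rw [dotProduct_add, ha u hu, hb u hu, add_zero]
          smul_mem' := fun s a ha u hu => by rw [dotProduct_smul, ha u hu, smul_zero] }
      have hφW : φ ∈ Submodule.span ℂ {φ} ⊔ Ψ :=
        Submodule.mem_sup_left (Submodule.mem_span_singleton_self φ)
      have hstab : ∀ M ∈ g, ∀ v ∈ W, M *ᵥ v ∈ W := by
        intro M hM v hv u hu
        rw [dotProduct_mulVec]
        refine hv _ ?_
        obtain ⟨y, hy, ν, hν, rfl⟩ := Submodule.mem_sup.1 hu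
        obtain ⟨a, rfl⟩ := Submodule.mem_span_singleton.1 hy
        rw [Matrix.add_vecMul, Matrix.smul_vecMul]
        refine add_mem (Submodule.smul_mem _ _ ?_) ?_
        · refine Submodule.mem_sup.2 ⟨(φ ⬝ᵥ M *ᵥ x) • φ, Submodule.smul_mem _ _
            (Submodule.mem_span_singleton_self φ), φ ᵥ* M - (φ ⬝ᵥ M *ᵥ x) • φ, ⟨?_, (hp M hM).2⟩,
            by abel⟩
          rw [sub_dotProduct, smul_dotProduct, hφ, ← dotProduct_mulVec, smul_eq_mul, mul_one,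
            sub_self]
        · have h1 := hbr M hM _ hν.2
          have h2 := (hp _ (hcg h1)).2
          have h3 : φ ᵥ* (M * vecMulVec x ν - vecMulVec x ν * M) =
              (φ ⬝ᵥ M *ᵥ x) • ν - ν ᵥ* M := by
            rw [idem_comm, Matrix.vecMul_sub, vecMul_vecMulVec, vecMul_vecMulVec, hφ, one_smul]
          have h4 : φ ⬝ᵥ (M * vecMulVec x ν - vecMulVec x ν * M) *ᵥ x = - (ν ⬝ᵥ M *ᵥ x) := by
            rw [dotProduct_mulVec, h3, sub_dotProduct, smul_dotProduct, hν.1, smul_zero, zero_sub,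
              ← dotProduct_mulVec]
          rw [h3, h4] at h2
          refine Submodule.mem_sup.2 ⟨(ν ⬝ᵥ M *ᵥ x) • φ, Submodule.smul_mem _ _
            (Submodule.mem_span_singleton_self φ), ν ᵥ* M - (ν ⬝ᵥ M *ᵥ x) • φ, ⟨?_, ?_⟩,
            by abel⟩
          · rw [sub_dotProduct, smul_dotProduct, hφ, ← dotProduct_mulVec, smul_eq_mul, mul_one,
              sub_self]
          · have h5 := c.sub_mem (c.smul_mem (φ ⬝ᵥ M *ᵥ x) hν.2) h2
            rw [← vecMulVec_smul, ← vecMulVec_sub] at h5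
            have h6 : (φ ⬝ᵥ M *ᵥ x) • ν - ((φ ⬝ᵥ M *ᵥ x) • ν - ν ᵥ* M -
                -(ν ⬝ᵥ M *ᵥ x) • φ) = ν ᵥ* M - (ν ⬝ᵥ M *ᵥ x) • φ := by module
            rwa [h6] at h5
      have hW : W = ⊥ := by
        rcases hirr W hstab with h | h
        · exact h
        · exfalso
          have h1 : x ∈ W := by rw [h]; trivial
          have h2 := h1 φ hφW
          rw [hφ] at h2
          exact one_ne_zero h2
      refine idem_top _ fun v hv => ?_
      have h1 : v ∈ W := hv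
      rwa [hW, Submodule.mem_bot] at h1
    intro ν hν
    have h1 : ν ∈ Submodule.span ℂ {φ} ⊔ Ψ := by rw [htop]; trivial
    obtain ⟨y, hy, ν', hν', rfl⟩ := Submodule.mem_sup.1 h1
    obtain ⟨a, rfl⟩ := Submodule.mem_span_singleton.1 hy
    rw [add_dotProduct, hν'.1, smul_dotProduct, hφ, smul_eq_mul, mul_one, add_zero] at hν
    rw [hν, zero_smul, zero_add]
    exact hν'.2
  -- products
  have hD : ∀ u η : Fin m → ℂ, vecMulVec u η - (η ⬝ᵥ u) • vecMulVec x φ ∈ c := by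
    intro u η
    have h1 : φ ⬝ᵥ (u - (φ ⬝ᵥ u) • x) = 0 := by
      rw [dotProduct_sub, dotProduct_smul, hφ, smul_eq_mul, mul_one, sub_self]
    have h2 : (η - (η ⬝ᵥ x) • φ) ⬝ᵥ x = 0 := by
      rw [sub_dotProduct, smul_dotProduct, hφ, smul_eq_mul, mul_one, sub_self]
    have h3 := hbr _ (hcg (hB _ h1)) _ (hC _ h2)
    have h4 : (η - (η ⬝ᵥ x) • φ) ⬝ᵥ (u - (φ ⬝ᵥ u) • x) = η ⬝ᵥ u - (η ⬝ᵥ x) * (φ ⬝ᵥ u) := by
      rw [sub_dotProduct, smul_dotProduct, h1, smul_zero, sub_zero, dotProduct_sub,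
        dotProduct_smul, smul_eq_mul]
      ring
    rw [idem_comm2, hφ, h4, one_smul] at h3
    have h5 := c.add_mem h3 (c.add_mem (c.smul_mem (φ ⬝ᵥ u) (hC _ h2))
      (c.smul_mem (η ⬝ᵥ x) (hB _ h1)))
    have h6 : vecMulVec (u - (φ ⬝ᵥ u) • x) (η - (η ⬝ᵥ x) • φ) -
        (η ⬝ᵥ u - η ⬝ᵥ x * φ ⬝ᵥ u) • vecMulVec x φ +
        ((φ ⬝ᵥ u) • vecMulVec x (η - (η ⬝ᵥ x) • φ) +
          (η ⬝ᵥ x) • vecMulVec (u - (φ ⬝ᵥ u) • x) φ) =
        vecMulVec u η - (η ⬝ᵥ u) • vecMulVec x φ := by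
      ext i j
      simp only [Matrix.add_apply, Matrix.sub_apply, Matrix.smul_apply, vecMulVec_apply,
        Pi.sub_apply, Pi.smul_apply, smul_eq_mul]
      ring
    rwa [h6] at h5
  have h1 : M = ∑ j, (vecMulVec (fun i => M i j) (Pi.single j 1) -
      ((Pi.single j 1 : Fin m → ℂ) ⬝ᵥ fun i => M i j) • vecMulVec x φ) := by
    rw [Finset.sum_sub_distrib, ← Finset.sum_smul]
    have h2 : ∑ j, ((Pi.single j 1 : Fin m → ℂ) ⬝ᵥ fun i => M i j) = 0 := by
      rw [← hM]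
      refine Finset.sum_congr rfl fun j _ => ?_
      rw [single_dotProduct, one_mul]
      rfl
    rw [h2, zero_smul, sub_zero]
    ext i j
    rw [Matrix.sum_apply]
    simp [vecMulVec_apply, Pi.single_apply]
  rw [h1]
  exact c.sum_mem fun j _ => hD _ _

end Pool.Agent.BSM
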