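import Pool.Agent.BSM.St
import Pool.Agent.BSM.Idem

/-!
# BSM: linear algebra
-/

set_option autoImplicit false

namespace BSM

open Matrix

theorem thm_Alg : St_Alg := by
  intro m g c u v hcg hbr hirr huv hE y hy
  refine Pool.Agent.BSM.idem_full g c hirr hcg hbr u v ?_ hE y hy
  rw [← huv, dotProduct]
  exact Finset.sum_congr rfl fun i _ => mul_comm _ _

end BSM
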