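import Pool.Agent.BSM.St

/-!
# BSM: alternating forms invariant under a product of general linear groups
-/

set_option autoImplicit false

namespace BSM

open Module Matrix Pool.Agent.Helper7

/-- the value at the tuples of pairs with the places `t` -/
private noncomputable def AltL_G {U : Type} [AddCommGroup U] [Module ℂ U] {S : Type} {p k : ℕ}
    (e : Basis (Bool × S × Fin p) ℂ U) (α : U [⋀^Fin (2 * k)]→ₗ[ℂ] ℂ) (t : Fin k → S) : ℂ :=
  open Classical in
  if h : ∃ c : Fin k → S × Fin p, Function.Injective c ∧ ∀ a, (c a).1 = t a then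
    α (fun r => e (sd h.choose r)) else 0

private theorem AltL_Geq (h2 : St_AltM) {U : Type} [AddCommGroup U] [Module ℂ U] {S : Type}
    [Fintype S] [DecidableEq S] {p k : ℕ} (e : Basis (Bool × S × Fin p) ℂ U)
    (α : U [⋀^Fin (2 * k)]→ₗ[ℂ] ℂ) (hα : GlI e α) (t : Fin k → S) (c : Fin k → S × Fin p)
    (hc : Function.Injective c) (hct : ∀ a, (c a).1 = t a) :
    AltL_G e α t = α (fun r => e (sd c r)) := by
  classical
  have h : ∃ c : Fin k → S × Fin p, Function.Injective c ∧ ∀ a, (c a).1 = t a := ⟨c, hc, hct⟩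
  rw [AltL_G, dif_pos h]
  exact h2 U S p k e α hα _ _ h.choose_spec.1 hc
    ⟨Equiv.refl _, fun a => (h.choose_spec.2 a).trans (hct a).symm⟩

private theorem AltL_sum (h2 : St_AltM) {U : Type} [AddCommGroup U] [Module ℂ U] {S : Type}
    [Fintype S] [DecidableEq S] {p k : ℕ} (e : Basis (Bool × S × Fin p) ℂ U)
    (α : U [⋀^Fin (2 * k)]→ₗ[ℂ] ℂ) (hα : GlI e α) (c : Fin k → S × Fin p)
    (hc : Function.Injective c) :
    ∑ t : Fin k → S, AltL_G e α t / (Nat.factorial k : ℂ) *
      (Fintype.card {π : Equiv.Perm (Fin k) // ∀ a, (c (π a)).1 = t a} : ℂ) =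
      α (fun r => e (sd c r)) := by
  classical
  have hk : (Nat.factorial k : ℂ) ≠ 0 := Nat.cast_ne_zero.2 (Nat.factorial_ne_zero k)
  have h3 : ∀ t : Fin k → S,
      (Fintype.card {π : Equiv.Perm (Fin k) // ∀ a, (c (π a)).1 = t a} : ℂ) =
      ∑ π : Equiv.Perm (Fin k), if (fun a => (c (π a)).1) = t then (1 : ℂ) else 0 := by
    intro t
    rw [Fintype.card_subtype, Finset.sum_ite, Finset.sum_const_zero, add_zero,
      Finset.sum_const, nsmul_eq_mul, mul_one]
    congr 2
    refine Finset.filter_congr fun π _ => ?_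
    exact ⟨fun h => funext h, fun h a => congrFun h a⟩
  simp only [h3, Finset.mul_sum]
  rw [Finset.sum_comm]
  have h4 : ∀ π : Equiv.Perm (Fin k), ∑ t : Fin k → S, AltL_G e α t / (Nat.factorial k : ℂ) *
      (if (fun a => (c (π a)).1) = t then (1 : ℂ) else 0) =
      α (fun r => e (sd c r)) / (Nat.factorial k : ℂ) := by
    intro π
    rw [Finset.sum_eq_single (fun a => (c (π a)).1)]
    · rw [if_pos rfl, mul_one, AltL_Geq h2 e α hα (fun a => (c (π a)).1) (c ∘ π)
        (hc.comp π.injective) (fun a => rfl)]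
      congr 1
      exact (h2 U S p k e α hα c (c ∘ π) hc (hc.comp π.injective) ⟨π, fun a => rfl⟩).symm
    · intro t _ ht
      rw [if_neg (Ne.symm ht), mul_zero]
    · intro h
      exact absurd (Finset.mem_univ _) h
  rw [Finset.sum_congr rfl fun π _ => h4 π, Finset.sum_const, Finset.card_univ,
    Fintype.card_perm, Fintype.card_fin, nsmul_eq_mul]
  field_simp

theorem thm_AltL (h1 : St_AltT) (h2 : St_AltM) (h3 : St_AltV) (h4 : St_AltW) : St_AltL := by
  intro U _ _ S _ _ p k e α hα
  classical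
  let W : (Fin k → S) → U [⋀^Fin (2 * k)]→ₗ[ℂ] ℂ := fun t => wedge fun a => bs e (t a)
  let β : U [⋀^Fin (2 * k)]→ₗ[ℂ] ℂ :=
    α - ∑ t : Fin k → S, (AltL_G e α t / (Nat.factorial k : ℂ)) • W t
  have hβv : ∀ v, β v = α v - ∑ t : Fin k → S, (AltL_G e α t / (Nat.factorial k : ℂ)) * W t v := by
    intro v
    simp only [β, AlternatingMap.sub_apply]
    congr 1
    exact (map_sum ({ toFun := fun f => f v, map_zero' := rfl, map_add' := fun _ _ => rfl } :
      (U [⋀^Fin (2 * k)]→ₗ[ℂ] ℂ) →+ ℂ) _ _)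
  have hβ : GlI e β := by
    intro y X hX1 hX2 v
    simp only [hβv]
    rw [Finset.sum_sub_distrib, hα y X hX1 hX2 v, Finset.sum_comm]
    simp only [← Finset.mul_sum]
    rw [Finset.sum_eq_zero, sub_zero]
    intro t _
    rw [h4 U S p k e t y X hX1 hX2 v, mul_zero]
  have h0 : ∀ c : Fin k → S × Fin p, Function.Injective c → β (fun r => e (sd c r)) = 0 := by
    intro c hc
    rw [hβv, sub_eq_zero, ← AltL_sum h2 e α hα c hc]
    refine Finset.sum_congr rfl fun t _ => ?_
    rw [h3 U S p k e t c hc]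
  have hz : β = 0 := by
    refine Basis.ext_alternating e fun v hv => ?_
    by_contra hne
    obtain ⟨c, π, hc, hvc⟩ := h1 U S p k e β hβ v hv (by simpa using hne)
    apply hne
    have e1 : (fun i => e (v i)) = (fun r => e (sd c r)) ∘ π := by
      funext i
      rw [hvc]
      rfl
    rw [e1, AlternatingMap.map_perm, h0 c hc, smul_zero]
    rfl
  have hα2 : α = ∑ t : Fin k → S, (AltL_G e α t / (Nat.factorial k : ℂ)) • W t :=
    sub_eq_zero.1 hz
  rw [hα2]
  refine Submodule.sum_mem _ fun t _ => Submodule.smul_mem _ _ (Submodule.subset_span ?_)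
  exact ⟨t, rfl⟩

end BSM
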