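import Pool.Agent.BSM.St

/-!
# BSM: invariant alternating forms vanish on tuples which are not made of pairs
-/

set_option autoImplicit false
set_option linter.unusedVariables false

namespace BSM

open Module Matrix NumberField Pool.Agent.Helper7

private theorem AltT_cnt {ι X : Type} [Fintype ι] [DecidableEq X] (v : ι → X)
    (hv : Function.Injective v) (x : X) :
    ∑ r, (if v r = x then (1 : ℂ) else 0) = if ∃ r, v r = x then 1 else 0 := by
  classical
  by_cases h : ∃ r, v r = x
  · obtain ⟨r, hr⟩ := h
    rw [if_pos ⟨r, hr⟩, Finset.sum_eq_single r, if_pos hr]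
    · intro b _ hb
      exact if_neg fun h => hb (hv (h.trans hr.symm))
    · intro h
      exact absurd (Finset.mem_univ r) h
  · rw [if_neg h]
    exact Finset.sum_eq_zero fun r _ => if_neg fun h' => h ⟨r, h'⟩

private theorem AltT_iff {U : Type} [AddCommGroup U] [Module ℂ U] {S : Type} [Fintype S]
    [DecidableEq S] {p k : ℕ} (e : Basis (Bool × S × Fin p) ℂ U) (α : U [⋀^Fin (2 * k)]→ₗ[ℂ] ℂ)
    (h : GlI e α) (v : Fin (2 * k) → Bool × S × Fin p) (hv : Function.Injective v)
    (hα : α (fun r => e (v r)) ≠ 0) (q : S × Fin p) :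
    (∃ r, v r = (true, q)) ↔ ∃ r, v r = (false, q) := by
  classical
  let w : Bool × S × Fin p → ℂ := fun x =>
    (if x = (true, q) then 1 else 0) - (if x = (false, q) then 1 else 0)
  let X : Module.End ℂ U := e.constr ℂ fun x => w x • e x
  have hX : ∀ x, X (e x) = w x • e x := fun x => e.constr_basis ℂ _ x
  have h1 := h (fun s => Matrix.diagonal fun j => if (s, j) = q then (1 : ℂ) else 0) X
    (by
      intro s j
      rw [hX, Finset.sum_eq_single j]
      · congr 1
        simp [w]
      · intro i _ hi
        rw [Matrix.diagonal_apply_ne _ hi, zero_smul]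
      · intro h
        exact absurd (Finset.mem_univ j) h)
    (by
      intro s j
      rw [hX, Finset.sum_eq_single j]
      · rw [← neg_smul]
        congr 1
        simp [w]
      · intro i _ hi
        rw [Matrix.diagonal_apply_ne _ hi.symm, zero_smul]
      · intro h
        exact absurd (Finset.mem_univ j) h)
    (fun r => e (v r))
  have h2 : ∀ r, α (Function.update (fun r => e (v r)) r (X (e (v r))))
      = w (v r) * α (fun r => e (v r)) := by
    intro r
    rw [hX, α.map_update_smul, smul_eq_mul]
    congr 2
    exact Function.update_eq_self r _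
  have h3 : (∑ r, w (v r)) * α (fun r => e (v r)) = 0 := by
    rw [Finset.sum_mul, ← h1]
    exact Finset.sum_congr rfl fun r _ => (h2 r).symm
  have h4 : ∑ r, w (v r) = 0 := (mul_eq_zero.1 h3).resolve_right hα
  simp only [w] at h4
  rw [Finset.sum_sub_distrib, AltT_cnt v hv, AltT_cnt v hv] at h4
  by_cases ht : ∃ r, v r = (true, q)
  · by_cases hf : ∃ r, v r = (false, q)
    · exact ⟨fun _ => hf, fun _ => ht⟩
    · rw [if_pos ht, if_neg hf] at h4
      norm_num at h4
  · by_cases hf : ∃ r, v r = (false, q)
    · rw [if_neg ht, if_pos hf] at h4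
      norm_num at h4
    · exact ⟨fun h => absurd h ht, fun h => absurd h hf⟩

/-- Invariant alternating forms vanish on tuples of different basis vectors which are not made of
pairs. -/
theorem thm_AltT : St_AltT := by
  intro U _ _ S _ _ p k e α h v hv hα
  classical
  have hq := AltT_iff e α h v hv hα
  let Q : Type := {q : S × Fin p // ∃ r, v r = (true, q)}
  have hb : ∀ (b : Bool) (q : S × Fin p), (∃ r, v r = (b, q)) ↔ ∃ r, v r = (true, q) := by
    intro b q
    cases b
    · exact (hq q).symm
    · exact Iff.rfl
  let f : Fin (2 * k) → Bool × Q := fun r =>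
    ((v r).1, ⟨(v r).2, (hb (v r).1 (v r).2).1 ⟨r, rfl⟩⟩)
  have hf : Function.Bijective f := by
    constructor
    · intro r r' hr
      apply hv
      have h1 := congrArg Prod.fst hr
      have h2 := congrArg (fun x : Bool × Q => (x.2 : S × Fin p)) hr
      exact Prod.ext h1 h2
    · rintro ⟨b, q, hq'⟩
      obtain ⟨r, hr⟩ := (hb b q).2 hq'
      refine ⟨r, ?_⟩
      refine Prod.ext ?_ (Subtype.ext ?_)
      · show (v r).1 = b
        rw [hr]
      · show (v r).2 = q
        rw [hr]
  have hc : Fintype.card Q = k := by
    have h1 := Fintype.card_of_bijective hf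
    rw [Fintype.card_fin, Fintype.card_prod, Fintype.card_bool] at h1
    omega
  let φ : Fin k ≃ Q := (Fintype.equivFinOfCardEq hc).symm
  let c : Fin k → S × Fin p := fun a => (φ a : S × Fin p)
  have hci : Function.Injective c := fun a b hab => φ.injective (Subtype.ext hab)
  have hs : ∀ r, ∃ r', sd c r' = v r := by
    intro r
    have h1 : ∃ r', v r' = (true, (v r).2) := (hb (v r).1 (v r).2).1 ⟨r, rfl⟩
    let a : Fin k := φ.symm ⟨(v r).2, h1⟩
    have ha : c a = (v r).2 := congrArg Subtype.val (φ.apply_symm_apply ⟨(v r).2, h1⟩)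
    rcases hvb : (v r).1 with _ | _
    · refine ⟨⟨2 * (a : ℕ) + 1, by omega⟩, Prod.ext ?_ ?_⟩
      · rw [hvb]
        show decide ((2 * (a : ℕ) + 1) % 2 = 0) = false
        apply decide_eq_false
        omega
      · show c ⟨(2 * (a : ℕ) + 1) / 2, _⟩ = (v r).2
        rw [← ha]
        congr 1
        apply Fin.ext
        show (2 * (a : ℕ) + 1) / 2 = a
        omega
    · refine ⟨⟨2 * (a : ℕ), by omega⟩, Prod.ext ?_ ?_⟩
      · rw [hvb]
        show decide ((2 * (a : ℕ)) % 2 = 0) = true
        apply decide_eq_true
        omega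
      · show c ⟨(2 * (a : ℕ)) / 2, _⟩ = (v r).2
        rw [← ha]
        congr 1
        apply Fin.ext
        show (2 * (a : ℕ)) / 2 = a
        omega
  choose g hg using hs
  have hgi : Function.Injective g := by
    intro r r' hr
    apply hv
    rw [← hg r, ← hg r', hr]
  refine ⟨c, Equiv.ofBijective g (Finite.injective_iff_bijective.1 hgi), hci, ?_⟩
  funext r
  exact (hg r).symm

end BSM
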