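import Pool.Agent.BSM.AltW

/-!
# BSM: the values of the products
-/

set_option autoImplicit false

namespace BSM

open Module Pool.Agent.Helper7

lemma AltV_lo {S : Type} {p k : ℕ} (c : Fin k → S × Fin p) (a : Fin k) :
    sd c (lo a) = (true, c a) := by
  refine Prod.ext ?_ ?_
  · show decide ((2 * a.1) % 2 = 0) = true
    exact decide_eq_true (by omega)
  · show c ⟨(2 * a.1) / 2, _⟩ = c a
    congr 1
    apply Fin.ext
    show (2 * a.1) / 2 = a.1
    omega

lemma AltV_hi {S : Type} {p k : ℕ} (c : Fin k → S × Fin p) (a : Fin k) :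
    sd c (hi a) = (false, c a) := by
  refine Prod.ext ?_ ?_
  · show decide ((2 * a.1 + 1) % 2 = 0) = false
    exact decide_eq_false (by omega)
  · show c ⟨(2 * a.1 + 1) / 2, _⟩ = c a
    congr 1
    apply Fin.ext
    show (2 * a.1 + 1) / 2 = a.1
    omega

/-- The places of a pair. -/
def AltV_g {k : ℕ} (q : Fin k × Bool) : Fin (2 * k) := if q.2 = true then hi q.1 else lo q.1

lemma AltV_bij {k : ℕ} : Function.Bijective (AltV_g (k := k)) := by
  constructor
  · rintro ⟨a, b⟩ ⟨a', b'⟩ h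
    cases b <;> cases b' <;> simp only [AltV_g, Bool.false_eq_true, if_false, if_true] at h
    · rw [lo_inj h]
    · exact absurd h (lo_ne_hi _ _)
    · exact absurd h.symm (lo_ne_hi _ _)
    · rw [hi_inj h]
  · intro r
    obtain ⟨a, rfl | rfl⟩ := eq_lo_or_hi r
    · exact ⟨(a, false), rfl⟩
    · exact ⟨(a, true), rfl⟩

/-- The doubled permutation. -/
noncomputable def AltV_dbl {k : ℕ} (π : Equiv.Perm (Fin k)) : Equiv.Perm (Fin (2 * k)) :=
  (Equiv.ofBijective AltV_g AltV_bij).permCongr (Equiv.prodCongrLeft fun _ : Bool => π)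

lemma AltV_dbl_g {k : ℕ} (π : Equiv.Perm (Fin k)) (a : Fin k) (b : Bool) :
    AltV_dbl π (AltV_g (a, b)) = AltV_g (π a, b) := by
  have h : (Equiv.ofBijective AltV_g AltV_bij).symm (AltV_g (a, b)) = (a, b) :=
    (Equiv.ofBijective AltV_g AltV_bij).symm_apply_apply (a, b)
  rw [AltV_dbl, Equiv.permCongr_apply, h]
  rfl

lemma AltV_dbl_lo {k : ℕ} (π : Equiv.Perm (Fin k)) (a : Fin k) :
    AltV_dbl π (lo a) = lo (π a) := AltV_dbl_g π a false

lemma AltV_dbl_hi {k : ℕ} (π : Equiv.Perm (Fin k)) (a : Fin k) :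
    AltV_dbl π (hi a) = hi (π a) := AltV_dbl_g π a true

lemma AltV_sign {k : ℕ} (π : Equiv.Perm (Fin k)) : Equiv.Perm.sign (AltV_dbl π) = 1 := by
  rw [AltV_dbl, Equiv.Perm.sign_permCongr, Equiv.Perm.sign_prodCongrLeft, Fintype.prod_bool,
    Int.units_mul_self]

lemma AltV_dbl_inj {k : ℕ} : Function.Injective (AltV_dbl (k := k)) := by
  intro π π' h
  refine Equiv.ext fun a => lo_inj ?_
  rw [← AltV_dbl_lo, ← AltV_dbl_lo, h]

section

variable {U : Type} [AddCommGroup U] [Module ℂ U] {S : Type} {p : ℕ}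

lemma AltV_bs (e : Basis (Bool × S × Fin p) ℂ U) (s : S) (q q' : Bool × S × Fin p)
    (h : bs e s (e q) (e q') ≠ 0) : ∃ j, q = (true, s, j) ∧ q' = (false, s, j) := by
  classical
  rw [AltW_apply] at h
  obtain ⟨j, _, hj⟩ := Finset.exists_ne_zero_of_sum_ne_zero h
  refine ⟨j, ?_, ?_⟩
  · by_contra hq
    apply hj
    rw [Basis.coord_apply, Basis.repr_self, Finsupp.single_apply, if_neg hq, zero_mul]
  · by_contra hq
    apply hj
    rw [Basis.coord_apply e (false, s, j), Basis.repr_self, Finsupp.single_apply, if_neg hq,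
      mul_zero]

lemma AltV_one (e : Basis (Bool × S × Fin p) ℂ U) (s : S) (j : Fin p) :
    bs e s (e (true, s, j)) (e (false, s, j)) = 1 := by
  classical
  rw [AltW_apply, Finset.sum_eq_single j]
  · rw [Basis.coord_apply, Basis.coord_apply, Basis.repr_self, Basis.repr_self,
      Finsupp.single_eq_same, Finsupp.single_eq_same, one_mul]
  · intro i _ hi
    rw [Basis.coord_apply, Basis.repr_self, Finsupp.single_apply, if_neg (by simpa using hi.symm),
      zero_mul]
  · intro h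
    exact absurd (Finset.mem_univ _) h

lemma AltV_range {k : ℕ} (e : Basis (Bool × S × Fin p) ℂ U) (t : Fin k → S)
    (c : Fin k → S × Fin p) (hc : Function.Injective c) (τ : Equiv.Perm (Fin (2 * k)))
    (h : ∀ a, bs e (t a) (e (sd c (τ (lo a)))) (e (sd c (τ (hi a)))) ≠ 0) :
    ∃ π : Equiv.Perm (Fin k), (∀ a, (c (π a)).1 = t a) ∧ AltV_dbl π = τ := by
  have h1 : ∀ a, ∃ b, τ (lo a) = lo b ∧ τ (hi a) = hi b ∧ (c b).1 = t a := by
    intro a
    obtain ⟨j, hj1, hj2⟩ := AltV_bs e (t a) _ _ (h a)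
    obtain ⟨b, hb | hb⟩ := eq_lo_or_hi (τ (lo a))
    · obtain ⟨b', hb' | hb'⟩ := eq_lo_or_hi (τ (hi a))
      · rw [hb', AltV_lo] at hj2
        exact absurd (congrArg Prod.fst hj2) (by simp)
      · rw [hb, AltV_lo] at hj1
        rw [hb', AltV_hi] at hj2
        have e1 : c b = (t a, j) := congrArg Prod.snd hj1
        have e2 : c b' = (t a, j) := congrArg Prod.snd hj2
        have e3 : b' = b := hc (e2.trans e1.symm)
        subst e3
        exact ⟨b', hb, hb', by rw [e1]⟩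
    · rw [hb, AltV_hi] at hj1
      exact absurd (congrArg Prod.fst hj1) (by simp)
  choose f hf1 hf2 hf3 using h1
  have hinj : Function.Injective f := by
    intro a a' haa
    apply lo_inj
    apply τ.injective
    rw [hf1, hf1, haa]
  refine ⟨Equiv.ofBijective f (Finite.injective_iff_bijective.mp hinj), fun a => hf3 a, ?_⟩
  refine Equiv.ext fun r => ?_
  obtain ⟨a, rfl | rfl⟩ := eq_lo_or_hi r
  · rw [AltV_dbl_lo, hf1]
    rfl
  · rw [AltV_dbl_hi, hf2]
    rfl

end

theorem thm_AltV : St_AltV := by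
  intro U _ _ S _ _ p k e t c hc
  rw [wedge_apply]
  have h := Fintype.sum_of_injective
    (fun π : {π : Equiv.Perm (Fin k) // ∀ a, (c (π a)).1 = t a} => AltV_dbl π.1)
    (fun π π' hh => Subtype.ext (AltV_dbl_inj hh)) (fun _ => (1 : ℂ))
    (fun τ : Equiv.Perm (Fin (2 * k)) => ((Equiv.Perm.sign τ : ℤ) : ℂ) *
      ∏ a, bs e (t a) (e (sd c (τ (lo a)))) (e (sd c (τ (hi a))))) ?_ ?_
  · rw [← h, Finset.sum_const, Finset.card_univ, nsmul_eq_mul, mul_one]
  · intro τ hτ
    by_contra hne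
    apply hτ
    obtain ⟨π, h1, h2⟩ := AltV_range e t c hc τ
      (fun a h0 => hne (by
        rw [Finset.prod_eq_zero (Finset.mem_univ a) h0, mul_zero]))
    exact ⟨⟨π, h1⟩, h2⟩
  · rintro ⟨π, hπ⟩
    show (1 : ℂ) = ((Equiv.Perm.sign (AltV_dbl π) : ℤ) : ℂ) *
      ∏ a, bs e (t a) (e (sd c (AltV_dbl π (lo a)))) (e (sd c (AltV_dbl π (hi a))))
    rw [AltV_sign, Finset.prod_eq_one, Units.val_one, Int.cast_one, one_mul]
    intro a _
    rw [AltV_dbl_lo, AltV_dbl_hi, AltV_lo, AltV_hi]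
    have h3 : c (π a) = (t a, (c (π a)).2) := Prod.ext (hπ a) rfl
    rw [h3]
    exact AltV_one e (t a) _

end BSM
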