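import Pool.Agent.BSM.St
import Pool.Agent.Helper7.AFD.Kill

/-!
# BSM: the products are invariant
-/

set_option autoImplicit false

namespace BSM

open Module Pool.Agent.Helper7

section

variable {U : Type} [AddCommGroup U] [Module ℂ U] {S : Type} {p : ℕ}

lemma AltW_true [DecidableEq S] (e : Basis (Bool × S × Fin p) ℂ U) (y : S → Matrix (Fin p) (Fin p) ℂ)
    (X : Module.End ℂ U) (h1 : ∀ s j, X (e (true, s, j)) = ∑ i, y s i j • e (true, s, i))
    (h2 : ∀ s i, X (e (false, s, i)) = -∑ j, y s i j • e (false, s, j)) (s : S) (i : Fin p)
    (u : U) : e.coord (true, s, i) (X u) = ∑ j, y s i j * e.coord (true, s, j) u := by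
  have h : e.coord (true, s, i) ∘ₗ X = ∑ j, y s i j • e.coord (true, s, j) := by
    refine e.ext fun q => ?_
    obtain ⟨b, t, l⟩ := q
    cases b
    · rw [LinearMap.comp_apply, h2, map_neg, map_sum, LinearMap.sum_apply]
      rw [Finset.sum_eq_zero, Finset.sum_eq_zero, neg_zero]
      · intro j _
        rw [LinearMap.smul_apply, Basis.coord_apply, Basis.repr_self, Finsupp.single_apply,
          if_neg (by simp), smul_zero]
      · intro j _
        rw [map_smul, Basis.coord_apply, Basis.repr_self, Finsupp.single_apply,
          if_neg (by simp), smul_zero]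
    · rw [LinearMap.comp_apply, h1, map_sum, LinearMap.sum_apply]
      by_cases hst : t = s
      · subst hst
        rw [Finset.sum_eq_single i, Finset.sum_eq_single l]
        · rw [map_smul, LinearMap.smul_apply, Basis.coord_apply, Basis.coord_apply,
            Basis.repr_self, Basis.repr_self, Finsupp.single_eq_same, Finsupp.single_eq_same]
        · intro j _ hj
          rw [LinearMap.smul_apply, Basis.coord_apply, Basis.repr_self, Finsupp.single_apply,
            if_neg (by simpa using hj.symm), smul_zero]
        · intro h; exact absurd (Finset.mem_univ _) h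
        · intro j _ hj
          rw [map_smul, Basis.coord_apply, Basis.repr_self, Finsupp.single_apply,
            if_neg (by simpa using hj), smul_zero]
        · intro h; exact absurd (Finset.mem_univ _) h
      · rw [Finset.sum_eq_zero, Finset.sum_eq_zero]
        · intro j _
          rw [LinearMap.smul_apply, Basis.coord_apply, Basis.repr_self, Finsupp.single_apply,
            if_neg (by simp [hst]), smul_zero]
        · intro j _
          rw [map_smul, Basis.coord_apply, Basis.repr_self, Finsupp.single_apply,
            if_neg (by simp [hst]), smul_zero]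
  have h' := LinearMap.congr_fun h u
  rw [LinearMap.comp_apply, LinearMap.sum_apply] at h'
  rw [h']
  rfl

lemma AltW_false [DecidableEq S] (e : Basis (Bool × S × Fin p) ℂ U) (y : S → Matrix (Fin p) (Fin p) ℂ)
    (X : Module.End ℂ U) (h1 : ∀ s j, X (e (true, s, j)) = ∑ i, y s i j • e (true, s, i))
    (h2 : ∀ s i, X (e (false, s, i)) = -∑ j, y s i j • e (false, s, j)) (s : S) (j : Fin p)
    (u : U) : e.coord (false, s, j) (X u) = -∑ i, y s i j * e.coord (false, s, i) u := by
  have h : e.coord (false, s, j) ∘ₗ X = -∑ i, y s i j • e.coord (false, s, i) := by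
    refine e.ext fun q => ?_
    obtain ⟨b, t, l⟩ := q
    rw [LinearMap.neg_apply, LinearMap.sum_apply]
    cases b
    · rw [LinearMap.comp_apply, h2, map_neg, map_sum]
      congr 1
      by_cases hst : t = s
      · subst hst
        rw [Finset.sum_eq_single j, Finset.sum_eq_single l]
        · rw [map_smul, LinearMap.smul_apply, Basis.coord_apply, Basis.coord_apply,
            Basis.repr_self, Basis.repr_self, Finsupp.single_eq_same, Finsupp.single_eq_same]
        · intro i _ hi
          rw [LinearMap.smul_apply, Basis.coord_apply, Basis.repr_self, Finsupp.single_apply,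
            if_neg (by simpa using hi.symm), smul_zero]
        · intro h; exact absurd (Finset.mem_univ _) h
        · intro i _ hi
          rw [map_smul, Basis.coord_apply, Basis.repr_self, Finsupp.single_apply,
            if_neg (by simpa using hi), smul_zero]
        · intro h; exact absurd (Finset.mem_univ _) h
      · rw [Finset.sum_eq_zero, Finset.sum_eq_zero]
        · intro i _
          rw [LinearMap.smul_apply, Basis.coord_apply, Basis.repr_self, Finsupp.single_apply,
            if_neg (by simp [hst]), smul_zero]
        · intro i _
          rw [map_smul, Basis.coord_apply, Basis.repr_self, Finsupp.single_apply,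
            if_neg (by simp [hst]), smul_zero]
    · rw [LinearMap.comp_apply, h1, map_sum]
      rw [Finset.sum_eq_zero, Finset.sum_eq_zero, neg_zero]
      · intro i _
        rw [LinearMap.smul_apply, Basis.coord_apply, Basis.repr_self, Finsupp.single_apply,
          if_neg (by simp), smul_zero]
      · intro i _
        rw [map_smul, Basis.coord_apply, Basis.repr_self, Finsupp.single_apply,
          if_neg (by simp), smul_zero]
  have h' := LinearMap.congr_fun h u
  rw [LinearMap.comp_apply, LinearMap.neg_apply, LinearMap.sum_apply] at h'
  rw [h']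
  rfl

lemma AltW_apply (e : Basis (Bool × S × Fin p) ℂ U) (s : S) (u v : U) :
    bs e s u v = ∑ j, e.coord (true, s, j) u * e.coord (false, s, j) v := by
  rw [bs, LinearMap.sum_apply, LinearMap.sum_apply]
  rfl

lemma AltW_bs [DecidableEq S] (e : Basis (Bool × S × Fin p) ℂ U) (y : S → Matrix (Fin p) (Fin p) ℂ)
    (X : Module.End ℂ U) (h1 : ∀ s j, X (e (true, s, j)) = ∑ i, y s i j • e (true, s, i))
    (h2 : ∀ s i, X (e (false, s, i)) = -∑ j, y s i j • e (false, s, j)) (s : S) (u v : U) :
    bs e s (X u) v + bs e s u (X v) = 0 := by
  rw [AltW_apply, AltW_apply]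
  simp only [AltW_true e y X h1 h2, AltW_false e y X h1 h2, Finset.sum_mul, mul_neg,
    Finset.mul_sum, Finset.sum_neg_distrib]
  rw [Finset.sum_comm, ← sub_eq_add_neg, sub_eq_zero]
  refine Finset.sum_congr rfl fun i _ => Finset.sum_congr rfl fun j _ => ?_
  ring

end

theorem thm_AltW : St_AltW := by
  intro U _ _ S _ _ p k e t y X h1 h2 v
  exact wedge_killed X (fun a => bs e (t a)) (fun a u w => AltW_bs e y X h1 h2 (t a) u w) v

end BSM
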