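import Pool.Agent.BSM.St
import Pool.Agent.Helper83.Ball.Bridge

/-!
# BSM, CMat: the matrices of the Hodge operator
-/

set_option autoImplicit false

namespace BSM

open Module Matrix NumberField Pool.Agent.Helper7
open Pool.Agent.GPC (AbVar)
open Pool.Agent.Helper8.D (ent ent_apply ent_act)
open Pool.Agent.Helper83.Ball (vec exists_vec rho_vec decomp vec_eq_zero proj_of_eigen)
open scoped ComplexConjugate

section cmat

variable {A : AbVar} {L : Type} [Field L] [NumberField L] {m : ℕ} (F : UF (pData A) L m)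

private theorem CMat_e (σ : L →+* ℂ) (b : Fin m) : F.e σ b = vec F σ (Pi.single b 1) := by
  classical
  unfold Pool.Agent.Helper83.Ball.vec
  rw [Finset.sum_eq_single b]
  · rw [Pi.single_eq_same, one_smul]
  · intro c _ hc
    rw [Pi.single_eq_of_ne hc, zero_smul]
  · intro h
    exact absurd (Finset.mem_univ _) h

private theorem CMat_eig (σ : L →+* ℂ) (u : A.H1) (h : proj F.ρ σ u = u) (y : L) :
    F.ρ y u = σ y • u := by
  obtain ⟨w, hw⟩ := exists_vec F σ u h
  rw [hw, rho_vec]

private theorem CMat_conj {d : ℚ} (hd : 0 < d) {w : ℂ} (hw : w ^ 2 = -(d : ℂ)) :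
    conj w = -w := by
  have h1 : w * w = -(d : ℂ) := by rw [← pow_two]; exact hw
  have hre := congrArg Complex.re h1
  have him := congrArg Complex.im h1
  simp only [Complex.mul_re, Complex.mul_im, Complex.neg_re, Complex.neg_im, Complex.ratCast_re,
    Complex.ratCast_im, neg_zero] at hre him
  have hd' : (0 : ℝ) < d := by exact_mod_cast hd
  have h0 : w.re = 0 := by
    by_contra h
    have h2 : w.im = 0 := by
      have h3 : w.re * w.im = 0 := by linarith
      exact (mul_eq_zero.mp h3).resolve_left h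
    rw [h2] at hre
    nlinarith [mul_self_nonneg w.re]
  apply Complex.ext
  · simp [h0]
  · simp

/-- the matrix of an operator with known values on the adapted vectors -/
private theorem CMat_ent (σ : L →+* ℂ) (C : Module.End ℂ A.H1) (N : Matrix (Fin m) (Fin m) ℂ)
    (h : ∀ b, C (F.e σ b) = ∑ a, N a b • F.e σ a) : ent F σ C = N := by
  classical
  ext a b
  rw [ent_apply, h, map_sum, Finset.sum_eq_single a]
  · rw [map_smul, F.co_e, if_pos ⟨rfl, rfl⟩, smul_eq_mul, mul_one]
  · intro c _ hc
    rw [map_smul, F.co_e, if_neg (fun h => hc h.2.symm), smul_zero]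
  · intro h
    exact absurd (Finset.mem_univ _) h

end cmat

theorem thm_CMat (h1 : St_HCo) : St_CMat := by
  classical
  intro A d J z L _ _ m F x σ₀ C hK hz hL hC
  -- a vector of the line
  obtain ⟨f, hf0, hf2⟩ := finrank_eq_one_iff'.mp hL.one
  have hsub : ∀ w ∈ Submodule.span ℂ {v : A.H1 | (∀ y, F.ρ y v = σ₀ y • v) ∧ A.IsFil v},
      (∀ y, F.ρ y w = σ₀ y • w) ∧ A.IsFil w := by
    intro w hw
    induction hw using Submodule.span_induction with
    | mem x hx => exact hx
    | zero => exact ⟨fun y => by rw [map_zero, smul_zero], fil_zero A⟩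
    | add x y _ _ hx hy =>
      exact ⟨fun t => by rw [map_add, hx.1, hy.1, smul_add], fil_add A hx.2 hy.2⟩
    | smul c x _ hx =>
      exact ⟨fun t => by rw [map_smul, hx.1, smul_comm], fil_smul A c hx.2⟩
  obtain ⟨hfe, hfF⟩ := hsub f f.2
  have hfne : (f : A.H1) ≠ 0 := fun h0 => hf0 (Subtype.ext h0)
  obtain ⟨u, hu⟩ := exists_vec F σ₀ (f : A.H1) (proj_of_eigen F σ₀ _ hfe)
  have hm : Nonempty (Fin m) := by
    by_contra hcon
    apply hfne
    rw [hu]
    unfold Pool.Agent.Helper83.Ball.vec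
    have : IsEmpty (Fin m) := not_nonempty_iff.mp hcon
    exact Finset.sum_of_isEmpty _
  have hsq : ∀ σ : L →+* ℂ, σ x ^ 2 = -(d : ℂ) := by
    intro σ
    obtain ⟨j⟩ := hm
    have h2 := hK.sq (F.e σ j)
    rw [← hL.act, ← hL.act, F.rho_e, map_smul, F.rho_e, smul_smul] at h2
    have h3 : F.e σ j ≠ 0 := F.eb.ne_zero (σ, j)
    have h4 := smul_left_injective ℂ h3 h2
    rw [pow_two]
    exact h4
  have htwo : ∀ σ : L →+* ℂ, σ x = z ∨ σ x = -z := by
    intro σ
    exact sq_eq_sq_iff_eq_or_eq_neg.mp ((hsq σ).trans hz.symm)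
  have hconj : ∀ σ : L →+* ℂ, ComplexEmbedding.conjugate σ x = -(σ x) := by
    intro σ
    rw [ComplexEmbedding.conjugate_coe_eq]
    exact CMat_conj hK.pos (hsq σ)
  have hcomm : F.Comm C := fun y v => (h1 A C hC).1 (F.ρ y) (F.hρ y) v
  refine ⟨hcomm, ?_, ?_, ?_, htwo, hconj⟩
  · intro σ hσ hσ0
    apply CMat_ent
    intro b
    obtain ⟨a, a', ha, ha', hp, hp', haa⟩ := decomp F σ (Pi.single b 1)
    have h0 : a = 0 := hL.zero σ hσ hσ0 a (CMat_eig F σ a hp) ha
    rw [← CMat_e, h0, zero_add] at haa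
    rw [haa, hC.conj a' ha', ← haa, Finset.sum_eq_single b]
    · rw [Matrix.one_apply_eq, one_smul]
    · intro c _ hc
      rw [Matrix.one_apply_ne hc, zero_smul]
    · intro h
      exact absurd (Finset.mem_univ _) h
  · intro σ hσ hσ0
    apply CMat_ent
    intro b
    obtain ⟨a, a', ha, ha', hp, hp', haa⟩ := decomp F σ (Pi.single b 1)
    have h0 : a' = 0 := by
      refine hL.zero (ComplexEmbedding.conjugate σ) ?_ ?_ a' (CMat_eig F _ a' hp') ha'
      · rw [hconj, hσ, neg_neg]
      · intro h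
        apply hσ0
        rw [← h, Pool.Agent.Helper83.Ball.conj_conj']
    rw [← CMat_e, h0, cB_zero, add_zero] at haa
    rw [haa, hC.fil a ha]
    refine (Finset.sum_eq_zero fun c _ => ?_).symm
    rw [Matrix.zero_apply, zero_smul]
  · have key : ∀ b, ∃ c : ℂ, C (F.e σ₀ b) = F.e σ₀ b - c • (f : A.H1) := by
      intro b
      obtain ⟨a, a', ha, ha', hp, hp', haa⟩ := decomp F σ₀ (Pi.single b 1)
      rw [← CMat_e] at haa
      obtain ⟨c, hc⟩ := hf2 ⟨a, Submodule.subset_span ⟨CMat_eig F σ₀ a hp, ha⟩⟩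
      have hc' : c • (f : A.H1) = a := congrArg Subtype.val hc
      refine ⟨c, ?_⟩
      rw [haa, map_add, hC.fil a ha, hC.conj a' ha', hc', zero_add, add_sub_cancel_left]
    choose v hv using key
    have hfsum : (f : A.H1) = ∑ b, u b • F.e σ₀ b := hu
    refine ⟨u, v, ?_, ?_⟩
    · have h2 : C (f : A.H1) = 0 := hC.fil _ hfF
      have h3 : C (f : A.H1) = (f : A.H1) - (∑ b, u b * v b) • (f : A.H1) := by
        conv_lhs => rw [hfsum]
        rw [map_sum]
        have h4 : ∀ b, C (u b • F.e σ₀ b) = u b • F.e σ₀ b - (u b * v b) • (f : A.H1) := by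
          intro b
          rw [map_smul, hv, smul_sub, smul_smul]
        rw [Finset.sum_congr rfl fun b _ => h4 b, Finset.sum_sub_distrib, ← hfsum,
          Finset.sum_smul]
      rw [h2] at h3
      have h4 : (1 - ∑ b, u b * v b) • (f : A.H1) = 0 := by
        rw [sub_smul, one_smul]
        exact h3.symm
      exact (sub_eq_zero.mp ((smul_eq_zero.mp h4).resolve_right hfne)).symm
    · apply CMat_ent
      intro b
      rw [hv b]
      have h2 : ∀ a, (1 - Matrix.vecMulVec u v) a b • F.e σ₀ a =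
          (1 : Matrix (Fin m) (Fin m) ℂ) a b • F.e σ₀ a - v b • (u a • F.e σ₀ a) := by
        intro a
        rw [Matrix.sub_apply, Matrix.vecMulVec_apply, sub_smul, smul_smul, mul_comm (v b)]
      rw [Finset.sum_congr rfl fun a _ => h2 a, Finset.sum_sub_distrib, ← Finset.smul_sum,
        ← hfsum, Finset.sum_eq_single b]
      · rw [Matrix.one_apply_eq, one_smul]
      · intro c _ hc
        rw [Matrix.one_apply_ne hc, zero_smul]
      · intro h
        exact absurd (Finset.mem_univ _) h

end BSM
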