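import Pool.Agent.BSM.St
import Pool.Agent.Helper39.AF.Mor
import Pool.Agent.Helper84.Sign
import Pool.Agent.Helper7.Local

/-!
# BSM, [CcL]: the adjoints are given by complex conjugation
-/

set_option autoImplicit false

namespace BSM

open Module Matrix NumberField Pool.Agent.Helper7
open Pool.Agent.GPC (AbVar Form IsGrothendieck IsDivisorial)
open scoped ComplexConjugate

/-- the degree of the field divides the dimension -/
theorem CcL_deg {κ : Type} [Fintype κ] [DecidableEq κ] {ϖ : ℂ} (P : PData κ ϖ)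
    {K : Type} [Field K] [NumberField K] (ρ : K →+* Module.End ℂ (κ → ℂ))
    (hρQ : ∀ x, ∀ v ∈ P.Q, ρ x v ∈ P.Q) : ∃ r, finrank ℚ K * r = Fintype.card κ := by
  classical
  let _ : Module K P.Q := kmod P ρ hρQ
  have hsmul : ∀ (x : K) (v : P.Q), ((x • v : P.Q) : κ → ℂ) = ρ x v := fun _ _ => rfl
  have : IsScalarTower ℚ K P.Q := ⟨fun q x v => Subtype.ext (by
    rw [hsmul, SetLike.val_smul, hsmul, rho_ratsmul, LinearMap.smul_apply]
    funext j; simp [Algebra.smul_def])⟩
  have hcardι : Fintype.card P.ι = Fintype.card κ := by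
    have h1 := Module.finrank_eq_card_basis P.bB
    rw [Module.finrank_fintype_fun_eq_card] at h1
    exact h1.symm
  have hfin : finrank ℚ P.Q = Fintype.card κ := by
    rw [← hcardι]
    apply finrank_span_eq_card
    exact P.bB.linearIndependent.restrict_scalars (by
      intro a b h
      simpa using h)
  have hQfin : Module.Finite ℚ P.Q := Module.Finite.span_of_finite ℚ (Set.finite_range P.bB)
  have : Module.Finite K P.Q := Module.Finite.of_restrictScalars_finite ℚ K P.Q
  refine ⟨finrank K P.Q, ?_⟩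
  rw [← hfin]
  exact Module.finrank_mul_finrank ℚ K P.Q

/-- eigenvectors which are not isotropic -/
theorem CcL_vec {A : AbVar} {L : Type} [Field L] [NumberField L]
    (R : L →+* Module.End ℂ A.H1) (hR : ∀ y, A.IsEnd (R y)) (h0 : ∃ e : A.H1, e ≠ 0)
    (σ : L →+* ℂ) : ∃ v : A.H1, (∀ y, R y v = σ y • v) ∧
      (pData A).ψ v (cB (pData A) v) ≠ 0 := by
  have hRQ : ∀ x, ∀ v ∈ (pData A).Q, R x v ∈ (pData A).Q := fun x v hv => rho_Q A R hR x v hv
  obtain ⟨r, hr⟩ := CcL_deg (pData A) R hRQ
  obtain ⟨lam, -, -, eb, heb⟩ := exists_Kbasis (pData A) R hRQ r hr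
  have hr0 : 0 < r := by
    rcases Nat.eq_zero_or_pos r with h | h
    · exfalso
      obtain ⟨e, he⟩ := h0
      rw [h, mul_zero] at hr
      have : IsEmpty (Fin A.g ⊕ Fin A.g) := Fintype.card_eq_zero_iff.mp hr.symm
      exact he (funext fun i => isEmptyElim i)
    · exact h
  obtain ⟨w, hw0, hww⟩ : ∃ w : A.H1, w ≠ 0 ∧ proj R σ w = w := by
    refine ⟨proj R σ (lam ⟨0, hr0⟩), ?_, proj_idem A R σ _⟩
    rw [← heb]
    exact eb.ne_zero _
  obtain ⟨u, u', hu, hu', huu⟩ := exists_hodge A w
  have heig : ∀ (v : A.H1) (y : L), R y (proj R σ v) = σ y • proj R σ v := by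
    intro v y
    rw [← Module.End.mul_apply, rho_mul_proj, LinearMap.smul_apply]
  have hsum : w = proj R σ u + cB (pData A) (proj R (ComplexEmbedding.conjugate σ) u') := by
    rw [← proj_cB A R hR, ← map_add, ← huu, hww]
  by_cases h1 : proj R σ u = 0
  · have h2 : proj R (ComplexEmbedding.conjugate σ) u' ≠ 0 := by
      intro h3
      rw [h1, h3, cB_zero, add_zero] at hsum
      exact hw0 hsum
    obtain ⟨s, hs, hsv⟩ := sign_conj A (proj_fil A R hR _ hu') h2
    refine ⟨cB (pData A) (proj R (ComplexEmbedding.conjugate σ) u'), fun y => ?_, ?_⟩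
    · rw [← proj_cB A R hR]
      exact heig _ y
    · rw [hsv]
      exact_mod_cast hs.ne'
  · obtain ⟨s, hs, hsv⟩ := sign_fil A (proj_fil A R hR σ hu) h1
    refine ⟨proj R σ u, fun y => heig _ y, ?_⟩
    rw [hsv, neg_ne_zero]
    exact_mod_cast hs.ne'

theorem thm_CcL : St_CcL := by
  intro A d J L _ _ R x hK hR hfull hRx h0
  have hψ : ∀ u v, (pData A).ψ u v = A.pol u v := fun u v => rfl
  -- the adjoints
  have hadj : ∀ y, ∃ y', ∀ u v, (pData A).ψ (R y u) v = (pData A).ψ u (R y' v) := by
    intro y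
    obtain ⟨f', hf', hff⟩ := Pool.Agent.Helper39.AF.exists_adj_mor A A (R y)
      ((Pool.Agent.Helper39.AF.isEnd_iff A _).mp (hR y))
    have hf'E : A.IsEnd f' := (Pool.Agent.Helper39.AF.isEnd_iff A _).mpr hf'
    have hcomm : ∀ v, f' (J v) = J (f' v) := by
      intro v
      have h1 : f' (J v) - J (f' v) = 0 := by
        apply Pool.Agent.Helper71.AF.ndr (pData A)
        intro u
        have h2 : R y (J u) = J (R y u) := by
          rw [← hRx, ← hRx, ← Module.End.mul_apply, ← Module.End.mul_apply, ← map_mul, ← map_mul,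
            mul_comm]
        have h3 : A.pol u (f' (J v)) = A.pol u (J (f' v)) := by
          have h4 := hK.adj (R y u) v
          have h5 := hK.adj u (f' v)
          have h6 : A.pol (J (R y u)) v = A.pol (J u) (f' v) := by
            rw [← h2, hff]
          rw [← hff]
          linear_combination h4 - h5 - h6
        rw [map_sub, hψ, hψ, h3, sub_self]
      exact sub_eq_zero.mp h1
    obtain ⟨y', hy'⟩ := hfull f' hf'E hcomm
    exact ⟨y', fun u v => by rw [hψ, hff, hy', ← hψ]⟩
  choose cc hcc using hadj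
  refine ⟨cc, fun σ y => ?_, hcc⟩
  obtain ⟨v, hv, hv0⟩ := CcL_vec R hR h0 σ
  have h1 : (pData A).ψ (R y v) (cB (pData A) v) = σ y * (pData A).ψ v (cB (pData A) v) := by
    rw [hv, map_smul, LinearMap.smul_apply, smul_eq_mul]
  have h2 : (pData A).ψ (R y v) (cB (pData A) v) =
      conj (σ (cc y)) * (pData A).ψ v (cB (pData A) v) := by
    rw [hcc, ← cB_comm (pData A) (R (cc y)) (fun w hw => rho_Q A R hR _ w hw), hv, cB_smul,
      map_smul, smul_eq_mul]
  have h3 : σ y = conj (σ (cc y)) := by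
    rw [h1] at h2
    exact mul_right_cancel₀ hv0 h2
  rw [h3, Complex.conj_conj]

end BSM
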