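import Pool.Agent.BSM.St

/-!
# BSM: the centre
-/

set_option autoImplicit false

namespace BSM

open Module Matrix NumberField Pool.Agent.Helper7
open Pool.Agent.GPC (AbVar Form IsGrothendieck IsDivisorial)
open Pool.Agent.Helper8.D (ent ent_apply)
open PSQ (W Inv BetR DRA)
open Pool.Agent.Helper28.GPC (tw isInv_tw entry_tw tw_snd)

/-- The symmetries with multiplier zero. -/
noncomputable def CenL_g (A : AbVar) (k : ℕ)
    (α : MultilinearMap ℂ (fun _ : Fin (2 * k) => W (Fin A.g ⊕ Fin A.g) 1) ℂ) :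
    Submodule ℂ (Module.End ℂ A.H1) where
  carrier := {X | Inv (pData A) 1 k α X 0}
  zero_mem' := IsInv.zero (fun _ : Unit => 1) (fun _ => pData A) α
  add_mem' := by
    intro X Y hX hY
    have h := IsInv.add _ _ _ (show IsInv (fun _ : Unit => 1) (fun _ => pData A) α
      (fun _ => X, 0) from hX) (show IsInv (fun _ : Unit => 1) (fun _ => pData A) α
      (fun _ => Y, 0) from hY)
    have e : ((fun _ : Unit => X, (0 : ℂ)) + (fun _ : Unit => Y, (0 : ℂ)) :
        GG (fun _ : Unit => Fin A.g ⊕ Fin A.g)) = (fun _ => X + Y, 0) := by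
      refine Prod.ext rfl ?_
      show (0 : ℂ) + 0 = 0
      rw [add_zero]
    rw [e] at h
    exact h
  smul_mem' := by
    intro c X hX
    have h := IsInv.smul _ _ _ c (show IsInv (fun _ : Unit => 1) (fun _ => pData A) α
      (fun _ => X, 0) from hX)
    have e : (c • (fun _ : Unit => X, (0 : ℂ)) :
        GG (fun _ : Unit => Fin A.g ⊕ Fin A.g)) = (fun _ => c • X, 0) := by
      refine Prod.ext rfl ?_
      show c • (0 : ℂ) = 0
      rw [smul_zero]
    rw [e] at h
    exact h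

theorem CenL_one {A : AbVar} {L : Type} [Field L] [NumberField L] {m : ℕ}
    (F : UF (pData A) L m) (σ : L →+* ℂ) : ent F σ (1 : Module.End ℂ A.H1) = 1 := by
  ext a b
  rw [ent_apply, Module.End.one_apply, Pool.Agent.Helper24.co_e_same, Matrix.one_apply]

/-- The number of places. -/
theorem CenL_card {A : AbVar} {L : Type} [Field L] [NumberField L] {m : ℕ}
    (F : UF (pData A) L m) (x : L) (z : ℂ) (hz : z ≠ 0)
    (hall : ∀ σ : L →+* ℂ, σ x = z ∨ σ x = -z)
    (hconj : ∀ σ : L →+* ℂ, ComplexEmbedding.conjugate σ x = -(σ x)) :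
    m * Fintype.card {σ : L →+* ℂ // σ x = z} = A.g := by
  classical
  have h1 : Fintype.card (L →+* ℂ) * m = A.g + A.g := by
    have h2 := finrank_eq_card_basis F.eb
    rw [finrank_fintype_fun_eq_card, Fintype.card_sum, Fintype.card_fin, Fintype.card_prod,
      Fintype.card_fin] at h2
    exact h2.symm
  have h3 : Fintype.card {σ : L →+* ℂ // ¬ σ x = z} = Fintype.card {σ : L →+* ℂ // σ x = z} := by
    refine Fintype.card_congr
      { toFun := fun σ => ⟨ComplexEmbedding.conjugate σ.1, ?_⟩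
        invFun := fun σ => ⟨ComplexEmbedding.conjugate σ.1, ?_⟩
        left_inv := fun σ => Subtype.ext (by
          show ComplexEmbedding.conjugate (ComplexEmbedding.conjugate σ.1) = σ.1
          exact star_involutive σ.1)
        right_inv := fun σ => Subtype.ext (by
          show ComplexEmbedding.conjugate (ComplexEmbedding.conjugate σ.1) = σ.1
          exact star_involutive σ.1) }
    · rw [hconj]
      rcases hall σ.1 with h | h
      · exact absurd h σ.2
      · rw [h, neg_neg]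
    · rw [hconj, σ.2]
      intro h
      apply hz
      linear_combination (-1 / 2 : ℂ) * h
  have h4 := Fintype.card_subtype_compl (fun σ : L →+* ℂ => σ x = z)
  have h5 := Fintype.card_subtype_le (fun σ : L →+* ℂ => σ x = z)
  have h6 : Fintype.card (L →+* ℂ) = 2 * Fintype.card {σ : L →+* ℂ // σ x = z} := by
    have h7 : Fintype.card {σ : L →+* ℂ // ¬ σ x = z} =
      Fintype.card (L →+* ℂ) - Fintype.card {σ : L →+* ℂ // σ x = z} := h4
    omega
  rw [h6] at h1
  nlinarith

theorem thm_CenL (h1 : St_CMat) : St_CenL := by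
  intro A d J z L _ _ m F x σ₀ C k α hD σ hσ
  classical
  obtain ⟨hcomm, hC1, -, ⟨u, v, huv, hC0⟩, hall, hconj⟩ :=
    h1 A d J z L m F x σ₀ C hD.ks hD.z2 hD.lf hD.hop
  have hd : (0 : ℚ) < d := hD.ks.pos
  have hz : z ≠ 0 := by
    rintro rfl
    have h2 := hD.z2
    have h3 : (d : ℂ) = 0 := by linear_combination h2
    exact hd.ne' (by exact_mod_cast h3)
  have hϖ : (2 * Real.pi * Complex.I : ℂ) ≠ 0 := Complex.two_pi_I_ne_zero
  have hB : ∀ v : Fin (2 * k) → W (Fin A.g ⊕ Fin A.g) 1,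
      (∀ r, IsRatP (fun _ : Unit => 1) (fun _ => pData A) (v r)) →
      ∃ q : ℚ, α v = (2 * Real.pi * Complex.I : ℂ) ^ k * q := hD.bet
  have hat0 := hD.lf.at0
  -- the Hodge operator with multiplier zero
  obtain ⟨X₀, hX₀⟩ : ∃ X₀ : GG (fun _ : Unit => Fin A.g ⊕ Fin A.g), X₀ = (fun _ => C, 1) +
      (-1 : ℂ) • (fun _ => (1 / 2 : ℂ) • (1 : Module.End ℂ _), 1) := ⟨_, rfl⟩
  have hX₀i : IsInv (fun _ : Unit => 1) (fun _ => pData A) α X₀ := by
    rw [hX₀]
    exact IsInv.add _ _ _ hD.inv (IsInv.smul _ _ _ _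
      (Pool.Agent.Helper98.Ball.isInv_homothety (fun _ : Unit => 1) (fun _ => pData A) α))
  have hX₀2 : X₀.2 = 0 := by
    rw [hX₀]
    show (1 : ℂ) + (-1 : ℂ) • (1 : ℂ) = 0
    rw [smul_eq_mul]; ring
  have hX₀1 : X₀.1 () = C - (1 / 2 : ℂ) • (1 : Module.End ℂ A.H1) := by
    rw [hX₀]
    show C + (-1 : ℂ) • ((1 / 2 : ℂ) • (1 : Module.End ℂ A.H1)) = _
    module
  have htr₀ : ∀ ρ : L →+* ℂ, ρ x = z →
      (ent F ρ (X₀.1 ())).trace = m / 2 - if ρ = σ₀ then 1 else 0 := by
    intro ρ hρ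
    rw [hX₀1, map_sub, map_smul, CenL_one, Matrix.trace_sub, Matrix.trace_smul, Matrix.trace_one,
      Fintype.card_fin, smul_eq_mul]
    by_cases h : ρ = σ₀
    · rw [h, hC0, Matrix.trace_sub, Matrix.trace_one, Fintype.card_fin, if_pos rfl]
      have h3 : (Matrix.vecMulVec u v).trace = 1 := by
        rw [← huv, Matrix.trace]
        rfl
      rw [h3]
      ring
    · rw [hC1 ρ hρ h, Matrix.trace_one, Fintype.card_fin, if_neg h]
      ring
  -- the twists
  have key : ∀ ρ : L →+* ℂ, ρ x = z → ∃ X, X ∈ CenL_g A k α ∧ ∀ σ' : L →+* ℂ, σ' x = z →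
      (ent F σ' X).trace = m / 2 - if σ' = ρ then 1 else 0 := by
    intro ρ hρ
    obtain ⟨τ, hτ⟩ := Pool.Agent.Helper84.exists_aut σ₀ ρ
    have hτz : τ z = z := by
      have h2 := RingHom.congr_fun hτ x
      rw [RingHom.comp_apply, hat0, hρ] at h2
      exact h2
    have hYi := isInv_tw (fun _ : Unit => 1) (fun _ => pData A) α hϖ hB τ X₀ hX₀i
    obtain ⟨Y, hY⟩ : ∃ Y, Y = tw (fun _ : Unit => pData A) τ X₀ := ⟨_, rfl⟩
    rw [← hY] at hYi
    have hY2 : Y.2 = 0 := by rw [hY, tw_snd, hX₀2, map_zero]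
    refine ⟨Y.1 (), ?_, ?_⟩
    · have h2 : Y = (fun _ => Y.1 (), 0) := Prod.ext rfl hY2
      rw [h2] at hYi
      exact hYi
    · intro σ' hσ'
      obtain ⟨s, hs⟩ : ∃ s : L →+* ℂ, s = (τ.symm : ℂ →+* ℂ).comp σ' := ⟨_, rfl⟩
      have hs' : σ' = (τ : ℂ →+* ℂ).comp s := by
        rw [hs]
        ext y
        exact (τ.apply_symm_apply (σ' y)).symm
      have hsx : s x = z := by
        apply τ.injective
        rw [hτz, ← hσ', hs']
        rfl
      have hent : ent F σ' (Y.1 ()) = (ent F s (X₀.1 ())).map τ := by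
        rw [hs', hY]
        ext a b
        exact entry_tw (K := fun _ => L) (fun _ : Unit => 1) (fun _ => pData A) α hϖ hB τ X₀ hX₀i ()
          F s a b
      have hmap : ((ent F s (X₀.1 ())).map τ).trace = τ (ent F s (X₀.1 ())).trace := by
        rw [Matrix.trace, Matrix.trace, map_sum]
        rfl
      rw [hent, hmap, htr₀ s hsx, map_sub, map_div₀, map_natCast, map_ofNat]
      by_cases h : s = σ₀
      · have h3 : σ' = ρ := by rw [hs', h, hτ]
        rw [if_pos h, if_pos h3, map_one]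
      · have h3 : ¬ σ' = ρ := by
          intro h3
          apply h
          ext y
          apply τ.injective
          have h4 := RingHom.congr_fun (hs'.symm.trans (h3.trans hτ.symm)) y
          exact h4
        rw [if_neg h, if_neg h3, map_zero]
  choose! XX hXX using key
  -- the sum
  have hcard := CenL_card F x z hz hall hconj
  obtain ⟨Y, hY⟩ : ∃ Y : Module.End ℂ A.H1, Y = ∑ ρ : {ρ : L →+* ℂ // ρ x = z}, XX ρ.1 := ⟨_, rfl⟩
  have hYg : Y ∈ CenL_g A k α := by
    rw [hY]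
    exact Submodule.sum_mem _ fun ρ _ => (hXX ρ.1 ρ.2).1
  have hcard' : (m : ℂ) * (Fintype.card {σ : L →+* ℂ // σ x = z} : ℂ) = A.g := by
    exact_mod_cast hcard
  have hYt : ∀ σ' : L →+* ℂ, σ' x = z → (ent F σ' Y).trace = (A.g - 2) / 2 := by
    intro σ' hσ'
    rw [hY, map_sum, Matrix.trace_sum]
    rw [Finset.sum_congr rfl fun ρ _ => (hXX ρ.1 ρ.2).2 σ' hσ', Finset.sum_sub_distrib,
      Finset.sum_const, Finset.card_univ, nsmul_eq_mul]
    have h3 : ∑ ρ : {ρ : L →+* ℂ // ρ x = z}, (if σ' = ρ.1 then (1 : ℂ) else 0) = 1 := by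
      rw [Finset.sum_eq_single ⟨σ', hσ'⟩]
      · rw [if_pos rfl]
      · intro ρ _ hρ
        rw [if_neg]
        rintro rfl
        exact hρ rfl
      · intro h
        exact absurd (Finset.mem_univ _) h
    rw [h3]
    linear_combination (1 / 2 : ℂ) * hcard'
  have hg2 : (A.g : ℂ) - 2 ≠ 0 := by
    have h3 := hD.g3
    intro h4
    have h5 : (A.g : ℂ) = ((2 : ℕ) : ℂ) := by push_cast; linear_combination h4
    have h6 : A.g = 2 := by exact_mod_cast h5
    omega
  refine ⟨((m : ℂ) / (A.g - 2)) • Y - XX σ, ?_, ?_, ?_⟩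
  · exact Submodule.sub_mem (CenL_g A k α) (Submodule.smul_mem _ _ hYg) (hXX σ hσ).1
  · rw [map_sub, map_smul, Matrix.trace_sub, Matrix.trace_smul, hYt σ hσ, (hXX σ hσ).2 σ hσ,
      if_pos rfl, smul_eq_mul]
    field_simp
    ring
  · intro τ hτ hne
    rw [map_sub, map_smul, Matrix.trace_sub, Matrix.trace_smul, hYt τ hτ, (hXX σ hσ).2 τ hτ,
      if_neg hne, smul_eq_mul]
    field_simp
    ring

end BSM
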