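import Pool.Agent.BSM.St

/-!
# BSM: the classes are divisorial
-/

set_option autoImplicit false

namespace BSM

open Module Matrix NumberField Pool.Agent.Helper7
open Pool.Agent.GPC (AbVar Form IsGrothendieck IsDivisorial)
open Pool.Agent.Helper8.D (ent)
open PSQ (W Inv BetR DRA)

section

variable {U : Type} [AddCommGroup U] [Module ℂ U] {S : Type} [DecidableEq S] {p : ℕ}

/-- the pairing on the basis -/
lemma FamL_bs (e : Basis (Bool × S × Fin p) ℂ U) (s : S) (x y : Bool × S × Fin p) :
    bs e s (e x) (e y) =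
      if x.1 = true ∧ x.2.1 = s ∧ y.1 = false ∧ y.2.1 = s ∧ x.2.2 = y.2.2 then 1 else 0 := by
  classical
  obtain ⟨b, t, i⟩ := x
  obtain ⟨b', t', i'⟩ := y
  unfold bs
  rw [LinearMap.sum_apply, LinearMap.sum_apply]
  simp only [LinearMap.compl₁₂_apply, LinearMap.mul_apply', Basis.coord_apply, Basis.repr_self,
    Finsupp.single_apply, Prod.mk.injEq]
  by_cases h : b = true ∧ t = s ∧ b' = false ∧ t' = s ∧ i = i'
  · obtain ⟨rfl, rfl, rfl, rfl, rfl⟩ := h
    simp
  · rw [if_neg h]
    refine Finset.sum_eq_zero fun j _ => ?_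
    by_cases h1 : b = true ∧ t = s ∧ i = j
    · by_cases h2 : b' = false ∧ t' = s ∧ i' = j
      · exact absurd ⟨h1.1, h1.2.1, h2.1, h2.2.1, h1.2.2.trans h2.2.2.symm⟩ h
      · rw [if_neg h2, mul_zero]
    · rw [if_neg h1, zero_mul]

/-- invariance of the pairing -/
lemma FamL_inv (e : Basis (Bool × S × Fin p) ℂ U) (s : S) (X : Module.End ℂ U) (c : ℂ)
    (M : S → Matrix (Fin p) (Fin p) ℂ)
    (h1 : ∀ t j, X (e (true, t, j)) = ∑ i, M t i j • e (true, t, i))
    (h2 : ∀ t i, X (e (false, t, i)) = c • e (false, t, i) - ∑ j, M t i j • e (false, t, j))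
    (u v : U) : bs e s (X u) v + bs e s u (X v) = c * bs e s u v := by
  classical
  have h : (bs e s).comp X + (bs e s).compl₂ X = c • bs e s := by
    refine LinearMap.ext_basis e e ?_
    rintro ⟨b, t, i⟩ ⟨b', t', i'⟩
    simp only [LinearMap.add_apply, LinearMap.comp_apply, LinearMap.compl₂_apply,
      LinearMap.smul_apply, smul_eq_mul]
    cases b
    · have e1 : ∀ w, bs e s (e (false, t, i)) w = 0 := by
        intro w
        have e2 : bs e s (e (false, t, i)) = 0 := by
          refine e.ext fun y => ?_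
          rw [FamL_bs, if_neg (fun h => by simpa using h.1), LinearMap.zero_apply]
        rw [e2, LinearMap.zero_apply]
      have e3 : ∀ j w, bs e s (e (false, t, j)) w = 0 := by
        intro j w
        have e2 : bs e s (e (false, t, j)) = 0 := by
          refine e.ext fun y => ?_
          rw [FamL_bs, if_neg (fun h => by simpa using h.1), LinearMap.zero_apply]
        rw [e2, LinearMap.zero_apply]
      rw [h2, map_sub, map_smul, map_sum]
      simp only [map_smul, LinearMap.sub_apply, LinearMap.smul_apply, LinearMap.sum_apply, e3]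
      simp
    · cases b'
      · rw [h1, h2, map_sum, LinearMap.sum_apply, map_sub, map_smul, map_sum]
        simp only [map_smul, LinearMap.smul_apply, FamL_bs, smul_eq_mul]
        by_cases ht : t = s
        · by_cases ht' : t' = s
          · subst ht
            subst ht'
            simp
          · simp [ht']
        · simp [ht]
      · have e3 : ∀ w j, bs e s w (e (true, t', j)) = 0 := by
          intro w j
          have e2 : (bs e s).flip (e (true, t', j)) = 0 := by
            refine e.ext fun y => ?_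
            rw [LinearMap.flip_apply, FamL_bs, if_neg (fun h => by simpa using h.2.2.1),
              LinearMap.zero_apply]
          rw [← LinearMap.flip_apply, e2, LinearMap.zero_apply]
        rw [e3, h1 t', map_sum, e3]
        simp only [map_smul, e3]
        simp
  have h3 := LinearMap.congr_fun (LinearMap.congr_fun h u) v
  simpa only [LinearMap.add_apply, LinearMap.comp_apply, LinearMap.compl₂_apply,
      LinearMap.smul_apply, smul_eq_mul] using h3

end

theorem thm_FamL (h1 : St_FullL) (h2 : St_FrmL) (h3 : St_AltL) : St_FamL := by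
  classical
  intro A d J z L _ _ m F x σ₀ C k α H
  have hϖ : (2 * Real.pi * Complex.I : ℂ) ≠ 0 := Complex.two_pi_I_ne_zero
  obtain ⟨e, -, he⟩ := h2 A d J z L m F x σ₀ H.ks H.z2 H.lf
  obtain ⟨e', he'⟩ : ∃ e' : Basis (Bool × {σ : L →+* ℂ // σ x = z} × Fin m) ℂ
      (W (Fin A.g ⊕ Fin A.g) 1), ∀ i, e' i = Pool.Agent.Helper83.Ball.one A (e i) :=
    ⟨e.map (Pool.Agent.Helper83.Ball.one A), fun i => Basis.map_apply _ _ _⟩
  have hl : ∀ (X : Module.End ℂ A.H1) v, lift (fun _ : Unit => 1) (fun _ => X)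
      (Pool.Agent.Helper83.Ball.one A v) = Pool.Agent.Helper83.Ball.one A (X v) :=
    fun X v => rfl
  have hact : ∀ (X : Module.End ℂ A.H1) (c : ℂ), F.Comm X →
      (∀ u v, (pData A).ψ (X u) v + (pData A).ψ u (X v) = c * (pData A).ψ u v) →
      (∀ (σ : {σ : L →+* ℂ // σ x = z}) (j : Fin m),
        lift (fun _ : Unit => 1) (fun _ => X) (e' (true, σ, j)) =
          ∑ i, ent F σ.1 X i j • e' (true, σ, i)) ∧
      ∀ (σ : {σ : L →+* ℂ // σ x = z}) (i : Fin m),
        lift (fun _ : Unit => 1) (fun _ => X) (e' (false, σ, i)) =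
          c • e' (false, σ, i) - ∑ j, ent F σ.1 X i j • e' (false, σ, j) := by
    intro X c hX hp
    obtain ⟨a, b⟩ := he X c hX hp
    refine ⟨fun σ j => ?_, fun σ i => ?_⟩
    · rw [he', hl, a, map_sum]
      refine Finset.sum_congr rfl fun i _ => ?_
      rw [map_smul, he']
    · rw [he', hl, b, map_sub, map_smul, map_sum]
      congr 1
      refine Finset.sum_congr rfl fun i _ => ?_
      rw [map_smul, he']
  have hgl : GlI e' α := by
    intro y X hX1 hX2 v
    obtain ⟨X', hX', hent⟩ := h1 A d J z L m F x σ₀ C k _ H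
      (fun σ => if h : σ x = z then y ⟨σ, h⟩ else 0)
    have hc : F.Comm X' := F.comm_of_isInv (fun _ : Unit => 1) (fun _ => pData A) _ () hX'
    obtain ⟨a, b⟩ := hact X' 0 hc (hX'.pol ())
    have hent' : ∀ σ : {σ : L →+* ℂ // σ x = z}, ent F σ.1 X' = y σ := by
      intro σ
      rw [hent σ.1 σ.2, dif_pos σ.2]
    have hE : X = lift (fun _ : Unit => 1) (fun _ => X') := by
      refine e'.ext ?_
      rintro ⟨b', σ, j⟩
      cases b'
      · rw [hX2, b, zero_smul, zero_sub, hent']
      · rw [hX1, a, hent']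
    have hf := congrArg (fun M : MultilinearMap ℂ (fun _ : Fin (2 * k) =>
      W (Fin A.g ⊕ Fin A.g) 1) ℂ => M v) hX'.form
    simp only [actForm_apply, _root_.smul_apply, smul_eq_mul, mul_zero, zero_mul] at hf
    rw [hE]
    exact hf
  have hspan := h3 _ _ m k e' α hgl
  have hpair : ∀ s, bs e' s ∈ invB (fun _ : Unit => 1) (fun _ => pData A)
      (α : MultilinearMap ℂ (fun _ : Fin (2 * k) => W (Fin A.g ⊕ Fin A.g) 1) ℂ) := by
    intro s X hX u v
    have hc : F.Comm (X.1 ()) :=
      F.comm_of_isInv (fun _ : Unit => 1) (fun _ => pData A) _ () hX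
    obtain ⟨a, b⟩ := hact (X.1 ()) X.2 hc (hX.pol ())
    exact FamL_inv e' s (lift (fun _ : Unit => 1) X.1) X.2 (fun σ => ent F σ.1 (X.1 ())) a b u v
  have h4 : α ∈ Submodule.span ℂ {ω | ∃ γ : Fin k → (W (Fin A.g ⊕ Fin A.g) 1 →ₗ[ℂ]
      W (Fin A.g ⊕ Fin A.g) 1 →ₗ[ℂ] ℂ),
      (∀ a, γ a ∈ GW (fun _ : Unit => 1) (fun _ => pData A)) ∧ ω = wedge γ} := by
    refine (Submodule.span_le.mpr ?_) hspan
    rintro ω ⟨c, rfl⟩
    exact wedge_mem_span _ _ (fun a => inv_mem_GW _ _ _ hϖ H.bet H.alg _ (hpair (c a)))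
  refine rational_descent (FBP (fun _ : Unit => 1) (fun _ => pData A))
    ((2 * Real.pi * Complex.I : ℂ) ^ k) (pow_ne_zero _ hϖ) _ ?_ α
    (fun s => H.bet _ (fun r => FBP_isRatP (fun _ : Unit => 1) (fun _ => pData A) _)) h4
  rintro ω ⟨γ, hγ, rfl⟩ s
  exact wedge_rational' (fun _ : Unit => 1) (fun _ => pData A) γ hγ _
    (fun r => FBP_isRatP (fun _ : Unit => 1) (fun _ => pData A) _)

end BSM
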