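import Pool.Agent.BSM.St
import Pool.Agent.Helper83.Ball.Final

/-!
# BSM, FinS: the theorem
-/

set_option autoImplicit false

namespace BSM

open Module Matrix NumberField Pool.Agent.Helper7
open Pool.Agent.GPC (AbVar Form IsGrothendieck IsDivisorial)
open PSQ (W Inv BetR DRA)

theorem thm_FinS (h1 : St_Adj) (h2 : St_Fld) (h3 : St_UFr) (h4 : St_Hop) (h5 : St_HInv)
    (h6 : St_FamL) (h7 : DWG.St_FinG) (h8 : BTL.St_Fin) : St_FinS := by
  intro A d J z hs hg hd hJ hsq hz hf m k hmk α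
  by_cases hm : m = 1
  swap
  · obtain ⟨he, ha⟩ := hmk.resolve_left hm
    exact h8 A d J hg ⟨hd, hJ, hsq, ha⟩ ⟨z, hz, hf⟩ m k (Or.inr he) α
  subst hm
  refine ⟨fun hα => ?_, Pool.Agent.Helper7.isGrothendieck_of_isDivisorial _ _ k α⟩
  have hks : DWC.IsKs A d J := h1 A d J z hs hg hd hJ hsq hz hf
  obtain ⟨L, _, _, R, x, σ₀, hR, hcen, hRx, hσ, e, he0, hef, hee, hre⟩ := h2 A d J z hs hks hz hf
  obtain ⟨m, F, hF⟩ := h3 A d J z L R x σ₀ e hks hz hf hR hcen hRx hσ he0 hef hee hre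
  obtain ⟨C, hC⟩ := h4 A
  obtain ⟨hα1, hα2⟩ := hα
  obtain ⟨β, hβ⟩ : ∃ β : A.Class (2 * k), β =
      α.compLinearMap (Pool.Agent.Helper83.Ball.one A).toLinearMap := ⟨_, rfl⟩
  have hαβ : t1 A β = α := by
    rw [hβ]
    ext v
    show α (fun r => Pool.Agent.Helper83.Ball.one A
      ((Pool.Agent.Helper83.Ball.one A).symm (v r))) = α v
    simp only [LinearEquiv.apply_symm_apply]
  have hβG : A.IsGrothendieckClass k β := by
    rw [hβ]
    exact ⟨fun v hv => hα1 _ fun r _ _ => hv r, fun v hv => hα2 _ fun r _ _ => hv r⟩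
  have hfil := h7 A d J z hg hks hz hf k β hβG
  have hinv := h5 A C k β hC hβG.2 hfil
  rw [hαβ] at hinv
  have hB : BetR (pData A) 1 k (α : MultilinearMap ℂ (fun _ : Fin (2 * k) => W _ 1) ℂ) := by
    intro v hv
    apply hα2
    intro r i m
    exact (mem_pData_Q _ _).mp (hv r i m)
  have hD : DRA 1 k (α : MultilinearMap ℂ
      (fun _ : Fin (2 * k) => W (Fin A.g ⊕ Fin A.g) 1) ℂ) :=
    fun v hv => hα1 v fun r i m j => hv r i m j
  refine isDivisorial_of_span (fun _ : Unit => A) (fun _ => 1) k α ?_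
  exact h6 A d J z L m F x σ₀ C k α ⟨hg, hks, hz, hF, hC, hB, hD, hinv⟩

end BSM
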