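import Pool.Agent.BSM.St
import Pool.Agent.Helper71.AF.Cases
import Pool.Agent.Helper7.AFT.Bal

/-!
# BSM, [Fld]: the field of the endomorphisms which commute with `J`
-/

set_option autoImplicit false

namespace BSM

open Module Matrix NumberField Pool.Agent.Helper7
open Pool.Agent.GPC (AbVar Form IsGrothendieck IsDivisorial)
open Pool.Agent.Helper71.AF (DD finite_DD field_of_subfield)

/-- the centraliser of an element of a division ring, as a subfield -/
private def Fld_cen {D : Type} [DivisionRing D] (j : D) : Subfield D where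
  carrier := {f | f * j = j * f}
  mul_mem' := by
    intro a b ha hb
    show a * b * j = j * (a * b)
    have ha' : a * j = j * a := ha
    have hb' : b * j = j * b := hb
    rw [mul_assoc, hb', ← mul_assoc, ha', mul_assoc]
  one_mem' := by
    show 1 * j = j * 1
    rw [one_mul, mul_one]
  add_mem' := by
    intro a b ha hb
    show (a + b) * j = j * (a + b)
    have ha' : a * j = j * a := ha
    have hb' : b * j = j * b := hb
    rw [add_mul, mul_add, ha', hb']
  zero_mem' := by
    show 0 * j = j * 0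
    rw [zero_mul, mul_zero]
  neg_mem' := by
    intro a ha
    show -a * j = j * -a
    have ha' : a * j = j * a := ha
    rw [neg_mul, mul_neg, ha']
  inv_mem' := by
    intro a ha
    show a⁻¹ * j = j * a⁻¹
    have ha' : a * j = j * a := ha
    by_cases h0 : a = 0
    · rw [h0, _root_.inv_zero, zero_mul, mul_zero]
    · have h1 : a * (a⁻¹ * j) = a * (j * a⁻¹) := by
        rw [← mul_assoc, mul_inv_cancel₀ h0, one_mul, ← mul_assoc, ha', mul_assoc,
          mul_inv_cancel₀ h0, mul_one]
      exact mul_left_cancel₀ h0 h1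

/-- a commutative centraliser is a number field -/
private theorem Fld_abs {D : Type} [Ring D] [IsDomain D] [Algebra ℚ D] [hfin : Module.Finite ℚ D]
    (j : D) (hcomm : ∀ x y : D, x * j = j * x → y * j = j * y → x * y = y * x) :
    ∃ (K : Type) (_ : Field K) (_ : NumberField K) (e : K →+* D),
      ∀ z, z * j = j * z ↔ ∃ x, e x = z := by
  let _ : DivisionRing D := divisionRingOfFiniteDimensional ℚ D
  have h0 : CharZero D := charZero_of_injective_algebraMap (algebraMap ℚ D).injective
  have h1 : @Module.Finite ℚ D _ _ (DivisionRing.toRatAlgebra : Algebra ℚ D).toModule := by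
    have h2 : (DivisionRing.toRatAlgebra : Algebra ℚ D).toModule = Algebra.toModule :=
      Subsingleton.elim _ _
    rw [h2]
    exact hfin
  exact field_of_subfield (Fld_cen j) fun x hx y hy => hcomm x y hx hy

/-- [Fld] -/
theorem thm_Fld : St_Fld := by
  intro A d J z hs hK hz h1
  -- the line
  obtain ⟨e', he0', he'⟩ := finrank_eq_one_iff'.mp h1
  obtain ⟨e, he⟩ : ∃ e : A.H1, e = e'.1 := ⟨_, rfl⟩
  have hJl : IsLinearMap ℂ (⇑J : A.H1 → A.H1) := J.isLinear
  have hmem : ∀ v, v ∈ A.filEigen J z ↔ J v = z • v ∧ A.IsFil v := fun v =>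
    Pool.Agent.Helper7.AFT.mem_filEigen hJl z v
  have hee := (hmem e'.1).1 e'.2
  rw [← he] at hee
  have he0 : e ≠ 0 := by
    rw [he]
    intro h
    exact he0' (Subtype.ext h)
  have hline : ∀ v, J v = z • v → A.IsFil v → ∃ c : ℂ, v = c • e := by
    intro v hv1 hv2
    obtain ⟨c, hc⟩ := he' ⟨v, (hmem v).2 ⟨hv1, hv2⟩⟩
    refine ⟨c, ?_⟩
    have h2 := congrArg Subtype.val hc
    rw [he]
    exact h2.symm
  have hg : 0 < A.g := by
    rcases Nat.eq_zero_or_pos A.g with h | h
    · exfalso
      apply he0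
      funext j
      rcases j with j | j
      · exact absurd j.2 (by omega)
      · exact absurd j.2 (by omega)
    · exact h
  have hdom := Pool.Agent.Helper71.AF.isDomain_DD A hg hs
  have hfin := finite_DD (pData A)
  have hendD : ∀ f : DD (pData A), A.IsEnd (f : Module.End ℂ A.H1) :=
    fun f => isEnd_of_isDRB A _ f.2
  obtain ⟨JD, hJD⟩ : ∃ F : DD (pData A), ∀ v, (F : Module.End ℂ A.H1) v = J v :=
    ⟨⟨J, isDRB_of_isEnd A _ hK.endo⟩, fun _ => rfl⟩
  have hmulD : ∀ (f g : DD (pData A)) v, ((f * g : DD (pData A)) : Module.End ℂ A.H1) v =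
    (f : Module.End ℂ A.H1) ((g : Module.End ℂ A.H1) v) := fun _ _ _ => rfl
  have hsubD : ∀ (f g : DD (pData A)) v, ((f - g : DD (pData A)) : Module.End ℂ A.H1) v =
    (f : Module.End ℂ A.H1) v - (g : Module.End ℂ A.H1) v := fun _ _ _ => rfl
  have hextD : ∀ f g : DD (pData A), (∀ v, (f : Module.End ℂ A.H1) v =
      (g : Module.End ℂ A.H1) v) → f = g := fun f g h => Subtype.ext (LinearMap.ext h)
  -- elements of the centraliser act on the line
  have hact : ∀ f : DD (pData A), f * JD = JD * f →
      ∃ c : ℂ, (f : Module.End ℂ A.H1) e = c • e := by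
    intro f hf
    apply hline
    · have h2 := congrArg (fun F : DD (pData A) => (F : Module.End ℂ A.H1) e) hf
      simp only [hmulD, hJD] at h2
      rw [← h2, hee.1, map_smul]
    · exact (hendD f).hodge e hee.2
  -- simplicity
  have hzero : ∀ f : DD (pData A), (f : Module.End ℂ A.H1) e = 0 → f = 0 := by
    intro f hf
    by_contra hne
    have h2 : ∃ v, (f : Module.End ℂ A.H1) v ≠ 0 := by
      by_contra hall
      push Not at hall
      exact hne (hextD f 0 hall)
    have h3 := hs _ (hendD f) h2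
    exact he0 (h3 (by rw [hf, map_zero]))
  have hcomm : ∀ x y : DD (pData A), x * JD = JD * x → y * JD = JD * y → x * y = y * x := by
    intro x y hx hy
    obtain ⟨a, ha⟩ := hact x hx
    obtain ⟨b, hb⟩ := hact y hy
    rw [← sub_eq_zero]
    apply hzero
    rw [hsubD, hmulD, hmulD, ha, hb, map_smul, map_smul, ha, hb, smul_smul, smul_smul, mul_comm,
      sub_self]
  obtain ⟨L, hL1, hL2, ε, hε⟩ := Fld_abs JD hcomm
  obtain ⟨x, hx⟩ := (hε JD).1 rfl
  have hactL : ∀ y : L, ∃ c : ℂ, (ε y : Module.End ℂ A.H1) e = c • e :=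
    fun y => hact _ ((hε _).2 ⟨y, rfl⟩)
  choose σ hσ using hactL
  have hinj : ∀ a b : ℂ, a • e = b • e → a = b := by
    intro a b hab
    have h2 : (a - b) • e = 0 := by rw [sub_smul, hab, sub_self]
    rcases smul_eq_zero.mp h2 with h3 | h3
    · exact sub_eq_zero.mp h3
    · exact absurd h3 he0
  let σ₀ : L →+* ℂ :=
    { toFun := σ
      map_one' := by
        apply hinj
        rw [← hσ, map_one, one_smul]
        rfl
      map_mul' := by
        intro a b
        apply hinj
        rw [← hσ, map_mul, hmulD, hσ, map_smul, hσ, smul_smul, mul_comm]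
      map_zero' := by
        apply hinj
        rw [← hσ, map_zero, zero_smul]
        rfl
      map_add' := by
        intro a b
        apply hinj
        rw [← hσ, map_add, add_smul, ← hσ, ← hσ]
        rfl }
  obtain ⟨R, hR⟩ : ∃ R : L →+* Module.End ℂ A.H1, ∀ y, R y = ε y :=
    ⟨(DD (pData A)).val.toRingHom.comp ε, fun _ => rfl⟩
  refine ⟨L, hL1, hL2, R, x, σ₀, ?_, ?_, ?_, ?_, e, he0, hee.2, hee.1, ?_⟩
  · intro y
    rw [hR]
    exact hendD _
  · intro f hf hfJ
    obtain ⟨F, hF⟩ : ∃ F : DD (pData A), ∀ v, (F : Module.End ℂ A.H1) v = f v :=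
      ⟨⟨IsLinearMap.mk' f hf.linear, isDRB_of_isEnd A _ hf⟩, fun _ => rfl⟩
    obtain ⟨y, hy⟩ := (hε F).1 (by
      apply hextD
      intro v
      rw [hmulD, hmulD, hF, hJD, hJD, hF]
      exact hfJ v)
    exact ⟨y, fun v => by rw [hR, hy, hF]⟩
  · intro v
    rw [hR, hx, hJD]
  · show σ x = z
    apply hinj
    rw [← hσ, hx, hJD, hee.1]
  · intro y
    rw [hR]
    exact hσ y

end BSM
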