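import Pool.Agent.BSM.St

/-!
# BSM: the basis adapted to the field of endomorphisms
-/

set_option autoImplicit false

namespace BSM

open Module Matrix NumberField Pool.Agent.Helper7
open Pool.Agent.GPC (AbVar Form IsGrothendieck IsDivisorial)
open Pool.Agent.Helper8.D (ent ent_act)

section frm

variable {κ : Type} [Fintype κ] [DecidableEq κ] {ϖ : ℂ} {P : PData κ ϖ} {K : Type} [Field K]
  [NumberField K] {m : ℕ} (F : UF P K m)

private noncomputable def FrmL_G (σ : K →+* ℂ) : Matrix (Fin m) (Fin m) ℂ :=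
  Matrix.of fun a b => P.ψ (F.e σ a) (F.e (ComplexEmbedding.conjugate σ) b)

private theorem FrmL_iso (τ τ' : K →+* ℂ) (h : τ' ≠ ComplexEmbedding.conjugate τ) (u v : κ → ℂ)
    (hu : ∀ y, F.ρ y u = τ y • u) (hv : ∀ y, F.ρ y v = τ' y • v) : P.ψ u v = 0 := by
  by_contra hne
  apply h
  refine RingHom.ext fun y => ?_
  have h1 := F.hros (F.cc y) u v
  rw [F.cc_cc, hu, hv, map_smul, LinearMap.smul_apply, map_smul, smul_eq_mul, smul_eq_mul,
    F.hcc] at h1
  rw [ComplexEmbedding.conjugate_coe_eq]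
  exact (mul_right_cancel₀ hne h1).symm

omit [NumberField K] in
private theorem FrmL_cinj {σ τ : K →+* ℂ}
    (h : ComplexEmbedding.conjugate σ = ComplexEmbedding.conjugate τ) : σ = τ := by
  refine RingHom.ext fun y => ?_
  have h1 := RingHom.congr_fun h y
  rw [ComplexEmbedding.conjugate_coe_eq, ComplexEmbedding.conjugate_coe_eq] at h1
  exact (starRingEnd ℂ).injective h1

private theorem FrmL_det (σ : K →+* ℂ) : IsUnit (FrmL_G F σ).det := by
  rw [isUnit_iff_ne_zero]
  intro h0
  obtain ⟨v, hv, h1⟩ := Matrix.exists_mulVec_eq_zero_iff.mpr h0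
  apply hv
  have h2 : (∑ b, v b • F.e (ComplexEmbedding.conjugate σ) b) = 0 := by
    apply P.hψnd
    intro w
    rw [P.hψalt, neg_eq_zero]
    rw [F.hsum w, map_sum P.ψ, LinearMap.sum_apply]
    refine Finset.sum_eq_zero fun τ _ => ?_
    rw [map_sum P.ψ, LinearMap.sum_apply]
    refine Finset.sum_eq_zero fun a _ => ?_
    rw [map_smul, LinearMap.smul_apply]
    by_cases h3 : τ = σ
    · have h4 := congrFun h1 a
      rw [Matrix.mulVec, dotProduct, Pi.zero_apply] at h4
      rw [h3, map_sum]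
      have h5 : ∑ b, P.ψ (F.e σ a) (v b • F.e (ComplexEmbedding.conjugate σ) b) = 0 := by
        rw [← h4]
        refine Finset.sum_congr rfl fun b _ => ?_
        rw [map_smul, smul_eq_mul, FrmL_G, Matrix.of_apply, mul_comm]
      rw [h5, smul_zero]
    · rw [FrmL_iso F τ (ComplexEmbedding.conjugate σ) (fun h => h3 (FrmL_cinj h).symm) _ _
        (fun y => F.rho_e y τ a) (fun y => ?_), smul_zero]
      rw [map_sum, Finset.smul_sum]
      refine Finset.sum_congr rfl fun b _ => ?_
      rw [map_smul, F.rho_e, smul_comm]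
  funext b
  have h3 : F.co (ComplexEmbedding.conjugate σ) b
      (∑ b, v b • F.e (ComplexEmbedding.conjugate σ) b) = v b := by
    classical
    rw [map_sum, Finset.sum_eq_single b]
    · rw [map_smul, F.co_e, if_pos ⟨rfl, rfl⟩, smul_eq_mul, mul_one]
    · intro b' _ hb
      rw [map_smul, F.co_e, if_neg (fun h => hb h.2.symm), smul_zero]
    · intro h
      exact absurd (Finset.mem_univ _) h
  rw [← h3, h2, map_zero, Pi.zero_apply]

/-- The dual vectors. -/
private noncomputable def FrmL_d (σ : K →+* ℂ) (i : Fin m) : κ → ℂ :=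
  ∑ b, (FrmL_G F σ)⁻¹ b i • F.e (ComplexEmbedding.conjugate σ) b

private theorem FrmL_eig (σ : K →+* ℂ) (i : Fin m) (y : K) : F.ρ y (FrmL_d F σ i) =
    ComplexEmbedding.conjugate σ y • FrmL_d F σ i := by
  unfold FrmL_d
  rw [map_sum, Finset.smul_sum]
  refine Finset.sum_congr rfl fun b _ => ?_
  rw [map_smul, F.rho_e, smul_comm]

private theorem FrmL_dual (σ : K →+* ℂ) (a i : Fin m) :
    P.ψ (F.e σ a) (FrmL_d F σ i) = if a = i then 1 else 0 := by
  unfold FrmL_d
  rw [map_sum]
  have h1 : ∑ b, P.ψ (F.e σ a) ((FrmL_G F σ)⁻¹ b i •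
      F.e (ComplexEmbedding.conjugate σ) b) = (FrmL_G F σ * (FrmL_G F σ)⁻¹) a i := by
    rw [Matrix.mul_apply]
    refine Finset.sum_congr rfl fun b _ => ?_
    rw [map_smul, smul_eq_mul, FrmL_G, Matrix.of_apply, mul_comm]
  rw [h1, Matrix.mul_nonsing_inv _ (FrmL_det F σ), Matrix.one_apply]

private theorem FrmL_off {σ τ : K →+* ℂ} (h : τ ≠ σ) (a i : Fin m) :
    P.ψ (F.e τ a) (FrmL_d F σ i) = 0 :=
  FrmL_iso F τ (ComplexEmbedding.conjugate σ) (fun h2 => h (FrmL_cinj h2).symm) _ _
    (fun y => F.rho_e y τ a) fun y => FrmL_eig F σ i y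

/-- The vectors of the frame. -/
private noncomputable def FrmL_v (x : K) (z : ℂ) :
    Bool × {σ : K →+* ℂ // σ x = z} × Fin m → (κ → ℂ)
  | (true, σ, j) => F.e σ.1 j
  | (false, σ, i) => FrmL_d F σ.1 i

variable {x : K} {z : ℂ} (hc : ∀ σ : K →+* ℂ, ComplexEmbedding.conjugate σ x = -σ x)
  (hz : z ≠ 0)

include hc hz

omit [NumberField K] in
private theorem FrmL_nc {σ τ : K →+* ℂ} (h1 : σ x = z) (h2 : τ x = z) :
    τ ≠ ComplexEmbedding.conjugate σ := by
  rintro rfl
  rw [hc, h1] at h2
  apply hz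
  have h4 : (2 : ℂ) * z = 0 := by linear_combination -h2
  exact (mul_eq_zero.mp h4).resolve_left two_ne_zero

private theorem FrmL_tt {σ τ : K →+* ℂ} (h1 : σ x = z) (h2 : τ x = z) (a b : Fin m) :
    P.ψ (F.e σ a) (F.e τ b) = 0 :=
  FrmL_iso F σ τ (FrmL_nc hc hz h1 h2) _ _ (fun y => F.rho_e y σ a) fun y => F.rho_e y τ b

private theorem FrmL_ff {σ τ : K →+* ℂ} (h1 : σ x = z) (h2 : τ x = z) (a : Fin m) (w : κ → ℂ)
    (hw : ∀ y, F.ρ y w = ComplexEmbedding.conjugate τ y • w) :
    P.ψ (FrmL_d F σ a) w = 0 := by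
  refine FrmL_iso F _ _ (fun h => ?_) _ _ (fun y => FrmL_eig F σ a y) hw
  exact FrmL_nc hc hz h1 h2 (FrmL_cinj h)

private theorem FrmL_li : LinearIndependent ℂ (FrmL_v F x z) := by
  classical
  rw [Fintype.linearIndependent_iff]
  intro g hg
  rw [Fintype.sum_prod_type, Fintype.sum_bool, Fintype.sum_prod_type, Fintype.sum_prod_type] at hg
  have hf : ∀ σ i, g (false, σ, i) = 0 := by
    intro σ i
    have h1 := congrArg (P.ψ (F.e σ.1 i)) hg
    rw [map_add, map_sum, map_sum, map_zero, Finset.sum_eq_zero, zero_add,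
      Finset.sum_eq_single σ, map_sum, Finset.sum_eq_single i] at h1
    · rw [map_smul] at h1
      have h2 : P.ψ (F.e σ.1 i) (FrmL_v F x z (false, σ, i)) = 1 := by
        show P.ψ (F.e σ.1 i) (FrmL_d F σ.1 i) = 1
        rw [FrmL_dual F, if_pos rfl]
      rw [h2, smul_eq_mul, mul_one] at h1
      exact h1
    · intro b _ hb
      rw [map_smul]
      show g (false, σ, b) • P.ψ (F.e σ.1 i) (FrmL_d F σ.1 b) = 0
      rw [FrmL_dual F, if_neg (Ne.symm hb), smul_zero]
    · intro hi
      exact absurd (Finset.mem_univ _) hi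
    · intro τ _ hτ
      rw [map_sum]
      refine Finset.sum_eq_zero fun b _ => ?_
      rw [map_smul]
      show g (false, τ, b) • P.ψ (F.e σ.1 i) (FrmL_d F τ.1 b) = 0
      rw [FrmL_off F (fun h => hτ (Subtype.ext h).symm), smul_zero]
    · intro hi
      exact absurd (Finset.mem_univ _) hi
    · intro τ _
      rw [map_sum]
      refine Finset.sum_eq_zero fun b _ => ?_
      rw [map_smul]
      show g (true, τ, b) • P.ψ (F.e σ.1 i) (F.e τ.1 b) = 0
      rw [FrmL_tt F hc hz σ.2 τ.2, smul_zero]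
  have ht : ∀ σ i, g (true, σ, i) = 0 := by
    intro σ i
    have h1 := congrArg (fun v => P.ψ v (FrmL_d F σ.1 i)) hg
    simp only [hf, zero_smul, Finset.sum_const_zero, add_zero, map_zero,
      LinearMap.zero_apply] at h1
    rw [map_sum, LinearMap.sum_apply, Finset.sum_eq_single σ, map_sum, LinearMap.sum_apply,
      Finset.sum_eq_single i] at h1
    · rw [map_smul, LinearMap.smul_apply] at h1
      have h2 : P.ψ (FrmL_v F x z (true, σ, i)) (FrmL_d F σ.1 i) = 1 := by
        show P.ψ (F.e σ.1 i) (FrmL_d F σ.1 i) = 1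
        rw [FrmL_dual F, if_pos rfl]
      rw [h2, smul_eq_mul, mul_one] at h1
      exact h1
    · intro b _ hb
      rw [map_smul, LinearMap.smul_apply]
      show g (true, σ, b) • P.ψ (F.e σ.1 b) (FrmL_d F σ.1 i) = 0
      rw [FrmL_dual F, if_neg hb, smul_zero]
    · intro hi
      exact absurd (Finset.mem_univ _) hi
    · intro τ _ hτ
      rw [map_sum, LinearMap.sum_apply]
      refine Finset.sum_eq_zero fun b _ => ?_
      rw [map_smul, LinearMap.smul_apply]
      show g (true, τ, b) • P.ψ (F.e τ.1 b) (FrmL_d F σ.1 i) = 0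
      rw [FrmL_off F (fun h => hτ (Subtype.ext h)), smul_zero]
    · intro hi
      exact absurd (Finset.mem_univ _) hi
  rintro ⟨b | b, σ, i⟩
  · exact hf σ i
  · exact ht σ i

private theorem FrmL_card (F' : UF P K m) (hx : ∀ σ : K →+* ℂ, σ x = z ∨ σ x = -z) :
    Fintype.card (Bool × {σ : K →+* ℂ // σ x = z} × Fin m) = finrank ℂ (κ → ℂ) := by
  classical
  rw [finrank_eq_card_basis F'.eb, Fintype.card_prod, Fintype.card_prod, Fintype.card_prod,
    ← mul_assoc, ← Fintype.card_prod]
  congr 1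
  refine Fintype.card_congr (Equiv.ofBijective
    (fun b : Bool × {σ : K →+* ℂ // σ x = z} =>
      if b.1 then b.2.1 else ComplexEmbedding.conjugate b.2.1) ⟨?_, ?_⟩)
  · rintro ⟨b | b, σ⟩ ⟨b' | b', τ⟩ hb
    · simp only [Bool.false_eq_true, if_false] at hb
      rw [Subtype.ext (FrmL_cinj hb)]
    · simp only [Bool.false_eq_true, if_false, if_true] at hb
      exact absurd hb.symm (FrmL_nc hc hz σ.2 τ.2)
    · simp only [Bool.false_eq_true, if_false, if_true] at hb
      exact absurd hb (FrmL_nc hc hz τ.2 σ.2)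
    · simp only [if_true] at hb
      rw [Subtype.ext hb]
  · intro τ
    rcases hx τ with h3 | h3
    · exact ⟨(true, ⟨τ, h3⟩), by simp⟩
    · refine ⟨(false, ⟨ComplexEmbedding.conjugate τ, by rw [hc, h3, neg_neg]⟩), ?_⟩
      simp only [Bool.false_eq_true, if_false]
      refine RingHom.ext fun y => ?_
      rw [ComplexEmbedding.conjugate_coe_eq, ComplexEmbedding.conjugate_coe_eq,
        Complex.conj_conj]

private theorem FrmL_main (hx : ∀ σ : K →+* ℂ, σ x = z ∨ σ x = -z) :
    ∃ e : Basis (Bool × {σ : K →+* ℂ // σ x = z} × Fin m) ℂ (κ → ℂ),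
    (∀ σ j, e (true, σ, j) = F.e σ.1 j) ∧
    ∀ (X : Module.End ℂ (κ → ℂ)) (c : ℂ), F.Comm X →
    (∀ u v, P.ψ (X u) v + P.ψ u (X v) = c * P.ψ u v) →
    (∀ σ j, X (e (true, σ, j)) = ∑ i, ent F σ.1 X i j • e (true, σ, i)) ∧
    ∀ σ i, X (e (false, σ, i)) = c • e (false, σ, i) - ∑ j, ent F σ.1 X i j • e (false, σ, j) := by
  classical
  have hli := FrmL_li F hc hz
  have hsp := hli.span_eq_top_of_card_eq_finrank' (FrmL_card hc hz F hx)
  let e : Basis (Bool × {σ : K →+* ℂ // σ x = z} × Fin m) ℂ (κ → ℂ) :=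
    Basis.mk hli (le_of_eq hsp.symm)
  have he : ∀ p, e p = FrmL_v F x z p := fun p => Basis.mk_apply _ _ p
  have het : ∀ σ j, e (true, σ, j) = F.e σ.1 j := fun σ j => he _
  have hef : ∀ σ j, e (false, σ, j) = FrmL_d F σ.1 j := fun σ j => he _
  refine ⟨e, het, ?_⟩
  intro X c hX hψ
  have h1 : ∀ σ j, X (e (true, σ, j)) = ∑ i, ent F σ.1 X i j • e (true, σ, i) := by
    intro σ j
    rw [het, ent_act F σ.1 X hX]
    refine Finset.sum_congr rfl fun i _ => ?_
    rw [het]
  refine ⟨h1, ?_⟩
  intro σ i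
  rw [← sub_eq_zero]
  apply P.hψnd
  intro w
  rw [P.hψalt, neg_eq_zero]
  set d := X (e (false, σ, i)) -
    (c • e (false, σ, i) - ∑ j, ent F σ.1 X i j • e (false, σ, j)) with hd
  have hdy : ∀ y, F.ρ y d = ComplexEmbedding.conjugate σ.1 y • d := by
    intro y
    have e1 : F.ρ y (X (e (false, σ, i))) =
        ComplexEmbedding.conjugate σ.1 y • X (e (false, σ, i)) := by
      rw [← hX, hef, FrmL_eig, map_smul]
    have e2 : ∀ j, F.ρ y (e (false, σ, j)) =
        ComplexEmbedding.conjugate σ.1 y • e (false, σ, j) := fun j => by rw [hef, FrmL_eig]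
    rw [hd, map_sub, map_sub, map_smul, map_sum, e1, e2, smul_sub, smul_sub,
      Finset.smul_sum, smul_comm c]
    congr 2
    refine Finset.sum_congr rfl fun j _ => ?_
    rw [map_smul, e2, smul_comm]
  have hw : w ∈ Submodule.span ℂ (Set.range e) := by rw [e.span_eq]; trivial
  induction hw using Submodule.span_induction with
  | mem u hu =>
    obtain ⟨⟨b, τ, a⟩, rfl⟩ := hu
    cases b with
    | false =>
      rw [hef]
      exact FrmL_ff F hc hz τ.2 σ.2 a d hdy
    | true =>
      by_cases hτ : τ = σ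
      · subst hτ
        have hψe : ∀ j, P.ψ (e (true, τ, a)) (e (false, τ, j)) = if a = j then 1 else 0 := by
          intro j
          rw [het, hef]
          exact FrmL_dual F τ.1 a j
        have h3 := hψ (e (true, τ, a)) (e (false, τ, i))
        rw [h1 τ a, map_sum, LinearMap.sum_apply, Finset.sum_eq_single i] at h3
        · rw [map_smul, LinearMap.smul_apply] at h3
          have h4 : P.ψ (e (true, τ, i)) (e (false, τ, i)) = 1 := by
            rw [het, hef, FrmL_dual F, if_pos rfl]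
          rw [h4, smul_eq_mul, mul_one] at h3
          rw [hd, map_sub, map_sub, map_smul, map_sum, smul_eq_mul]
          have h5 : ∑ j, P.ψ (e (true, τ, a)) (ent F τ.1 X i j • e (false, τ, j)) =
              ent F τ.1 X i a := by
            rw [Finset.sum_eq_single a]
            · rw [map_smul, hψe, if_pos rfl, smul_eq_mul, mul_one]
            · intro b _ hb
              rw [map_smul, hψe, if_neg (Ne.symm hb), smul_zero]
            · intro hb
              exact absurd (Finset.mem_univ _) hb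
          rw [h5]
          linear_combination h3
        · intro b _ hb
          rw [map_smul, LinearMap.smul_apply]
          have h4 : P.ψ (e (true, τ, b)) (e (false, τ, i)) = 0 := by
            rw [het, hef, FrmL_dual F, if_neg hb]
          rw [h4, smul_zero]
        · intro hb
          exact absurd (Finset.mem_univ _) hb
      · rw [het]
        exact FrmL_iso F τ.1 _ (fun h => hτ (Subtype.ext (FrmL_cinj h)).symm) _ _
          (fun y => F.rho_e y τ.1 a) hdy
  | zero => rw [map_zero, LinearMap.zero_apply]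
  | add u v _ _ hu hv => rw [map_add, LinearMap.add_apply, hu, hv, add_zero]
  | smul t u _ hu => rw [map_smul, LinearMap.smul_apply, hu, smul_zero]

end frm

theorem thm_FrmL : St_FrmL := by
  intro A d J z L _ _ m F x σ₀ hk hz h
  have hd : (0 : ℝ) < (d : ℝ) := by exact_mod_cast hk.pos
  have hz0 : z ≠ 0 := by
    rintro rfl
    have h1 : (d : ℂ) = 0 := by linear_combination hz
    exact hk.pos.ne' (by exact_mod_cast h1)
  have hzc : starRingEnd ℂ z = -z := by
    have h1 : (z ^ 2).re = -(d : ℝ) := by rw [hz]; simp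
    have h2 : (z ^ 2).im = 0 := by rw [hz]; simp
    rw [pow_two, Complex.mul_re] at h1
    rw [pow_two, Complex.mul_im] at h2
    have h3 : z.re * z.im = 0 := by linarith
    have h4 : z.re = 0 := by
      rcases mul_eq_zero.1 h3 with h4 | h4
      · exact h4
      · rw [h4] at h1
        nlinarith [mul_self_nonneg z.re]
    apply Complex.ext
    · rw [Complex.conj_re, Complex.neg_re, h4, neg_zero]
    · rw [Complex.conj_im, Complex.neg_im]
  have hm : 0 < m := by
    rcases Nat.eq_zero_or_pos m with h0 | h0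
    · subst h0
      exfalso
      have hV : ∀ v : A.H1, v = 0 := fun v => by
        have h1 := F.hsum v
        simp only [Finset.univ_eq_empty, Finset.sum_empty, Finset.sum_const_zero] at h1
        exact h1
      have h1 := h.one
      have h2 : Submodule.span ℂ {v : A.H1 | (∀ y, F.ρ y v = σ₀ y • v) ∧ A.IsFil v} = ⊥ := by
        rw [eq_bot_iff]
        intro v _
        rw [Submodule.mem_bot]
        exact hV v
      rw [h2, finrank_bot] at h1
      exact zero_ne_one h1
    · exact h0
  have hx : ∀ σ : L →+* ℂ, σ x = z ∨ σ x = -z := by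
    intro σ
    have h1 : F.ρ x (F.ρ x (F.e σ ⟨0, hm⟩)) = (-(d : ℂ)) • F.e σ ⟨0, hm⟩ := by
      rw [h.act, h.act]
      exact hk.sq _
    rw [F.rho_e, map_smul, F.rho_e, smul_smul] at h1
    have hne : F.e σ ⟨0, hm⟩ ≠ 0 := F.eb.ne_zero _
    have h2 : σ x * σ x = -(d : ℂ) := by
      have h3 := sub_eq_zero.2 h1
      rw [← sub_smul, smul_eq_zero] at h3
      exact sub_eq_zero.1 (h3.resolve_right hne)
    have h4 : (σ x - z) * (σ x + z) = 0 := by linear_combination h2 - hz
    rcases mul_eq_zero.1 h4 with h5 | h5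
    · exact Or.inl (sub_eq_zero.1 h5)
    · exact Or.inr (eq_neg_of_add_eq_zero_left h5)
  have hc : ∀ σ : L →+* ℂ, ComplexEmbedding.conjugate σ x = -σ x := by
    intro σ
    rw [ComplexEmbedding.conjugate_coe_eq]
    rcases hx σ with h1 | h1
    · rw [h1, hzc]
    · rw [h1, map_neg, hzc]
  exact FrmL_main F hc hz0 hx

end BSM
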