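import Pool.Agent.BSM.St

/-!
# BSM, FullL: all matrices occur
-/

set_option autoImplicit false

namespace BSM

open Module Matrix NumberField Pool.Agent.Helper7
open Pool.Agent.GPC (AbVar Form IsGrothendieck IsDivisorial)
open Pool.Agent.Ball
open Pool.Agent.Helper8.D (ent ent_mul)
open PSQ (W Inv BetR DRA)

/-- the symmetries with the factor zero -/
noncomputable def FullL_sub {κ : Type} [Fintype κ] [DecidableEq κ] {ϖ : ℂ} (P : PData κ ϖ)
    {k : ℕ} (α : MultilinearMap ℂ (fun _ : Fin (2 * k) => W κ 1) ℂ) :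
    Submodule ℂ (Module.End ℂ (κ → ℂ)) where
  carrier := {X | Inv P 1 k α X 0}
  zero_mem' := by
    have h := IsInv.zero (fun _ : Unit => 1) (fun _ => P) α
    exact h
  add_mem' := by
    intro X Y hX hY
    have h := IsInv.add (fun _ : Unit => 1) (fun _ => P) α hX hY
    have e : ((fun _ : Unit => X + Y, 0) : GG (fun _ : Unit => κ)) =
        ((fun _ => X, 0) : GG (fun _ : Unit => κ)) + (fun _ => Y, 0) :=
      Prod.ext rfl (add_zero 0).symm
    show IsInv _ _ _ _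
    rw [e]
    exact h
  smul_mem' := by
    intro c X hX
    have h := IsInv.smul (fun _ : Unit => 1) (fun _ => P) α c hX
    have e : ((fun _ : Unit => c • X, 0) : GG (fun _ : Unit => κ)) =
        c • ((fun _ => X, 0) : GG (fun _ : Unit => κ)) :=
      Prod.ext rfl (smul_zero c).symm
    show IsInv _ _ _ _
    rw [e]
    exact h

theorem thm_FullL (h1 : St_SlL) (h2 : St_CenL) (h3 : St_CMat) : St_FullL := by
  classical
  intro A d J z L _ _ m F x σ₀ C k α hD Y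
  have hz0 : z ≠ 0 := by
    rintro rfl
    have h4 := hD.z2
    have h5 : (d : ℂ) ≠ 0 := by exact_mod_cast hD.ks.pos.ne'
    apply h5
    rw [← neg_eq_zero, ← h4]
    ring
  obtain ⟨-, -, -, -, -, hconj⟩ := h3 A d J z L m F x σ₀ C hD.ks hD.z2 hD.lf hD.hop
  have h2' := h2 A d J z L m F x σ₀ C k α hD
  choose! X0 hX0 hX0s hX0t using h2'
  set S : Finset (L →+* ℂ) := Finset.univ.filter (fun σ => σ x = z) with hS
  have hmem : ∀ σ : L →+* ℂ, σ ∈ S ↔ σ x = z := fun σ => by simp [hS]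
  obtain ⟨X1, hX1⟩ : ∃ X1 : Module.End ℂ (Fin A.g ⊕ Fin A.g → ℂ),
    X1 = ∑ σ ∈ S, (Y σ).trace • X0 σ := ⟨_, rfl⟩
  have hX1i : X1 ∈ FullL_sub (pData A) α := by
    rw [hX1]
    exact Submodule.sum_mem _ fun σ hσ => Submodule.smul_mem _ _ (hX0 σ ((hmem σ).mp hσ))
  have hX1t : ∀ τ : L →+* ℂ, τ x = z → (ent F τ X1).trace = (Y τ).trace := by
    intro τ hτ
    rw [hX1, map_sum, Matrix.trace_sum, Finset.sum_eq_single τ]
    · rw [map_smul, Matrix.trace_smul, hX0s τ hτ, smul_eq_mul, mul_one]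
    · intro σ hσ hne
      rw [map_smul, Matrix.trace_smul, hX0t σ ((hmem σ).mp hσ) τ hτ hne.symm, smul_zero]
    · intro h
      exact absurd ((hmem τ).mpr hτ) h
  have hZ : ∀ σ : L →+* ℂ, σ x = z → ∃ Z : Module.End ℂ (Fin A.g ⊕ Fin A.g → ℂ),
      Z ∈ FullL_sub (pData A) α ∧ ent F σ Z = Y σ - ent F σ X1 ∧
        ∀ τ : L →+* ℂ, τ x = z → τ ≠ σ → ent F τ Z = 0 := by
    intro σ hσ
    obtain ⟨Z, hZi, hZ2, hZe, hZ0⟩ := h1 A d J z L m F x σ₀ C k α hD σ (Y σ - ent F σ X1) (by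
      rw [Matrix.trace_sub, hX1t σ hσ, sub_self])
    refine ⟨Z.1 (), ?_, hZe, fun τ hτ hne => hZ0 τ hne ?_⟩
    · have e : ((fun _ : Unit => Z.1 (), 0) : GG (fun _ : Unit => Fin A.g ⊕ Fin A.g)) = Z :=
        Prod.ext rfl hZ2.symm
      show IsInv _ _ _ _
      rw [e]
      exact hZi
    · rintro rfl
      rw [hconj σ, hσ] at hτ
      have h6 : (2 : ℂ) * z = 0 := by linear_combination -hτ
      rcases mul_eq_zero.mp h6 with h7 | h7
      · exact two_ne_zero h7
      · exact hz0 h7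
  choose! Z hZi hZe hZ0 using hZ
  refine ⟨X1 + ∑ σ ∈ S, Z σ, ?_, ?_⟩
  · have h8 : X1 + ∑ σ ∈ S, Z σ ∈ FullL_sub (pData A) α :=
      Submodule.add_mem _ hX1i (Submodule.sum_mem _ fun σ hσ => hZi σ ((hmem σ).mp hσ))
    exact h8
  · intro τ hτ
    rw [map_add, map_sum, Finset.sum_eq_single τ, hZe τ hτ, add_sub_cancel]
    · intro σ hσ hne
      exact hZ0 σ ((hmem σ).mp hσ) τ hτ hne.symm
    · intro h
      exact absurd ((hmem τ).mpr hτ) h

end BSM
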