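import Pool.Agent.BSM.St

/-!
# BSM, HCo: the Hodge operator commutes with the endomorphisms and respects the polarisation
-/

set_option autoImplicit false

namespace BSM

open Module Matrix NumberField Pool.Agent.Helper7
open Pool.Agent.GPC (AbVar Form IsGrothendieck IsDivisorial)
open PSQ (W Inv BetR DRA)

lemma HCo_apply {A : AbVar} {C : Module.End ℂ A.H1} (hC : IsHop A C) {u u' : A.H1}
    (hu : A.IsFil u) (hu' : A.IsFil u') : C (u + cB (pData A) u') = cB (pData A) u' := by
  rw [map_add, hC.fil u hu, hC.conj u' hu', zero_add]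

theorem thm_HCo : St_HCo := by
  intro A C hC
  constructor
  · intro f hf v
    obtain ⟨u, u', hu, hu', rfl⟩ := exists_hodge A v
    have hE := isEnd_of_isDRB A f hf
    have h1 : f (cB (pData A) u') = cB (pData A) (f u') :=
      (cB_comm (pData A) f (fun v hv => hf.rat v hv) u').symm
    rw [HCo_apply hC hu hu', map_add, h1, HCo_apply hC (hE.hodge u hu) (hE.hodge u' hu')]
  · intro u v
    obtain ⟨a, a', ha, ha', rfl⟩ := exists_hodge A u
    obtain ⟨b, b', hb, hb', rfl⟩ := exists_hodge A v
    have h1 := fil_isotropic A ha hb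
    have h2 : (pData A).ψ (cB (pData A) a') (cB (pData A) b') = 0 := by
      rw [psi_cB, fil_isotropic A ha' hb', map_zero, neg_zero]
    rw [HCo_apply hC ha ha', HCo_apply hC hb hb']
    simp only [map_add, LinearMap.add_apply, h1, h2]
    ring

end BSM
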