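import Pool.Agent.BSM.St

/-!
# BSM [HFm]: a Hodge class of degree `2 k` has weight `k` for the Hodge operator
-/

set_option autoImplicit false

namespace BSM

open scoped ComplexConjugate
open Module Matrix NumberField Pool.Agent.Helper7
open Pool.Agent.GPC (AbVar Form IsGrothendieck IsDivisorial)

/-- complex conjugation of a rational class -/
theorem HFm_conj (A : AbVar) (k : ℕ) {n : ℕ} (α : A.Class n) (h : A.IsRational k α)
    (v : Fin n → A.H1) :
    conj (α v) = (-1) ^ k * α (fun r => cB (pData A) (v r)) := by
  set b := (pData A).bB with hb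
  have hbB : ∀ f : Fin n → (pData A).ι, conj (α (fun r => b (f r))) =
      (-1) ^ k * α (fun r => b (f r)) := by
    intro f
    have hmem : ∀ r, A.IsBetti (b (f r)) := by
      intro r
      rw [isBetti_iff, ← pData_Q]
      exact (pData A).basis_mem (f r)
    obtain ⟨c, hc⟩ := h (fun r => b (f r)) hmem
    rw [hc, map_mul, map_pow, map_mul, map_mul, Complex.conj_I, Complex.conj_ofReal, map_ratCast,
      map_ofNat]
    have h1 : (2 * (Real.pi : ℂ) * -Complex.I) = (-1) * (2 * Real.pi * Complex.I) := by ring
    rw [h1, mul_pow]
    ring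
  have hexp : ∀ c : Fin n → (pData A).ι → ℂ, α (fun r => ∑ i, c r i • b i) =
      ∑ f : Fin n → (pData A).ι, (∏ r, c r (f r)) * α (fun r => b (f r)) := by
    intro c
    have h1 := MultilinearMap.map_sum (α : MultilinearMap ℂ (fun _ : Fin n => A.H1) ℂ)
      (fun r i => c r i • b i)
    rw [AlternatingMap.coe_multilinearMap] at h1
    rw [h1]
    refine Finset.sum_congr rfl fun f _ => ?_
    have h2 := MultilinearMap.map_smul_univ (α : MultilinearMap ℂ (fun _ : Fin n => A.H1) ℂ)
      (fun r => c r (f r)) (fun r => b (f r))
    rw [AlternatingMap.coe_multilinearMap, smul_eq_mul] at h2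
    exact h2
  have hv : v = fun r => ∑ i, b.repr (v r) i • b i := by
    funext r
    exact (b.sum_repr (v r)).symm
  have hcv : (fun r => cB (pData A) (v r)) = fun r => ∑ i, conj (b.repr (v r) i) • b i := rfl
  rw [hcv, hexp]
  conv_lhs => rw [hv]
  rw [hexp, map_sum, Finset.mul_sum]
  refine Finset.sum_congr rfl fun f _ => ?_
  rw [map_mul, map_prod, hbB]
  ring

/-- HFm. -/
theorem thm_HFm : St_HFm := by
  intro A C k α hC hr hF v
  classical
  -- the multilinear map
  set G : MultilinearMap ℂ (fun _ : Fin (2 * k) => A.H1) ℂ :=
    (∑ r, (α : MultilinearMap ℂ (fun _ : Fin (2 * k) => A.H1) ℂ).compLinearMap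
      (fun i => if i = r then C else LinearMap.id)) -
      (k : ℂ) • (α : MultilinearMap ℂ (fun _ : Fin (2 * k) => A.H1) ℂ) with hG
  have hGv : ∀ w : Fin (2 * k) → A.H1,
      G w = ∑ r, α (Function.update w r (C (w r))) - (k : ℂ) * α w := by
    intro w
    rw [hG, _root_.sub_apply, _root_.sum_apply, _root_.smul_apply,
      smul_eq_mul, AlternatingMap.coe_multilinearMap]
    congr 1
    refine Finset.sum_congr rfl fun r _ => ?_
    rw [MultilinearMap.compLinearMap_apply, AlternatingMap.coe_multilinearMap]
    congr 1
    funext i
    by_cases hi : i = r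
    · subst hi
      rw [if_pos rfl, Function.update_self]
    · rw [if_neg hi, Function.update_of_ne hi]
      rfl
  have key : G v = 0 := by
    choose u u' hu hu' huu using fun r => exists_hodge A (v r)
    have hv : v = u + fun r => cB (pData A) (u' r) := by
      funext r
      exact huu r
    rw [hv, MultilinearMap.map_add_univ]
    refine Finset.sum_eq_zero fun s _ => ?_
    set w : Fin (2 * k) → A.H1 := s.piecewise u fun r => cB (pData A) (u' r) with hw
    have hin : ∀ r ∈ s, w r = u r := fun r hr => Finset.piecewise_eq_of_mem _ _ _ hr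
    have hout : ∀ r, r ∉ s → w r = cB (pData A) (u' r) := fun r hr =>
      Finset.piecewise_eq_of_notMem _ _ _ hr
    rw [hGv]
    have hsum : ∑ r, α (Function.update w r (C (w r))) = (sᶜ.card : ℂ) * α w := by
      have h1 : ∀ r, α (Function.update w r (C (w r))) = if r ∈ sᶜ then α w else 0 := by
        intro r
        by_cases hrs : r ∈ s
        · rw [if_neg (by simpa using hrs), hin r hrs, hC.fil _ (hu r)]
          exact α.map_update_zero w r
        · rw [if_pos (by simpa using hrs)]
          have h2 : C (w r) = w r := by
            rw [hout r hrs]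
            exact hC.conj _ (hu' r)
          rw [h2, Function.update_eq_self]
      rw [Finset.sum_congr rfl fun r _ => h1 r, Finset.sum_ite_mem, Finset.univ_inter,
        Finset.sum_const, nsmul_eq_mul]
    rw [hsum]
    have hcard : s.card + sᶜ.card = 2 * k := by
      rw [Finset.card_add_card_compl, Fintype.card_fin]
    rcases lt_trichotomy s.card k with hlt | heq | hgt
    · have h0 : α w = 0 := by
        have h3 := HFm_conj A k α hr w
        have h4 : α (fun r => cB (pData A) (w r)) = 0 := by
          refine hF _ ⟨sᶜ, by omega, fun r hr => ?_⟩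
          rw [hout r (by simpa using hr), cB_cB]
          exact hu' r
        rw [h4, mul_zero] at h3
        exact (map_eq_zero (starRingEnd ℂ)).mp h3
      rw [h0, mul_zero, mul_zero, sub_zero]
    · have h5 : sᶜ.card = k := by omega
      rw [h5, sub_self]
    · have h0 : α w = 0 := hF _ ⟨s, hgt, fun r hr => by
        rw [hin r hr]
        exact hu r⟩
      rw [h0, mul_zero, mul_zero, sub_zero]
  rw [hGv] at key
  exact sub_eq_zero.mp key

end BSM
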