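import Pool.Agent.BSM.St

/-!
# BSM, HInv: a Hodge class is invariant under the Hodge operator
-/

set_option autoImplicit false

namespace BSM

open Module Matrix NumberField Pool.Agent.Helper7
open Pool.Agent.GPC (AbVar Form IsGrothendieck IsDivisorial)
open PSQ (W Inv BetR DRA)

theorem thm_HInv (h1 : St_HCo) (h2 : St_HFm) : St_HInv := by
  intro A C k α hC hR hF
  obtain ⟨hc, hp⟩ := h1 A C hC
  refine ⟨fun _ _ f hf v => hc f hf v, fun _ u v => ?_, ?_⟩
  · rw [one_mul]
    exact hp u v
  · refine MultilinearMap.ext fun v => ?_
    rw [actForm_apply]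
    have h3 := h2 A C k α hC hR hF fun r => (Pool.Agent.Helper83.Ball.one A).symm (v r)
    show ∑ r, t1 A α (Function.update v r (lift (fun _ : Unit => 1) (fun _ => C) (v r))) =
      (k * 1 : ℂ) * t1 A α v
    rw [mul_one]
    refine Eq.trans (Finset.sum_congr rfl fun r _ => ?_) h3
    show α (fun s => (Pool.Agent.Helper83.Ball.one A).symm (Function.update v r _ s)) = _
    congr 1
    funext s
    by_cases hs : s = r
    · subst hs
      simp only [Function.update_self]
      rfl
    · simp only [Function.update_of_ne hs]

end BSM
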