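import Pool.Agent.BSM.St

/-!
# BSM: the Hodge operator exists (helper87)
-/

set_option autoImplicit false

namespace BSM

open Module Matrix NumberField Pool.Agent.Helper7
open Pool.Agent.GPC (AbVar Form IsGrothendieck IsDivisorial)

/-- the step `F^0` of the Hodge filtration -/
private def Hop_F (A : AbVar) : Submodule ℂ A.H1 where
  carrier := {v | A.IsFil v}
  add_mem' := fun {u v} hu hv a => by rw [Pi.add_apply, hu a, hv a, add_zero]
  zero_mem' := fun a => rfl
  smul_mem' := fun c v hv a => by rw [Pi.smul_apply, hv a, smul_zero]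

/-- the conjugate of the step `F^0` of the Hodge filtration -/
private def Hop_G (A : AbVar) : Submodule ℂ A.H1 where
  carrier := {v | A.IsFil (cB (pData A) v)}
  add_mem' := fun {u v} hu hv => by
    change A.IsFil (cB (pData A) (u + v))
    rw [cB_add]
    exact (Hop_F A).add_mem hu hv
  zero_mem' := by
    change A.IsFil (cB (pData A) 0)
    rw [cB_zero]
    exact (Hop_F A).zero_mem
  smul_mem' := fun c v hv => by
    change A.IsFil (cB (pData A) (c • v))
    rw [cB_smul]
    exact (Hop_F A).smul_mem _ hv

private theorem Hop_compl (A : AbVar) : IsCompl (Hop_G A) (Hop_F A) := by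
  constructor
  · rw [Submodule.disjoint_def]
    intro v h1 h2
    exact fil_inter A h2 h1
  · rw [codisjoint_iff, eq_top_iff]
    intro v _
    obtain ⟨u, u', hu, hu', e⟩ := exists_hodge A v
    rw [e, add_comm]
    refine Submodule.add_mem_sup ?_ hu
    change A.IsFil (cB (pData A) (cB (pData A) u'))
    rw [cB_cB]
    exact hu'

/-- Hop. -/
theorem thm_Hop : St_Hop := by
  intro A
  refine ⟨(Hop_G A).projection (Hop_F A) (Hop_compl A), ⟨fun v hv => ?_, fun v hv => ?_⟩⟩
  · exact Submodule.projection_apply_of_mem_right (Hop_compl A) hv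
  · exact Submodule.projection_apply_of_mem_left (Hop_compl A) (by
      change A.IsFil (cB (pData A) (cB (pData A) v))
      rw [cB_cB]
      exact hv)

end BSM
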