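import Pool.Agent.BSM.St

/-!
# BSM, SlL: concentrated symmetries
-/

set_option autoImplicit false

namespace BSM

open Module Matrix NumberField Pool.Agent.Helper7
open Pool.Agent.GPC (AbVar Form IsGrothendieck IsDivisorial)
open Pool.Agent.Ball
open Pool.Agent.Helper8.D (ent ent_mul)
open PSQ (W Inv BetR DRA)

theorem thm_SlL (h1 : St_CMat) (h2 : St_Alg) : St_SlL := by
  classical
  intro A d J z L _ _ m F x σ₀ C k α hD σ y hy
  obtain ⟨hc, hone, hzero, ⟨u, v, huv, hent⟩, hemb, -⟩ :=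
    h1 A d J z L m F x σ₀ C hD.ks hD.z2 hD.lf hD.hop
  have hϖ : (2 * Real.pi * Complex.I : ℂ) ≠ 0 := Complex.two_pi_I_ne_zero
  have hB := hD.bet
  have hA := hD.alg
  have key : ∀ M ∈ gAt (fun _ : Unit => 1) (fun _ : Unit => pData A) α () F σ₀,
      M * Matrix.vecMulVec u v - Matrix.vecMulVec u v * M ∈
        cAt (fun _ : Unit => 1) (fun _ : Unit => pData A) α () F σ₀ := by
    rintro _ ⟨X, hX, hX2, rfl⟩
    have hC : IsInv (fun _ : Unit => 1) (fun _ : Unit => pData A) α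
      ((fun _ => C, 1) : GG (fun _ : Unit => Fin A.g ⊕ Fin A.g)) := hD.inv
    have hH := Pool.Agent.Helper98.Ball.isInv_homothety (fun _ : Unit => 1) (fun _ : Unit => pData A) α
    obtain ⟨X0, hX0⟩ : ∃ X0 : GG (fun _ : Unit => Fin A.g ⊕ Fin A.g), X0 =
      (fun _ => C, 1) + (-1 : ℂ) • (fun _ => (1 / 2 : ℂ) • (1 : Module.End ℂ _), 1) := ⟨_, rfl⟩
    have hX0i : IsInv (fun _ : Unit => 1) (fun _ : Unit => pData A) α X0 := by
      rw [hX0]
      exact hC.add _ _ _ (hH.smul _ _ _ (-1))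
    have hX02 : X0.2 = 0 := by
      rw [hX0]
      show (1 : ℂ) + (-1 : ℂ) * 1 = 0
      ring
    have hX01 : X0.1 () = C + (-1 : ℂ) • ((1 / 2 : ℂ) • (1 : Module.End ℂ _)) := by
      rw [hX0]
      rfl
    have hcX : F.Comm (X.1 ()) := F.comm_of_isInv _ _ α () hX
    have hY : ∀ τ : L →+* ℂ, ent F τ ((X0 * X - X * X0).1 ()) =
        ent F τ C * ent F τ (X.1 ()) - ent F τ (X.1 ()) * ent F τ C := by
      intro τ
      rw [← ent_mul F τ _ _ hcX, ← ent_mul F τ _ _ hc, ← map_sub]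
      congr 1
      show X0.1 () * X.1 () - X.1 () * X0.1 () = _
      rw [hX01, add_mul, mul_add, smul_mul_assoc, smul_mul_assoc, one_mul, mul_smul_comm,
        mul_smul_comm, mul_one]
      abel
    refine ⟨X0 * X - X * X0, hX0i.bracket _ _ _ hX, ?_, ?_, ?_⟩
    · show X0.2 * X.2 - X.2 * X0.2 = 0
      ring
    · rw [hY, hent]
      noncomm_ring
    · intro τ ht1 ht2
      rw [hY]
      rcases hemb τ with h | h
      · rw [hone τ h ht1, one_mul, mul_one, sub_self]
      · rw [hzero τ h ht2, zero_mul, mul_zero, sub_self]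
  have hall := h2 m (gAt (fun _ : Unit => 1) (fun _ : Unit => pData A) α () F σ₀)
    (cAt (fun _ : Unit => 1) (fun _ : Unit => pData A) α () F σ₀) u v
    (cAt_le (fun _ : Unit => 1) (fun _ : Unit => pData A) α () F σ₀)
    (cAt_br (fun _ : Unit => 1) (fun _ : Unit => pData A) α () F σ₀)
    (gAt_irr (fun _ : Unit => 1) (fun _ : Unit => pData A) α () F hϖ hB hA σ₀) huv key
  obtain ⟨τ, hτ⟩ := Pool.Agent.Helper84.exists_aut σ₀ σ
  have hy' : (y.map τ.symm).trace = 0 := by
    have h3 : (y.map τ.symm).trace = τ.symm y.trace := by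
      simp only [Matrix.trace, Matrix.diag, Matrix.map_apply, map_sum]
    rw [h3, hy, map_zero]
  have h4 := cAt_tw (fun _ : Unit => 1) (fun _ : Unit => pData A) α () F hϖ hB τ σ₀ _
    (hall _ hy')
  rw [hτ] at h4
  have h5 : (y.map τ.symm).map τ = y := by
    ext i j
    exact τ.apply_symm_apply _
  rw [h5] at h4
  exact h4

end BSM
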