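import Pool.Agent.BSM.CcL
import Pool.Agent.Helper8.B.Main2
import Pool.Agent.Helper7.AFT.Bal

/-!
# BSM, [UFr]: the frame
-/

set_option autoImplicit false

namespace BSM

open Module Matrix NumberField Pool.Agent.Helper7
open Pool.Agent.GPC (AbVar Form IsGrothendieck IsDivisorial)
open scoped ComplexConjugate

theorem thm_UFr : St_UFr := by
  intro A d J z L _ _ R x σ₀ e hK hz hone hR hfull hRx hσx he hefil hJe hRe
  obtain ⟨cc, hcc, hros⟩ := thm_CcL A d J L R x hK hR hfull hRx ⟨e, he⟩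
  have hQ : ∀ y, ∀ v ∈ (pData A).Q, R y v ∈ (pData A).Q := fun y v hv => rho_Q A R hR y v hv
  obtain ⟨m, hm⟩ := CcL_deg (pData A) R hQ
  obtain ⟨lam, h1, h2, eb, h3⟩ := exists_Kbasis (pData A) R hQ m hm
  let F : UF (pData A) L m :=
    { ρ := R
      hρ := fun y => isDRB_of_isEnd A _ (hR y)
      cc := cc
      hcc := hcc
      hros := hros
      hcen := fun f hf hc => hfull f (isEnd_of_isDRB A f hf) fun v => by
        rw [← hRx, ← hRx]
        exact hc x v
      hnd := hnd_pData A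
      lam := lam
      lam_rat := h1
      gen := h2
      eb := eb
      heb := h3 }
  have hFR : ∀ y v, F.ρ y v = R y v := fun _ _ => rfl
  have hlin := hK.endo.linear
  -- vectors of the line
  have hline : ∀ v, J v = z • v → A.IsFil v → ∃ c : ℂ, v = c • e := by
    intro v hv1 hv2
    have hve : v ∈ A.filEigen J z := (Pool.Agent.Helper7.AFT.mem_filEigen hlin z v).mpr ⟨hv1, hv2⟩
    have hee : e ∈ A.filEigen J z :=
      (Pool.Agent.Helper7.AFT.mem_filEigen hlin z e).mpr ⟨hJe, hefil⟩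
    have hne : (⟨e, hee⟩ : A.filEigen J z) ≠ 0 := fun h => he (congrArg Subtype.val h)
    obtain ⟨c, hc⟩ := (finrank_eq_one_iff_of_nonzero' _ hne).mp hone ⟨v, hve⟩
    exact ⟨c, (congrArg Subtype.val hc).symm⟩
  have hact : ∀ c : ℂ, ∀ y, R y (c • e) = σ₀ y • (c • e) := by
    intro c y
    rw [map_smul, hRe, smul_comm]
  refine ⟨m, F, ?_⟩
  refine ⟨hRx, hσx, ?_, ?_⟩
  · have hset : {v : A.H1 | (∀ y, F.ρ y v = σ₀ y • v) ∧ A.IsFil v} =
        {v | J v = z • v ∧ A.IsFil v} := by
      ext v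
      constructor
      · rintro ⟨hv1, hv2⟩
        refine ⟨?_, hv2⟩
        rw [← hRx, ← hσx]
        exact hv1 x
      · rintro ⟨hv1, hv2⟩
        refine ⟨fun y => ?_, hv2⟩
        obtain ⟨c, rfl⟩ := hline v hv1 hv2
        exact hact c y
    rw [hset]
    exact hone
  · intro σ hσ hne v hv1 hv2
    by_contra hv0
    obtain ⟨c, rfl⟩ := hline v (by rw [← hRx, ← hσ]; exact hv1 x) hv2
    apply hne
    ext y
    have h4 : σ y • (c • e) = σ₀ y • (c • e) := by
      rw [← hact c y]
      exact (hv1 y).symm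
    exact smul_left_injective ℂ hv0 h4

end BSM
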