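import Pool.Agent.BTL.All
import Pool.Agent.DWG.All
import Pool.Agent.BSM.Adj
import Pool.Agent.BSM.Fld
import Pool.Agent.BSM.CcL
import Pool.Agent.BSM.UFr
import Pool.Agent.BSM.Hop
import Pool.Agent.BSM.HCo
import Pool.Agent.BSM.HFm
import Pool.Agent.BSM.HInv
import Pool.Agent.BSM.CMat
import Pool.Agent.BSM.Alg
import Pool.Agent.BSM.SlL
import Pool.Agent.BSM.CenL
import Pool.Agent.BSM.FullL
import Pool.Agent.BSM.FrmL
import Pool.Agent.BSM.AltT
import Pool.Agent.BSM.AltM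
import Pool.Agent.BSM.AltV
import Pool.Agent.BSM.AltW
import Pool.Agent.BSM.AltL
import Pool.Agent.BSM.FamL
import Pool.Agent.BSM.FinS

/-!
# BSM: assembly
-/

set_option autoImplicit false

namespace BSM

namespace All

theorem Adj_ : St_Adj := thm_Adj
theorem Fld_ : St_Fld := thm_Fld
theorem CcL_ : St_CcL := thm_CcL
theorem UFr_ : St_UFr := thm_UFr
theorem Hop_ : St_Hop := thm_Hop
theorem HCo_ : St_HCo := thm_HCo
theorem HFm_ : St_HFm := thm_HFm
theorem HInv_ : St_HInv := thm_HInv HCo_ HFm_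
theorem CMat_ : St_CMat := thm_CMat HCo_
theorem Alg_ : St_Alg := thm_Alg
theorem SlL_ : St_SlL := thm_SlL CMat_ Alg_
theorem CenL_ : St_CenL := thm_CenL CMat_
theorem FullL_ : St_FullL := thm_FullL SlL_ CenL_ CMat_
theorem FrmL_ : St_FrmL := thm_FrmL
theorem AltT_ : St_AltT := thm_AltT
theorem AltM_ : St_AltM := thm_AltM
theorem AltV_ : St_AltV := thm_AltV
theorem AltW_ : St_AltW := thm_AltW
theorem AltL_ : St_AltL := thm_AltL AltT_ AltM_ AltV_ AltW_
theorem FamL_ : St_FamL := thm_FamL FullL_ FrmL_ AltL_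
theorem FinS_ : St_FinS := thm_FinS Adj_ Fld_ UFr_ Hop_ HInv_ FamL_ DWG.All.FinG_ BTL.All.Fin_

end All

end BSM
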