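import Pool.Agent.BSM.St

/-!
# BSM: an invariant alternating form depends only on the number of pairs at each place
-/

set_option autoImplicit false

namespace BSM

open Module Matrix Pool.Agent.Helper7

section

variable {U : Type} [AddCommGroup U] [Module ℂ U] {S : Type} {p k : ℕ}

theorem AltM_lo (c : Fin k → S × Fin p) (a : Fin k) : sd c (lo a) = (true, c a) := by
  have h1 : (2 * (a : ℕ)) % 2 = 0 := by omega
  have h2 : (2 * (a : ℕ)) / 2 = a := by omega
  simp [sd, lo, h1, h2]

theorem AltM_hi (c : Fin k → S × Fin p) (a : Fin k) : sd c (hi a) = (false, c a) := by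
  have h2 : (2 * (a : ℕ) + 1) / 2 = a := by omega
  simp [sd, hi, h2]

/-- swapping two pairs -/
theorem AltM_swap (e : Basis (Bool × S × Fin p) ℂ U) (α : U [⋀^Fin (2 * k)]→ₗ[ℂ] ℂ)
    (c : Fin k → S × Fin p) (a b : Fin k) (hab : a ≠ b) :
    α (fun r => e (sd (c ∘ Equiv.swap a b) r)) = α (fun r => e (sd c r)) := by
  have hl : Function.Injective (lo : Fin k → Fin (2 * k)) := fun x y h => lo_inj h
  have hh : Function.Injective (hi : Fin k → Fin (2 * k)) := fun x y h => hi_inj h
  have e1 : (fun r => e (sd (c ∘ Equiv.swap a b) r)) =
      ((fun r => e (sd c r)) ∘ Equiv.swap (lo a) (lo b)) ∘ Equiv.swap (hi a) (hi b) := by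
    funext r
    obtain ⟨x, rfl | rfl⟩ := eq_lo_or_hi r
    · simp only [Function.comp_apply]
      rw [Equiv.swap_apply_of_ne_of_ne (lo_ne_hi _ _) (lo_ne_hi _ _), hl.swap_apply, AltM_lo,
        AltM_lo, Function.comp_apply]
    · simp only [Function.comp_apply]
      rw [hh.swap_apply, Equiv.swap_apply_of_ne_of_ne (lo_ne_hi _ _).symm (lo_ne_hi _ _).symm,
        AltM_hi, AltM_hi, Function.comp_apply]
  rw [e1, AlternatingMap.map_perm, AlternatingMap.map_perm,
    Equiv.Perm.sign_swap (fun h => hab (lo_inj h)), Equiv.Perm.sign_swap (fun h => hab (hi_inj h))]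
  simp

/-- permutations of the pairs -/
theorem AltM_perm (e : Basis (Bool × S × Fin p) ℂ U) (α : U [⋀^Fin (2 * k)]→ₗ[ℂ] ℂ)
    (c : Fin k → S × Fin p) (π : Equiv.Perm (Fin k)) :
    α (fun r => e (sd (c ∘ π) r)) = α (fun r => e (sd c r)) := by
  induction π using Equiv.Perm.swap_induction_on generalizing c with
  | one => rfl
  | swap_mul f x y hxy ih =>
    have e1 : c ∘ ⇑(Equiv.swap x y * f) = (c ∘ Equiv.swap x y) ∘ f := rfl
    rw [e1, ih, AltM_swap e α c x y hxy]

/-- the basic move -/
theorem AltM_move [Fintype S] [DecidableEq S] (e : Basis (Bool × S × Fin p) ℂ U)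
    (α : U [⋀^Fin (2 * k)]→ₗ[ℂ] ℂ) (hα : GlI e α) (c : Fin k → S × Fin p)
    (hc : Function.Injective c) (a : Fin k) (x : S × Fin p) (hx : ∀ b, c b ≠ x)
    (hs : (c a).1 = x.1) :
    α (fun r => e (sd (Function.update c a x) r)) = α (fun r => e (sd c r)) := by
  classical
  obtain ⟨s, i⟩ := x
  obtain ⟨j, hj⟩ : ∃ j, c a = (s, j) := ⟨(c a).2, Prod.ext hs rfl⟩
  let y : S → Matrix (Fin p) (Fin p) ℂ := fun s' i' j' =>
    if s' = s ∧ i' = i ∧ j' = j then 1 else 0
  let X : Module.End ℂ U := e.constr ℂ fun z =>
    if z.1 then ∑ i', y z.2.1 i' z.2.2 • e (true, z.2.1, i')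
    else -∑ j', y z.2.1 z.2.2 j' • e (false, z.2.1, j')
  have hX1 : ∀ s' j', X (e (true, s', j')) = ∑ i', y s' i' j' • e (true, s', i') := by
    intro s' j'
    simp only [X]
    rw [Basis.constr_basis]
    simp
  have hX2 : ∀ s' i', X (e (false, s', i')) = -∑ j', y s' i' j' • e (false, s', j') := by
    intro s' i'
    simp only [X]
    rw [Basis.constr_basis]
    simp
  have t1 : X (e (true, s, j)) = e (true, s, i) := by
    rw [hX1, Finset.sum_eq_single i]
    · simp [y]
    · intro b _ hb
      simp [y, hb]
    · intro h
      exact absurd (Finset.mem_univ _) h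
  have t2 : ∀ z : S × Fin p, z ≠ (s, j) → X (e (true, z)) = 0 := by
    rintro ⟨s', j'⟩ hz
    rw [hX1]
    refine Finset.sum_eq_zero fun i' _ => ?_
    have : ¬ (s' = s ∧ i' = i ∧ j' = j) := by
      rintro ⟨h1, _, h3⟩
      exact hz (by rw [h1, h3])
    simp only [y, if_neg this, zero_smul]
  have t3 : X (e (false, s, i)) = -e (false, s, j) := by
    rw [hX2, Finset.sum_eq_single j]
    · simp [y]
    · intro b _ hb
      simp [y, hb]
    · intro h
      exact absurd (Finset.mem_univ _) h
  have t4 : ∀ z : S × Fin p, z ≠ (s, i) → X (e (false, z)) = 0 := by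
    rintro ⟨s', i'⟩ hz
    rw [hX2]
    rw [neg_eq_zero]
    refine Finset.sum_eq_zero fun j' _ => ?_
    have : ¬ (s' = s ∧ i' = i ∧ j' = j) := by
      rintro ⟨h1, h2, _⟩
      exact hz (by rw [h1, h2])
    simp only [y, if_neg this, zero_smul]
  have key := hα y X hX1 hX2
    (Function.update (fun r => e (sd c r)) (hi a) (e (false, s, i)))
  rw [Fintype.sum_eq_add (lo a) (hi a) (lo_ne_hi a a)] at key
  · rw [update_hi_lo, AltM_lo, hj, t1, Function.update_self, t3, Function.update_idem,
      AlternatingMap.map_update_neg] at key
    have e1 : Function.update (Function.update (fun r => e (sd c r)) (hi a) (e (false, s, i)))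
        (lo a) (e (true, s, i)) = fun r => e (sd (Function.update c a (s, i)) r) := by
      funext r
      obtain ⟨b, rfl | rfl⟩ := eq_lo_or_hi r
      · rw [update_lo_lo, update_hi_lo, AltM_lo, AltM_lo]
        by_cases hb : b = a
        · subst hb
          rw [if_pos rfl, Function.update_self]
        · rw [if_neg hb, Function.update_of_ne hb]
      · rw [update_lo_hi, update_hi_hi, AltM_hi, AltM_hi]
        by_cases hb : b = a
        · subst hb
          rw [if_pos rfl, Function.update_self]
        · rw [if_neg hb, Function.update_of_ne hb]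
    have e2 : Function.update (fun r => e (sd c r)) (hi a) (e (false, s, j)) =
        fun r => e (sd c r) := by
      funext r
      by_cases hr : r = hi a
      · subst hr
        rw [Function.update_self, AltM_hi, hj]
      · rw [Function.update_of_ne hr]
    rw [e1, e2] at key
    linear_combination key
  · rintro r ⟨hr1, hr2⟩
    obtain ⟨b, rfl | rfl⟩ := eq_lo_or_hi r
    · have hb : b ≠ a := fun h => hr1 (by rw [h])
      rw [update_hi_lo, AltM_lo, t2 _ (fun h => hb (hc (h.trans hj.symm)))]
      exact AlternatingMap.map_update_zero _ _ _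
    · have hb : b ≠ a := fun h => hr2 (by rw [h])
      rw [update_hi_hi, if_neg hb, AltM_hi, t4 _ (hx b)]
      exact AlternatingMap.map_update_zero _ _ _

/-- two injective tuples with the same places -/
theorem AltM_same [Fintype S] [DecidableEq S] (e : Basis (Bool × S × Fin p) ℂ U)
    (α : U [⋀^Fin (2 * k)]→ₗ[ℂ] ℂ) (hα : GlI e α) : ∀ (n : ℕ) (c c' : Fin k → S × Fin p),
    Function.Injective c → Function.Injective c' → (∀ a, (c a).1 = (c' a).1) →
    (Finset.univ.filter fun a => c a ≠ c' a).card ≤ n →
    α (fun r => e (sd c r)) = α (fun r => e (sd c' r)) := by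
  classical
  intro n
  induction n with
  | zero =>
    intro c c' hc hc' hs hn
    have : c = c' := by
      funext a
      by_contra ha
      have h1 : a ∈ Finset.univ.filter fun a => c a ≠ c' a := by
        rw [Finset.mem_filter]
        exact ⟨Finset.mem_univ _, ha⟩
      have h2 := Finset.card_pos.2 ⟨a, h1⟩
      omega
    rw [this]
  | succ n ih =>
    intro c c' hc hc' hs hn
    by_cases hcc : c = c'
    · rw [hcc]
    obtain ⟨a, ha⟩ := Function.ne_iff.1 hcc
    by_cases hv : ∃ b, c b = c' a
    · obtain ⟨b, hb⟩ := hv
      have hab : a ≠ b := by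
        rintro rfl
        exact ha hb
      have h1 : Function.Injective (c ∘ Equiv.swap a b) := hc.comp (Equiv.injective _)
      rw [← AltM_swap e α c a b hab]
      apply ih _ _ h1 hc'
      · intro x
        simp only [Function.comp_apply]
        by_cases hxa : x = a
        · subst hxa
          rw [Equiv.swap_apply_left, hb]
        by_cases hxb : x = b
        · subst hxb
          rw [Equiv.swap_apply_right, hs a, ← hb, hs]
        · rw [Equiv.swap_apply_of_ne_of_ne hxa hxb, hs]
      · have h2 : (Finset.univ.filter fun x => (c ∘ Equiv.swap a b) x ≠ c' x) ⊂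
            Finset.univ.filter fun x => c x ≠ c' x := by
          rw [Finset.ssubset_iff_of_subset]
          · refine ⟨a, ?_, ?_⟩
            · rw [Finset.mem_filter]
              exact ⟨Finset.mem_univ _, ha⟩
            · rw [Finset.mem_filter]
              rintro ⟨_, h⟩
              apply h
              rw [Function.comp_apply, Equiv.swap_apply_left, hb]
          · intro x hx
            rw [Finset.mem_filter] at hx ⊢
            refine ⟨Finset.mem_univ _, ?_⟩
            have hx2 := hx.2
            rw [Function.comp_apply] at hx2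
            by_cases hxa : x = a
            · subst hxa
              exact ha
            by_cases hxb : x = b
            · subst hxb
              intro h
              apply hab
              apply hc'
              rw [← hb, h]
            · rw [Equiv.swap_apply_of_ne_of_ne hxa hxb] at hx2
              exact hx2
        have h3 := Finset.card_lt_card h2
        omega
    · push Not at hv
      rw [← AltM_move e α hα c hc a (c' a) hv (hs a)]
      apply ih _ _ _ hc'
      · intro x
        by_cases hxa : x = a
        · subst hxa
          rw [Function.update_self]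
        · rw [Function.update_of_ne hxa, hs]
      · have h2 : (Finset.univ.filter fun x => Function.update c a (c' a) x ≠ c' x) ⊂
            Finset.univ.filter fun x => c x ≠ c' x := by
          rw [Finset.ssubset_iff_of_subset]
          · refine ⟨a, ?_, ?_⟩
            · rw [Finset.mem_filter]
              exact ⟨Finset.mem_univ _, ha⟩
            · rw [Finset.mem_filter]
              rintro ⟨_, h⟩
              apply h
              rw [Function.update_self]
          · intro x hx
            rw [Finset.mem_filter] at hx ⊢
            refine ⟨Finset.mem_univ _, ?_⟩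
            have hx2 := hx.2
            by_cases hxa : x = a
            · subst hxa
              exact ha
            · rw [Function.update_of_ne hxa] at hx2
              exact hx2
        have h3 := Finset.card_lt_card h2
        omega
      · intro x y hxy
        by_cases hxa : x = a
        · by_cases hya : y = a
          · rw [hxa, hya]
          · rw [hxa, Function.update_self, Function.update_of_ne hya] at hxy
            exact absurd hxy.symm (hv y)
        · by_cases hya : y = a
          · rw [hya, Function.update_self, Function.update_of_ne hxa] at hxy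
            exact absurd hxy (hv x)
          · rw [Function.update_of_ne hxa, Function.update_of_ne hya] at hxy
            exact hc hxy

end

theorem thm_AltM : St_AltM := by
  intro U _ _ S _ _ p k e α hα c c' hc hc' hπ
  obtain ⟨π, hπ⟩ := hπ
  rw [← AltM_perm e α c π]
  exact AltM_same e α hα _ (c ∘ π) c' (hc.comp π.injective) hc' hπ le_rfl

end BSM
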