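import Pool.Agent.BTL.St
import Pool.Agent.DWG.St

/-!
# BSM: simple abelian varieties of signature `(n - 1, 1)` (definitions)

`A` is a simple abelian variety with an endomorphism `J`, `J^2 = -d`, and the step `F^0` of the
Hodge filtration of `H_1(A)` meets an eigenspace of `J` in a line. The endomorphisms which commute
with `J` form a CM field `L`.
-/

set_option autoImplicit false

namespace BSM

open Module Matrix NumberField Pool.Agent.Helper7
open Pool.Agent.GPC (AbVar Form IsGrothendieck IsDivisorial)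
open PSQ (W Inv BetR DRA)

/-- The frame `F` of the field `L` of the endomorphisms which commute with `J = ρ x`. The step `F^0`
of the Hodge filtration meets the eigenspace of `σ₀` in a line and the eigenspaces of the other
embeddings `σ` with `σ x = z` in zero. -/
structure LF (A : AbVar) (J : Module.End ℂ A.H1) (z : ℂ) {L : Type} [Field L] [NumberField L]
    {m : ℕ} (F : UF (pData A) L m) (x : L) (σ₀ : L →+* ℂ) : Prop where
  act : ∀ v : A.H1, F.ρ x v = J v
  at0 : σ₀ x = z
  one : finrank ℂ (Submodule.span ℂ {v : A.H1 | (∀ y, F.ρ y v = σ₀ y • v) ∧ A.IsFil v}) = 1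
  zero : ∀ σ : L →+* ℂ, σ x = z → σ ≠ σ₀ →
    ∀ v : A.H1, (∀ y, F.ρ y v = σ y • v) → A.IsFil v → v = 0

/-- `C` is the projection of `H_1` on the complex conjugate of `F^0` along `F^0`. -/
structure IsHop (A : AbVar) (C : Module.End ℂ A.H1) : Prop where
  fil : ∀ v : A.H1, A.IsFil v → C v = 0
  conj : ∀ v : A.H1, A.IsFil v → C (cB (pData A) v) = cB (pData A) v

/-- A class on `A` as a form on the product of one copy of `H_1(A)`. -/
noncomputable def t1 (A : AbVar) {k : ℕ} (α : A.Class (2 * k)) :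
    (W (Fin A.g ⊕ Fin A.g) 1) [⋀^Fin (2 * k)]→ₗ[ℂ] ℂ :=
  α.compLinearMap (Pool.Agent.Helper83.Ball.one A).symm.toLinearMap

/-- The data of a form on one copy of `H_1(A)` which is rational, algebraic and invariant under the
Hodge operator. -/
structure HD (A : AbVar) (d : ℚ) (J : Module.End ℂ A.H1) (z : ℂ) {L : Type} [Field L]
    [NumberField L] {m : ℕ} (F : UF (pData A) L m) (x : L) (σ₀ : L →+* ℂ)
    (C : Module.End ℂ A.H1) (k : ℕ)
    (α : MultilinearMap ℂ (fun _ : Fin (2 * k) => W (Fin A.g ⊕ Fin A.g) 1) ℂ) : Prop where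
  g3 : 3 ≤ A.g
  ks : DWC.IsKs A d J
  z2 : z ^ 2 = -(d : ℂ)
  lf : LF A J z F x σ₀
  hop : IsHop A C
  bet : BetR (pData A) 1 k α
  alg : DRA 1 k α
  inv : Inv (pData A) 1 k α C 1

/-- The pairing of the blocks of index `s` of a basis. -/
noncomputable def bs {U : Type} [AddCommGroup U] [Module ℂ U] {S : Type} {p : ℕ}
    (e : Basis (Bool × S × Fin p) ℂ U) (s : S) : U →ₗ[ℂ] U →ₗ[ℂ] ℂ :=
  ∑ j : Fin p, (LinearMap.mul ℂ ℂ).compl₁₂ (e.coord (true, s, j)) (e.coord (false, s, j))

/-- A tuple of pairs of basis vectors: `(true, c 0), (false, c 0), (true, c 1), …`. -/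
def sd {S : Type} {p k : ℕ} (c : Fin k → S × Fin p) (r : Fin (2 * k)) : Bool × S × Fin p :=
  (decide ((r : ℕ) % 2 = 0), c ⟨(r : ℕ) / 2, by omega⟩)

/-- `α` is invariant under the product of the general linear groups of the places `s`, acting on the
span of the `e (true, s, ·)` and by the contragredient representation on the span of the
`e (false, s, ·)`. -/
def GlI {U : Type} [AddCommGroup U] [Module ℂ U] {S : Type} {p k : ℕ}
    (e : Basis (Bool × S × Fin p) ℂ U) (α : U [⋀^Fin (2 * k)]→ₗ[ℂ] ℂ) : Prop :=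
  ∀ (y : S → Matrix (Fin p) (Fin p) ℂ) (X : Module.End ℂ U),
    (∀ s j, X (e (true, s, j)) = ∑ i, y s i j • e (true, s, i)) →
    (∀ s i, X (e (false, s, i)) = -∑ j, y s i j • e (false, s, j)) →
    ∀ v : Fin (2 * k) → U, ∑ r, α (Function.update v r (X (v r))) = 0

end BSM
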