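import Pool.Agent.BSM.Defs

/-!
# BSM: frozen statements

Every module `Pool/Agent/BSM/<X>.lean` imports this file and proves `theorem thm_<X> : St_<X>` (with
the hypotheses named in its offer), namespace `BSM`, own lemmas with names starting with the name
of the module. The docstrings contain the proofs.
-/

set_option autoImplicit false

namespace BSM

open Module Matrix NumberField Pool.Agent.Helper7
open Pool.Agent.GPC (AbVar Form IsGrothendieck IsDivisorial)
open Pool.Agent.Ball (gAt cAt HG)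
open Pool.Agent.Helper8.D (ent)
open PSQ (W Inv BetR DRA)

/-! ## Part A. The field -/

/-- [Adj] the Rosati adjoint of `J` is `-J`. PROOF. Let `J'` be the adjoint of `J`
(`Pool.Agent.Helper39.AF.exists_adj_mor`), `J'^2 = -d` (adjoint of `J^2`, `pol` is not degenerate).
`T = J J' - J' J` is an endomorphism and `J T = -T J`. If `T` is not zero it is injective
(`IsSimple`), so it maps `filEigen J z` injectively into `filEigen J (-z)` and conversely, so both
have dimension `1`; but the sum of the dimensions is `A.g` (`DWG.St_DimK` has this for `IsKs`; here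
use `Pool.Agent.Helper7.AFT.finrank_add`, which does not need the adjoint). So `T = 0`,
`(J' - J)(J' + J) = 0`, and by simplicity `J' = J` or `J' = -J`. `J' = J` is impossible: for `v` in
`F^0`, `J v = w v`, `w` purely imaginary, `v ≠ 0`, `ψ (J v) (cB v) = w ψ v (cB v)` and
`ψ v (J (cB v)) = ψ v (cB (J v)) = conj w ψ v (cB v)`, `ψ v (cB v) ≠ 0` (`sign_fil`). -/
def St_Adj : Prop := ∀ (A : AbVar) (d : ℚ) (J : Module.End ℂ A.H1) (z : ℂ), A.IsSimple →
  3 ≤ A.g → 0 < d → A.IsEnd J → (∀ v, J (J v) = (-(d : ℂ)) • v) → z ^ 2 = -(d : ℂ) →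
  finrank ℂ (A.filEigen J z) = 1 → DWC.IsKs A d J

/-- [Fld] the field `L`. PROOF. The `f` in `Module.End ℂ H_1` with `IsEnd f`, `f J = J f` form a
`ℚ`-subalgebra `L`. It acts on the line `filEigen J z` by a ring homomorphism `σ₀ : L → ℂ`, which is
injective because `A` is simple (`f` with `f e = 0`, `e ≠ 0` is zero). So `L` is commutative without
zero divisors; it is finite over `ℚ` (it embeds in the endomorphisms of the finite dimensional
rational space `(pData A).Q`), so it is a number field. -/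
def St_Fld : Prop := ∀ (A : AbVar) (d : ℚ) (J : Module.End ℂ A.H1) (z : ℂ), A.IsSimple →
  DWC.IsKs A d J → z ^ 2 = -(d : ℂ) → finrank ℂ (A.filEigen J z) = 1 →
  ∃ (L : Type) (_ : Field L) (_ : NumberField L) (R : L →+* Module.End ℂ A.H1) (x : L)
    (σ₀ : L →+* ℂ), (∀ y, A.IsEnd (R y)) ∧
    (∀ f, A.IsEnd f → (∀ v, f (J v) = J (f v)) → ∃ y, ∀ v, f v = R y v) ∧
    (∀ v, R x v = J v) ∧ σ₀ x = z ∧
    ∃ e : A.H1, e ≠ 0 ∧ A.IsFil e ∧ J e = z • e ∧ ∀ y, R y e = σ₀ y • e

/-- [CcL] the adjoints are given by complex conjugation. PROOF. `cc y`: the adjoint of `R y`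
(`Pool.Agent.Helper39.AF.exists_adj_mor`) commutes with `J` (`IsKs.adj`), so it is `R (cc y)`.
`σ (cc y) = conj (σ y)`: let `v ≠ 0` be in the eigenspace of `σ` (`R y v = σ y • v` for all `y`; it
is not zero because it contains `proj R σ` of the rational vectors, or because `R` is faithful). It
is the sum of its intersections with `F^0` and `conj F^0` (`exists_hodge`, `proj_fil`, `proj_cB` in
Pool/Agent/Helper84/Sign.lean, Pool/Agent/Helper83/Ball), so there is such a `v` in `F^0` or with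
`cB v` in `F^0`. Compare `ψ (R y v) (cB v) = σ y ψ v (cB v)` and
`ψ v (R (cc y) (cB v)) = ψ v (cB (R (cc y) v)) = conj (σ (cc y)) ψ v (cB v)`; `ψ v (cB v) ≠ 0`
(`sign_fil`, applied to `v` or to `cB v`). -/
def St_CcL : Prop := ∀ (A : AbVar) (d : ℚ) (J : Module.End ℂ A.H1) (L : Type) [Field L]
  [NumberField L] (R : L →+* Module.End ℂ A.H1) (x : L), DWC.IsKs A d J → (∀ y, A.IsEnd (R y)) →
  (∀ f, A.IsEnd f → (∀ v, f (J v) = J (f v)) → ∃ y, ∀ v, f v = R y v) →
  (∀ v, R x v = J v) → (∃ e : A.H1, e ≠ 0) → ∃ cc : L → L,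
    (∀ (σ : L →+* ℂ) y, σ (cc y) = starRingEnd ℂ (σ y)) ∧
    ∀ y u v, (pData A).ψ (R y u) v = (pData A).ψ u (R (cc y) v)

/-- [UFr] the frame. PROOF. `CcL`. The other fields as in
`Pool.Agent.Ball.nonempty_UF2` (Pool/Agent/Helper8/B/Main2.lean), `exists_Kbasis`; `m` is the
dimension over `L` of `(pData A).Q`. `LF`: a vector of `F^0` in the eigenspace of `σ`, `σ x = z`, is
in `filEigen J z`, a line spanned by `e`, so it is `c e`, and if `c ≠ 0` then `σ = σ₀`. -/
def St_UFr : Prop := ∀ (A : AbVar) (d : ℚ) (J : Module.End ℂ A.H1) (z : ℂ) (L : Type) [Field L]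
  [NumberField L] (R : L →+* Module.End ℂ A.H1) (x : L) (σ₀ : L →+* ℂ) (e : A.H1),
  DWC.IsKs A d J → z ^ 2 = -(d : ℂ) → finrank ℂ (A.filEigen J z) = 1 → (∀ y, A.IsEnd (R y)) →
  (∀ f, A.IsEnd f → (∀ v, f (J v) = J (f v)) → ∃ y, ∀ v, f v = R y v) →
  (∀ v, R x v = J v) → σ₀ x = z → e ≠ 0 → A.IsFil e → J e = z • e →
  (∀ y, R y e = σ₀ y • e) → ∃ (m : ℕ) (F : UF (pData A) L m), LF A J z F x σ₀

/-! ## Part B. The Hodge operator -/

/-- [Hop] the Hodge operator exists. PROOF. `exists_hodge` and `F^0 ∩ conj F^0 = 0`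
(`sign_fil`: for `v` in `F^0` with `cB v` in `F^0`: `ψ v (cB v) = -r` and `= r'`). -/
def St_Hop : Prop := ∀ A : AbVar, ∃ C, IsHop A C

/-- [HCo] the Hodge operator commutes with the endomorphisms and respects the polarisation. PROOF.
A morphism `f` (`IsDRB`) is an endomorphism (`isEnd_of_isDRB`), respects `F^0` and commutes with
`cB`. `F^0` is isotropic (`fil_isotropic`) and `cB` of it too. -/
def St_HCo : Prop := ∀ (A : AbVar) (C : Module.End ℂ A.H1), IsHop A C →
  (∀ f : A.H1 →ₗ[ℂ] A.H1, IsDRB (pData A) (pData A) f → ∀ v, C (f v) = f (C v)) ∧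
    ∀ u v, (pData A).ψ (C u) v + (pData A).ψ u (C v) = (pData A).ψ u v

/-- [HFm] a Hodge class of degree `2 k` has weight `k` for the Hodge operator. PROOF. Both sides are
multilinear; it is enough to take every `v r` in `F^0` or in `conj F^0` (`exists_hodge`). If more
than `k` are in `F^0` the class vanishes (`IsInFil`); if more than `k` are in `conj F^0` also,
because `conj (α v) = ± α (cB v)` (`α` is rational; see Pool/Agent/DWG/BarO.lean); so exactly `k` are
in `conj F^0`, and the sum is `k α`. -/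
def St_HFm : Prop := ∀ (A : AbVar) (C : Module.End ℂ A.H1) (k : ℕ) (α : A.Class (2 * k)),
  IsHop A C → A.IsRational k α → A.IsInFil k α →
  ∀ v : Fin (2 * k) → A.H1, ∑ r, α (Function.update v r (C (v r))) = (k : ℂ) * α v

/-- [HInv] a Hodge class is invariant under the Hodge operator. PROOF. `HCo`, `HFm`. -/
def St_HInv : Prop := ∀ (A : AbVar) (C : Module.End ℂ A.H1) (k : ℕ) (α : A.Class (2 * k)),
  IsHop A C → A.IsRational k α → A.IsInFil k α →
  Inv (pData A) 1 k (t1 A α : MultilinearMap ℂ (fun _ : Fin (2 * k) => W (Fin A.g ⊕ Fin A.g) 1) ℂ)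
    C 1

/-- [CMat] the matrices of the Hodge operator. PROOF. `C` commutes with `L` and the eigenspace of
`σ` is the sum of its intersections with `F^0` and `conj F^0`. For `σ x = z`, `σ ≠ σ₀`, the first is
zero: `C = 1`. For `σ₀` it is a line spanned by `u` : `C = 1 - E`, `E` is the projection on the
line. For `σ x = -z`: the conjugate embedding, and `ψ (C u) v + ψ u (C v) = ψ u v` (as in BTL/Frm). -/
def St_CMat : Prop := ∀ (A : AbVar) (d : ℚ) (J : Module.End ℂ A.H1) (z : ℂ) (L : Type)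
  [Field L] [NumberField L] (m : ℕ) (F : UF (pData A) L m) (x : L) (σ₀ : L →+* ℂ)
  (C : Module.End ℂ A.H1), DWC.IsKs A d J → z ^ 2 = -(d : ℂ) → LF A J z F x σ₀ → IsHop A C →
  F.Comm C ∧ (∀ σ : L →+* ℂ, σ x = z → σ ≠ σ₀ → ent F σ C = 1) ∧
    (∀ σ : L →+* ℂ, σ x = -z → σ ≠ ComplexEmbedding.conjugate σ₀ → ent F σ C = 0) ∧
    (∃ u v : Fin m → ℂ, ∑ i, u i * v i = 1 ∧ ent F σ₀ C = 1 - Matrix.vecMulVec u v) ∧
    (∀ σ : L →+* ℂ, σ x = z ∨ σ x = -z) ∧
    ∀ σ : L →+* ℂ, ComplexEmbedding.conjugate σ x = -(σ x)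

/-! ## Part C. The symmetries -/

/-- [Alg] linear algebra. PROOF. `E = u v^T`. For `M` in `g`: `[M, E]` in `c`, so in `g`, so
`[[M, E], E]` in `c`, so `(1-E) M E` and `E M (1-E)` are in `c`. Let `N` be the space of the `y` with
`v y = 0`, `y v^T` in `c`. `U = ℂ u + N` is stable under `g`: `M u = (v M u) u + (1-E) M u`; for `y`
in `N` apply `(1-E) _ E` to `[M, y v^T]` in `c`: `((1-E) M y) v^T - (v M u) y v^T` in `c`. So `U` is
everything, `N = ker v`. The annihilator of `v` and of the `η` with `η u = 0`, `u η^T` in `c` is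
stable under `g` in the same way and does not contain `u`, so it is zero: all such `η` occur. Then
`[y v^T, u η^T] = y η^T - (η y) u v^T`; these matrices with `y v^T`, `u η^T` span the matrices of
trace zero. -/
def St_Alg : Prop := ∀ (m : ℕ) (g c : Submodule ℂ (Matrix (Fin m) (Fin m) ℂ))
  (u v : Fin m → ℂ), c ≤ g → (∀ A ∈ g, ∀ B ∈ c, A * B - B * A ∈ c) →
  (∀ U : Submodule ℂ (Fin m → ℂ), (∀ A ∈ g, ∀ w ∈ U, A *ᵥ w ∈ U) → U = ⊥ ∨ U = ⊤) →
  ∑ i, u i * v i = 1 → (∀ M ∈ g, M * Matrix.vecMulVec u v - Matrix.vecMulVec u v * M ∈ c) →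
  ∀ y : Matrix (Fin m) (Fin m) ℂ, y.trace = 0 → y ∈ c

/-- [SlL] concentrated symmetries. PROOF. `(C - 1/2, 0)` is a symmetry (`isInv_homothety`). For a
symmetry `(X, 0)` the bracket with it has the matrix `-[M, E]` at `σ₀` and zero at `τ ≠ σ₀, conj σ₀`
(`CMat`), so it is in `cAt`. `Alg` with `g = gAt`, `c = cAt` (`cAt_le`, `cAt_br`, `gAt_irr` of
Pool/Agent/Helper8/B/Rot.lean). Then `cAt_tw` and `Pool.Agent.Helper84.exists_aut`. -/
def St_SlL : Prop := ∀ (A : AbVar) (d : ℚ) (J : Module.End ℂ A.H1) (z : ℂ) (L : Type)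
  [Field L] [NumberField L] (m : ℕ) (F : UF (pData A) L m) (x : L) (σ₀ : L →+* ℂ)
  (C : Module.End ℂ A.H1) (k : ℕ)
  (α : MultilinearMap ℂ (fun _ : Fin (2 * k) => W (Fin A.g ⊕ Fin A.g) 1) ℂ),
  HD A d J z F x σ₀ C k α → ∀ (σ : L →+* ℂ) (y : Matrix (Fin m) (Fin m) ℂ), y.trace = 0 →
    y ∈ cAt (fun _ : Unit => 1) (fun _ => pData A) α () F σ

/-- [CenL] the centre. PROOF. Let `e` be the number of the `σ` with `σ x = z`; `A.g = m e`. The trace
of `X₀ = C - 1/2` at `σ` is `m / 2 - δ_(σ σ₀)`. For each `ρ` with `ρ x = z` there is an automorphism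
`τ` of `ℂ` with `τ σ₀ = ρ` (`Helper84.exists_aut`), and the twist `X_ρ` of `X₀` by `τ`
(`Helper28.GPC.tw`, `isInv_tw`, `entry_tw`; `τ z = z`) has trace `m / 2 - δ_(σ ρ)` at `σ`. The sum of
all `X_ρ` has trace `e m / 2 - 1 = (A.g - 2) / 2 ≠ 0` at all `σ` with `σ x = z`. Combine. -/
def St_CenL : Prop := ∀ (A : AbVar) (d : ℚ) (J : Module.End ℂ A.H1) (z : ℂ) (L : Type)
  [Field L] [NumberField L] (m : ℕ) (F : UF (pData A) L m) (x : L) (σ₀ : L →+* ℂ)
  (C : Module.End ℂ A.H1) (k : ℕ)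
  (α : MultilinearMap ℂ (fun _ : Fin (2 * k) => W (Fin A.g ⊕ Fin A.g) 1) ℂ),
  HD A d J z F x σ₀ C k α → ∀ σ : L →+* ℂ, σ x = z → ∃ X, Inv (pData A) 1 k α X 0 ∧
    (ent F σ X).trace = 1 ∧ ∀ τ : L →+* ℂ, τ x = z → τ ≠ σ → (ent F τ X).trace = 0

/-- [FullL] all matrices occur. PROOF. `CenL` gives a symmetry with the right traces at all `σ` with
`σ x = z`, `SlL` corrects it at each of them (`cAt`: the correction at `σ` is zero at all
`τ ≠ σ, conj σ`, and `conj σ x = -z`). -/
def St_FullL : Prop := ∀ (A : AbVar) (d : ℚ) (J : Module.End ℂ A.H1) (z : ℂ) (L : Type)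
  [Field L] [NumberField L] (m : ℕ) (F : UF (pData A) L m) (x : L) (σ₀ : L →+* ℂ)
  (C : Module.End ℂ A.H1) (k : ℕ)
  (α : MultilinearMap ℂ (fun _ : Fin (2 * k) => W (Fin A.g ⊕ Fin A.g) 1) ℂ),
  HD A d J z F x σ₀ C k α → ∀ Y : (L →+* ℂ) → Matrix (Fin m) (Fin m) ℂ,
    ∃ X, Inv (pData A) 1 k α X 0 ∧ ∀ σ : L →+* ℂ, σ x = z → ent F σ X = Y σ

/-! ## Part D. The first fundamental theorem -/

/-- [FrmL] the basis. PROOF. As BTL/Frm.lean: `e (true, σ, j) = F.e σ j`, `e (false, σ, ·)` is the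
basis of the eigenspace of `conj σ` dual to it for `ψ`. The embeddings are those with `σ x = z` and
their conjugates. -/
def St_FrmL : Prop := ∀ (A : AbVar) (d : ℚ) (J : Module.End ℂ A.H1) (z : ℂ) (L : Type)
  [Field L] [NumberField L] (m : ℕ) (F : UF (pData A) L m) (x : L) (σ₀ : L →+* ℂ),
  DWC.IsKs A d J → z ^ 2 = -(d : ℂ) → LF A J z F x σ₀ →
  ∃ e : Basis (Bool × {σ : L →+* ℂ // σ x = z} × Fin m) ℂ A.H1,
    (∀ σ j, e (true, σ, j) = F.e σ.1 j) ∧
    ∀ (X : Module.End ℂ A.H1) (c : ℂ), F.Comm X →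
    (∀ u v, (pData A).ψ (X u) v + (pData A).ψ u (X v) = c * (pData A).ψ u v) →
    (∀ σ j, X (e (true, σ, j)) = ∑ i, ent F σ.1 X i j • e (true, σ, i)) ∧
    ∀ σ i, X (e (false, σ, i)) = c • e (false, σ, i) - ∑ j, ent F σ.1 X i j • e (false, σ, j)

/-- [AltT] PROOF. `e (v r)` is a tuple of different basis vectors. For the diagonal matrix `y` with
the only entry `1` at `(s, j, j)` the condition `GlI` says `α (e ∘ v) (n - n') = 0`, `n` (`n'`) is
`1` if `(true, s, j)` (`(false, s, j)`) occurs in `v`, and `0` if not. So for every `(s, j)` both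
occur or none, and `v` is a permutation of a tuple of pairs. -/
def St_AltT : Prop := ∀ (U : Type) [AddCommGroup U] [Module ℂ U] (S : Type) [Fintype S]
  [DecidableEq S] (p k : ℕ) (e : Basis (Bool × S × Fin p) ℂ U) (α : U [⋀^Fin (2 * k)]→ₗ[ℂ] ℂ),
  GlI e α → ∀ v : Fin (2 * k) → Bool × S × Fin p, Function.Injective v →
  α (fun r => e (v r)) ≠ 0 → ∃ (c : Fin k → S × Fin p) (π : Equiv.Perm (Fin (2 * k))),
    Function.Injective c ∧ v = sd c ∘ π

/-- [AltM] the value only depends on the number of pairs at each place. PROOF. (1) A permutation of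
the pairs is an even permutation of the vectors. (2) Let `c a = (s, j)`, and let `(s, i)` not be a
value of `c`. The condition for the matrix `y` whose only entry is `1` at `(s, i, j)`, applied to the
tuple `sd c` with `(false, s, j)` replaced by `(false, s, i)`: only the terms at the places `lo a`
and `hi a` are not zero, and they say that the value at `c` is the value at `c` with `(s, j)`
replaced by `(s, i)`. (3) Two injective `c`, `c'` with the same numbers are connected by such moves: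
by (1) assume `(c a).1 = (c' a).1` for all `a`; induct on the number of `a` with `c a ≠ c' a`. For
such `a`: if `c' a` is not a value of `c`, replace `c a` by `c' a`; if `c' a = c b`, the swap of `a`
and `b` (`(c a).1 = (c b).1`) makes them equal at `a` (`c b = c' a ≠ c' b`). -/
def St_AltM : Prop := ∀ (U : Type) [AddCommGroup U] [Module ℂ U] (S : Type) [Fintype S]
  [DecidableEq S] (p k : ℕ) (e : Basis (Bool × S × Fin p) ℂ U) (α : U [⋀^Fin (2 * k)]→ₗ[ℂ] ℂ),
  GlI e α → ∀ c c' : Fin k → S × Fin p, Function.Injective c → Function.Injective c' →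
  (∃ π : Equiv.Perm (Fin k), ∀ a, (c (π a)).1 = (c' a).1) →
  α (fun r => e (sd c r)) = α (fun r => e (sd c' r))

/-- [AltV] the values of the products. PROOF. `wedge_apply`: the term of the permutation `τ` of
`Fin (2 * k)` is not zero only if for all `a`, `sd c (τ (lo a)) = (true, t a, j)` and
`sd c (τ (hi a)) = (false, t a, j)` for some `j`; as `c` is injective this means `τ (lo a) = lo b`,
`τ (hi a) = hi b`, `(c b).1 = t a`. So `τ` is the double of the permutation `a ↦ b`, its sign is `1`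
and the term is `1`. -/
def St_AltV : Prop := ∀ (U : Type) [AddCommGroup U] [Module ℂ U] (S : Type) [Fintype S]
  [DecidableEq S] (p k : ℕ) (e : Basis (Bool × S × Fin p) ℂ U) (t : Fin k → S)
  (c : Fin k → S × Fin p), Function.Injective c →
  wedge (fun a => bs e (t a)) (fun r => e (sd c r)) =
    (Fintype.card {π : Equiv.Perm (Fin k) // ∀ a, (c (π a)).1 = t a} : ℂ)

/-- [AltW] the products are invariant. PROOF. `bs e s (X u) v + bs e s u (X v) = 0` (check on the
basis), so every term of `wedge_apply` is killed. -/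
def St_AltW : Prop := ∀ (U : Type) [AddCommGroup U] [Module ℂ U] (S : Type) [Fintype S]
  [DecidableEq S] (p k : ℕ) (e : Basis (Bool × S × Fin p) ℂ U) (t : Fin k → S),
  GlI e (wedge fun a => bs e (t a))

/-- [AltL] alternating forms which are invariant under a product of general linear groups. PROOF.
For `t : Fin k → S` let `G t = α (e ∘ sd c)` for an injective `c` with `(c a).1 = t a` for all `a`,
if there is one, and `G t = 0` if not. Let `β = α - ∑ t, (G t / k !) • wedge (fun a => bs e (t a))`.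
`GlI e β` (`AltW`). For `c` injective, by `AltV` and `AltM`,
`∑ t, G t / k ! * #{π | ∀ a, (c (π a)).1 = t a} = (1 / k !) * ∑ π, G (fun a => (c (π a)).1)
= α (e ∘ sd c)`. So `β` is zero on the tuples `sd c`, and on all injective tuples of basis vectors
(`AltT` for `β`), so `β = 0` (`Basis.ext_alternating`). -/
def St_AltL : Prop := ∀ (U : Type) [AddCommGroup U] [Module ℂ U] (S : Type) [Fintype S]
  [DecidableEq S] (p k : ℕ) (e : Basis (Bool × S × Fin p) ℂ U) (α : U [⋀^Fin (2 * k)]→ₗ[ℂ] ℂ),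
  GlI e α → α ∈ Submodule.span ℂ {ω | ∃ c : Fin k → S, ω = wedge fun a => bs e (c a)}

/-- [FamL] the classes are divisorial. PROOF. `α` is invariant under the operators of `AltL` for the
basis of `FrmL` (transported to one copy of `H_1` by `one A`): by `FullL` there is a symmetry
`(X, 0)` with the given matrices, and it is the operator (`FrmL`). So `α` is in the complex span of
the `wedge` of the forms `bs e σ`, which are in `invB` (`FrmL`), so `PSQ.descent` applies (`wedge` is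
a combination of permutations of `prodBilin`; or use the second half of the proof of
`PSQ.descent`). -/
def St_FamL : Prop := ∀ (A : AbVar) (d : ℚ) (J : Module.End ℂ A.H1) (z : ℂ) (L : Type)
  [Field L] [NumberField L] (m : ℕ) (F : UF (pData A) L m) (x : L) (σ₀ : L →+* ℂ)
  (C : Module.End ℂ A.H1) (k : ℕ) (α : (W (Fin A.g ⊕ Fin A.g) 1) [⋀^Fin (2 * k)]→ₗ[ℂ] ℂ),
  HD A d J z F x σ₀ C k
    (α : MultilinearMap ℂ (fun _ : Fin (2 * k) => W (Fin A.g ⊕ Fin A.g) 1) ℂ) →
  α ∈ Submodule.span ℚ {ω | ∃ γ : Fin k → (W (Fin A.g ⊕ Fin A.g) 1 →ₗ[ℂ]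
    W (Fin A.g ⊕ Fin A.g) 1 →ₗ[ℂ] ℂ),
    (∀ a, γ a ∈ GW (fun _ : Unit => 1) (fun _ => pData A)) ∧ ω = wedge γ}

/-! ## Part E. The theorem -/

/-- [FinS] the theorem. PROOF. The case `m ≠ 1`: `BTL.St_Fin`. The case `m = 1`: `Adj`, `Fld`, `UFr`;
a form `α` on one copy of `H_1(A)` is `t1 A α'`, `α'` is a Grothendieck class
(Pool/Agent/Helper83/Ball/Final.lean), so it is in `F^k` (`DWG.St_FinG`), so `Hop`, `HInv` give
`HD`; `FamL`, `isDivisorial_of_span`. The converse: `isGrothendieck_of_isDivisorial`. -/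
def St_FinS : Prop := ∀ (A : AbVar) (d : ℚ) (J : Module.End ℂ A.H1) (z : ℂ), A.IsSimple →
  3 ≤ A.g → 0 < d → A.IsEnd J → (∀ v, J (J v) = (-(d : ℂ)) • v) → z ^ 2 = -(d : ℂ) →
  finrank ℂ (A.filEigen J z) = 1 → ∀ m k : ℕ,
  (m = 1 ∨ (Even A.g ∧ ∀ f, A.IsEnd f → ∃ a b : ℚ, ∀ v, f v = (a : ℂ) • v + (b : ℂ) • J v)) →
  ∀ α : Form (fun _ : Unit => A) (fun _ => m) (2 * k),
  IsGrothendieck (fun _ : Unit => A) (fun _ => m) k α ↔
    IsDivisorial (fun _ : Unit => A) (fun _ => m) k α

end BSM
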